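import Pool.Agent.FC9311.Defs

namespace Pool.Agent.FC9311

open MeasureTheory Filter Topology Set
open scoped ENNReal

namespace Sponge

variable {d : ℕ} (S : Sponge d)

instance finiteE : Finite S.E := by
  have := S.finite_A
  have : Finite (∀ i, S.A i) := Pi.finite
  exact Subtype.finite

instance discreteE : DiscreteTopology S.E := ⟨rfl⟩

instance nonemptyE : Nonempty S.E := S.nonempty_E.to_subtype

instance : DiscreteMeasurableSpace S.E := ⟨fun _ => trivial⟩

instance : BorelSpace S.E := ⟨by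
  have : borel S.E = ⊤ := by
    apply top_unique
    intro s _
    exact MeasurableSpace.measurableSet_generateFrom (isOpen_discrete s)
  rw [this]; rfl⟩

/-- product of the (signed) contraction ratios of the first `n` symbols in coordinate `j`. -/
noncomputable def R (j : Fin d) (ω : ℕ → S.E) (n : ℕ) : ℝ :=
  ∏ s ∈ Finset.range n, S.r j ((ω s).1 j)

/-- translation part of the composition of the first `n` maps. -/
noncomputable def P (j : Fin d) (ω : ℕ → S.E) (n : ℕ) : ℝ :=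
  ∑ s ∈ Finset.range n, S.R j ω s * S.t j ((ω s).1 j)

/-- the sequence without its first `n` symbols. -/
def tail {X : Type*} (n : ℕ) (ω : ℕ → X) : ℕ → X := fun k => ω (n + k)

lemma comp_apply (ω : ℕ → S.E) (n : ℕ) (x : Fin d → ℝ) (j : Fin d) :
    S.comp ω n x j = S.R j ω n * x j + S.P j ω n := by
  induction n generalizing x with
  | zero => simp [comp, R, P]
  | succ n ih =>
    simp only [comp, Function.comp]
    rw [ih]
    simp only [R, P, phi, Finset.prod_range_succ, Finset.sum_range_succ]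
    ring

lemma R_zero (j : Fin d) (ω : ℕ → S.E) : S.R j ω 0 = 1 := by simp [R]

lemma R_succ (j : Fin d) (ω : ℕ → S.E) (n : ℕ) :
    S.R j ω (n + 1) = S.R j ω n * S.r j ((ω n).1 j) := by simp [R, Finset.prod_range_succ]

lemma R_ne (j : Fin d) (ω : ℕ → S.E) (n : ℕ) : S.R j ω n ≠ 0 := by
  unfold R
  exact Finset.prod_ne_zero_iff.2 fun s _ => S.r_ne _ _

lemma R_add (j : Fin d) (ω : ℕ → S.E) (n m : ℕ) :
    S.R j ω (n + m) = S.R j ω n * S.R j (tail n ω) m := by
  simp only [R, Finset.prod_range_add, tail]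

lemma P_add (j : Fin d) (ω : ℕ → S.E) (n m : ℕ) :
    S.P j ω (n + m) = S.P j ω n + S.R j ω n * S.P j (tail n ω) m := by
  simp only [P, Finset.sum_range_add, Finset.mul_sum]
  congr 1
  apply Finset.sum_congr rfl
  intro k _
  rw [R_add, mul_assoc]
  rfl

lemma comp_mem (ω : ℕ → S.E) (n : ℕ) (x : Fin d → ℝ) (hx : ∀ j, x j ∈ Icc (0 : ℝ) 1) (j : Fin d) :
    S.comp ω n x j ∈ Icc (0 : ℝ) 1 := by
  induction n generalizing x with
  | zero => exact hx j
  | succ n ih =>
    simp only [comp, Function.comp]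
    apply ih
    intro i
    exact S.maps i _ _ (hx i)

lemma P_mem (j : Fin d) (ω : ℕ → S.E) (n : ℕ) : S.P j ω n ∈ Icc (0 : ℝ) 1 := by
  have := S.comp_mem ω n 0 (fun j => by simp) j
  rw [comp_apply] at this
  simpa using this

lemma exists_rho : ∃ ρ : ℝ, 0 < ρ ∧ ρ < 1 ∧ ∀ i a, |S.r i a| ≤ ρ := by
  have := S.finite_A
  have : Finite (Σ i, S.A i) := inferInstance
  by_cases hne : Nonempty (Σ i, S.A i)
  · obtain ⟨x, hx⟩ := Finite.exists_max (fun x : Σ i, S.A i => |S.r x.1 x.2|)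
    refine ⟨|S.r x.1 x.2|, abs_pos.2 (S.r_ne _ _), S.r_lt _ _, fun i a => hx ⟨i, a⟩⟩
  · refine ⟨1/2, by norm_num, by norm_num, fun i a => (hne ⟨⟨i, a⟩⟩).elim⟩

lemma abs_R_le {ρ : ℝ} (hρ : ∀ i a, |S.r i a| ≤ ρ) (j : Fin d) (ω : ℕ → S.E) (n : ℕ) :
    |S.R j ω n| ≤ ρ ^ n := by
  unfold R
  rw [Finset.abs_prod]
  calc ∏ s ∈ Finset.range n, |S.r j ((ω s).1 j)| ≤ ∏ s ∈ Finset.range n, ρ :=
        Finset.prod_le_prod (fun _ _ => abs_nonneg _) (fun _ _ => hρ _ _)
    _ = ρ ^ n := by simp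

lemma tendsto_R (j : Fin d) (ω : ℕ → S.E) : Tendsto (fun n => S.R j ω n) atTop (𝓝 0) := by
  obtain ⟨ρ, h0, h1, hρ⟩ := S.exists_rho
  apply squeeze_zero_norm (fun n => S.abs_R_le hρ j ω n)
  exact tendsto_pow_atTop_nhds_zero_of_lt_one h0.le h1

lemma exists_lim (j : Fin d) (ω : ℕ → S.E) : ∃ x, Tendsto (fun n => S.P j ω n) atTop (𝓝 x) := by
  obtain ⟨ρ, h0, h1, hρ⟩ := S.exists_rho
  apply cauchySeq_tendsto_of_complete
  apply cauchySeq_of_le_geometric ρ 1 h1
  intro n
  rw [Real.dist_eq, abs_sub_comm, P_add]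
  have h2 := S.abs_R_le hρ j ω n
  have h3 := S.P_mem j (tail n ω) 1
  rw [add_sub_cancel_left, abs_mul, one_mul]
  calc |S.R j ω n| * |S.P j (tail n ω) 1| ≤ ρ ^ n * 1 := by
        apply mul_le_mul h2 _ (abs_nonneg _) (by positivity)
        rw [abs_of_nonneg h3.1]; exact h3.2
    _ = ρ ^ n := mul_one _

lemma tendsto_comp (ω : ℕ → S.E) : Tendsto (fun n => S.comp ω n 0) atTop (𝓝 (S.code ω)) := by
  choose x hx using fun j => S.exists_lim j ω
  have h : Tendsto (fun n => S.comp ω n 0) atTop (𝓝 x) := by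
    rw [tendsto_pi_nhds]
    intro j
    have : (fun n => S.comp ω n 0 j) = fun n => S.P j ω n := by
      funext n; rw [comp_apply]; simp
    rw [this]
    exact hx j
  have hh : S.code ω = x := h.limUnder_eq
  rw [hh]; exact h

lemma tendsto_P (j : Fin d) (ω : ℕ → S.E) :
    Tendsto (fun n => S.P j ω n) atTop (𝓝 (S.code ω j)) := by
  have := (tendsto_pi_nhds.1 (S.tendsto_comp ω)) j
  have h : (fun n => S.comp ω n 0 j) = fun n => S.P j ω n := by
    funext n; rw [comp_apply]; simp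
  rwa [h] at this

lemma code_mem (j : Fin d) (ω : ℕ → S.E) : S.code ω j ∈ Icc (0 : ℝ) 1 :=
  isClosed_Icc.mem_of_tendsto (S.tendsto_P j ω) (Eventually.of_forall fun n => S.P_mem j ω n)

lemma code_tail (j : Fin d) (ω : ℕ → S.E) (n : ℕ) :
    S.code ω j = S.P j ω n + S.R j ω n * S.code (tail n ω) j := by
  have h1 : Tendsto (fun m => S.P j ω (n + m)) atTop (𝓝 (S.code ω j)) := by
    have := (S.tendsto_P j ω).comp (tendsto_add_atTop_nat n)
    simpa [Function.comp_def, add_comm] using this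
  have h2 : Tendsto (fun m => S.P j ω (n + m)) atTop
      (𝓝 (S.P j ω n + S.R j ω n * S.code (tail n ω) j)) := by
    simp only [P_add]
    exact tendsto_const_nhds.add ((S.tendsto_P j (tail n ω)).const_mul _)
  exact tendsto_nhds_unique h1 h2

lemma R_congr {j : Fin d} {ω ω' : ℕ → S.E} {n : ℕ} (h : ∀ s < n, (ω s).1 j = (ω' s).1 j) :
    S.R j ω n = S.R j ω' n := by
  unfold R
  apply Finset.prod_congr rfl
  intro s hs
  rw [h s (Finset.mem_range.1 hs)]

lemma P_congr {j : Fin d} {ω ω' : ℕ → S.E} {n : ℕ} (h : ∀ s < n, (ω s).1 j = (ω' s).1 j) :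
    S.P j ω n = S.P j ω' n := by
  unfold P
  apply Finset.sum_congr rfl
  intro s hs
  rw [Finset.mem_range] at hs
  rw [h s hs, S.R_congr (fun s' hs' => h s' (hs'.trans hs))]

lemma code_sub {j : Fin d} {ω ω' : ℕ → S.E} {n : ℕ} (h : ∀ s < n, (ω s).1 j = (ω' s).1 j) :
    S.code ω j - S.code ω' j = S.R j ω n * (S.code (tail n ω) j - S.code (tail n ω') j) := by
  rw [S.code_tail j ω n, S.code_tail j ω' n, S.R_congr h, S.P_congr h]
  ring

lemma abs_code_sub_le {j : Fin d} {ω ω' : ℕ → S.E} {n : ℕ}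
    (h : ∀ s < n, (ω s).1 j = (ω' s).1 j) : |S.code ω j - S.code ω' j| ≤ |S.R j ω n| := by
  rw [S.code_sub h, abs_mul]
  have h1 := S.code_mem j (tail n ω)
  have h2 := S.code_mem j (tail n ω')
  have : |S.code (tail n ω) j - S.code (tail n ω') j| ≤ 1 := by
    rw [abs_le]
    constructor <;> linarith [h1.1, h1.2, h2.1, h2.2]
  calc _ ≤ |S.R j ω n| * 1 := mul_le_mul_of_nonneg_left this (abs_nonneg _)
    _ = _ := mul_one _

lemma continuous_code : Continuous S.code := by
  obtain ⟨ρ, h0, h1, hρ⟩ := S.exists_rho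
  rw [continuous_pi_iff]
  intro j
  rw [continuous_iff_continuousAt]
  intro ω
  rw [ContinuousAt, Metric.tendsto_nhds]
  intro ε hε
  obtain ⟨n, hn⟩ := exists_pow_lt_of_lt_one hε h1
  have hopen : {ω' : ℕ → S.E | ∀ s ∈ Finset.range n, ω' s = ω s} ∈ 𝓝 ω := by
    apply IsOpen.mem_nhds
    · have : {ω' : ℕ → S.E | ∀ s ∈ Finset.range n, ω' s = ω s}
          = ⋂ s ∈ Finset.range n, (fun ω' : ℕ → S.E => ω' s) ⁻¹' {ω s} := by
        ext ω'; simp
      rw [this]
      apply isOpen_biInter_finset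
      intro s _
      exact (isOpen_discrete _).preimage (continuous_apply s)
    · intro s _; rfl
  filter_upwards [hopen] with ω' hω'
  rw [Real.dist_eq]
  refine lt_of_le_of_lt (S.abs_code_sub_le (n := n) ?_) (lt_of_le_of_lt (S.abs_R_le hρ _ _ _) hn)
  intro s hs
  rw [hω' s (Finset.mem_range.2 hs)]

lemma measurable_code : Measurable S.code := S.continuous_code.measurable

end Sponge

end Pool.Agent.FC9311
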