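import Pool.Agent.FC9311.Defs

/-!
Bernoulli measures on sequences: ergodicity and the strong law of large numbers.
-/

namespace Pool.Agent.FC9311

open MeasureTheory Filter Topology Set ProbabilityTheory
open scoped ENNReal NNReal

lemma shift_iterate {X : Type*} (n : ℕ) (ω : ℕ → X) (k : ℕ) :
    (Sponge.shift^[n] ω) k = ω (n + k) := by
  induction n generalizing ω with
  | zero => simp
  | succ n ih =>
    rw [Function.iterate_succ_apply, ih]
    unfold Sponge.shift
    congr 1; ring

theorem ergodic_shift {X : Type*} [MeasurableSpace X] (P : Measure X) [IsProbabilityMeasure P] :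
    Ergodic (Sponge.shift : (ℕ → X) → (ℕ → X)) (Measure.infinitePi (fun _ : ℕ => P)) := by
  have hmeas : Measurable (Sponge.shift : (ℕ → X) → (ℕ → X)) :=
    measurable_pi_lambda _ (fun n => measurable_pi_apply (n + 1))
  have hmp : MeasurePreserving (Sponge.shift : (ℕ → X) → (ℕ → X))
      (Measure.infinitePi (fun _ : ℕ => P)) (Measure.infinitePi (fun _ : ℕ => P)) := by
    refine ⟨hmeas, ?_⟩
    have := MeasureTheory.Measure.map_infinitePi_infinitePi_of_inj (P := fun _ : ℕ => P)
      (f := fun n : ℕ => n + 1) (fun a b h => by simpa using h)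
    exact this
  refine { toMeasurePreserving := hmp, aeconst_set := ?_ }
  intro A hA hinv
  have hiter : ∀ n : ℕ, (Sponge.shift^[n]) ⁻¹' A = A := by
    intro n
    induction n with
    | zero => simp
    | succ n ih => rw [Function.iterate_succ, preimage_comp, ih, hinv]
  set s : ℕ → MeasurableSpace (ℕ → X) := fun n =>
    MeasurableSpace.comap (fun ω : ℕ → X => ω n) inferInstance with hs
  have hle : ∀ n, s n ≤ MeasurableSpace.pi := fun n => (measurable_pi_apply n).comap_le
  have hind : iIndep s (Measure.infinitePi (fun _ : ℕ => P)) := by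
    have h1 := iIndepFun_infinitePi (P := fun _ : ℕ => P) (X := fun _ (x : X) => x)
      (fun _ => measurable_id)
    exact h1.iIndep
  have htail : MeasurableSet[limsup s atTop] A := by
    rw [Filter.limsup_eq_iInf_iSup_of_nat, MeasurableSpace.measurableSet_iInf]
    intro n
    rw [← hiter n]
    have h2 : @Measurable _ _ (⨆ i, ⨆ (_ : i ≥ n), s i) MeasurableSpace.pi
        (Sponge.shift^[n] : (ℕ → X) → (ℕ → X)) := by
      rw [@measurable_pi_iff]
      intro k
      have h3 : (fun ω : ℕ → X => (Sponge.shift^[n] ω) k) = fun ω => ω (n + k) := by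
        funext ω; exact shift_iterate n ω k
      rw [h3]
      have h4 : @Measurable _ _ (s (n + k)) _ (fun ω : ℕ → X => ω (n + k)) :=
        comap_measurable _
      exact h4.mono (le_iSup₂_of_le (n + k) (by simp) le_rfl) le_rfl
    exact h2 hA
  have h01 := measure_zero_or_one_of_measurableSet_limsup_atTop hle hind htail
  rw [Filter.eventuallyConst_set']
  rcases h01 with h | h
  · left
    exact ae_eq_empty.2 h
  · right
    apply ae_eq_univ.2
    rw [prob_compl_eq_zero_iff hA]
    exact h

theorem slln {X : Type*} [MeasurableSpace X] (P : Measure X) [IsProbabilityMeasure P]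
    (f : X → ℝ) (hf : Measurable f) (hfi : Integrable f P) :
    ∀ᵐ ω ∂(Measure.infinitePi (fun _ : ℕ => P)),
      Tendsto (fun n : ℕ => (∑ t ∈ Finset.range n, f (ω t)) / n) atTop (𝓝 (∫ x, f x ∂P)) := by
  have hmap : ∀ i, Measure.map (fun ω : ℕ → X => f (ω i)) (Measure.infinitePi (fun _ : ℕ => P))
      = Measure.map f P := by
    intro i
    have h1 : (fun ω : ℕ → X => f (ω i)) = f ∘ (fun ω : ℕ → X => ω i) := rfl
    have h2 : Measure.map (fun ω : ℕ → X => ω i) (Measure.infinitePi (fun _ : ℕ => P)) = P :=
      (measurePreserving_eval_infinitePi (fun _ : ℕ => P) i).map_eq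
    rw [h1, ← Measure.map_map hf (measurable_pi_apply i), h2]
  have hmf : ∀ i, Measurable (fun ω : ℕ → X => f (ω i)) := fun i => hf.comp (measurable_pi_apply i)
  have h1 := strong_law_ae_real (μ := Measure.infinitePi (fun _ : ℕ => P))
    (fun i ω => f (ω i)) (by
      exact (measurePreserving_eval_infinitePi (fun _ : ℕ => P) 0).integrable_comp_of_integrable hfi)
    (by
      intro i j hij
      exact (iIndepFun_infinitePi (P := fun _ : ℕ => P) (X := fun _ => f)
        (fun _ => hf)).indepFun hij)
    (by
      intro i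
      exact ⟨(hmf i).aemeasurable, (hmf 0).aemeasurable, by rw [hmap, hmap]⟩)
  have h2 : ∫ ω, f (ω 0) ∂(Measure.infinitePi (fun _ : ℕ => P)) = ∫ x, f x ∂P := by
    have h3 := integral_map (μ := Measure.infinitePi (fun _ : ℕ => P))
      (φ := fun ω : ℕ → X => ω 0) (measurable_pi_apply 0).aemeasurable
      (f := f) (by
        rw [(measurePreserving_eval_infinitePi (fun _ : ℕ => P) 0).map_eq]
        exact hf.aestronglyMeasurable)
    rw [← h3, (measurePreserving_eval_infinitePi (fun _ : ℕ => P) 0).map_eq]
  rw [h2] at h1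
  exact h1

end Pool.Agent.FC9311
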