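import Mathlib

/-!
Entropy of a probability vector with respect to an equivalence relation on a finite set.
-/

namespace Pool.Agent.FC9311

open Set Filter Topology

section

variable {E : Type*} [Fintype E]

open Classical in
/-- Mass of the class of `e`. -/
noncomputable def Pr (r : E → E → Prop) (p : E → ℝ) (e : E) : ℝ :=
  ∑ e', if r e e' then p e' else 0

/-- Entropy (base 2) of `p` with respect to the equivalence relation `r`. -/
noncomputable def Hr (r : E → E → Prop) (p : E → ℝ) : ℝ :=
  (∑ e, (Pr r (fun _ => 1) e)⁻¹ * Real.negMulLog (Pr r p e)) / Real.log 2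

lemma Pr_congr {r : E → E → Prop} (hr : Equivalence r) (p : E → ℝ) {e f : E} (h : r e f) :
    Pr r p e = Pr r p f := by
  classical
  unfold Pr
  apply Finset.sum_congr rfl
  intro x _
  have : r e x ↔ r f x := ⟨fun h1 => hr.trans (hr.symm h) h1, fun h1 => hr.trans h h1⟩
  simp only [this]

lemma Pr_nonneg {r : E → E → Prop} {p : E → ℝ} (hp : ∀ e, 0 ≤ p e) (e : E) : 0 ≤ Pr r p e := by
  classical
  unfold Pr
  apply Finset.sum_nonneg
  intro x _
  split_ifs
  · exact hp x
  · exact le_rfl

lemma Pr_le_sum {r : E → E → Prop} {p : E → ℝ} (hp : ∀ e, 0 ≤ p e) (e : E) :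
    Pr r p e ≤ ∑ x, p x := by
  classical
  unfold Pr
  apply Finset.sum_le_sum
  intro x _
  split_ifs
  · exact le_rfl
  · exact hp x

lemma le_Pr {r : E → E → Prop} (hr : Equivalence r) {p : E → ℝ} (hp : ∀ e, 0 ≤ p e) (e : E) :
    p e ≤ Pr r p e := by
  classical
  unfold Pr
  have h1 : p e = (fun x => if r e x then p x else 0) e := by
    simp only [hr.refl e, if_true]
  conv_lhs => rw [h1]
  apply Finset.single_le_sum (f := fun x => if r e x then p x else 0) _ (Finset.mem_univ e)
  intro x _
  split_ifs
  · exact hp x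
  · exact le_rfl

lemma Pr_mono {r r' : E → E → Prop} {p : E → ℝ} (hp : ∀ e, 0 ≤ p e)
    (h : ∀ x y, r' x y → r x y) (e : E) : Pr r' p e ≤ Pr r p e := by
  classical
  unfold Pr
  apply Finset.sum_le_sum
  intro x _
  by_cases h1 : r' e x
  · rw [if_pos h1, if_pos (h _ _ h1)]
  · rw [if_neg h1]
    split_ifs
    · exact hp x
    · exact le_rfl

lemma Cr_pos {r : E → E → Prop} (hr : Equivalence r) (e : E) : 0 < Pr r (fun _ => 1) e := by
  have := le_Pr hr (p := fun _ => (1 : ℝ)) (fun _ => zero_le_one) e
  linarith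

/-- swapping. -/
lemma sum_swap {r : E → E → Prop} (hr : Equivalence r) (p g : E → ℝ)
    (hg : ∀ e f, r e f → g e = g f) :
    ∑ e, (Pr r (fun _ => 1) e)⁻¹ * (Pr r p e * g e) = ∑ e, p e * g e := by
  classical
  have h1 : ∀ e, (Pr r (fun _ => 1) e)⁻¹ * (Pr r p e * g e)
      = ∑ f, if r e f then (Pr r (fun _ => 1) f)⁻¹ * (p f * g f) else 0 := by
    intro e
    have : Pr r p e * g e = ∑ f, if r e f then p f * g f else 0 := by
      unfold Pr
      rw [Finset.sum_mul]
      apply Finset.sum_congr rfl
      intro f _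
      by_cases h : r e f
      · rw [if_pos h, if_pos h, hg e f h]
      · rw [if_neg h, if_neg h, zero_mul]
    rw [this, Finset.mul_sum]
    apply Finset.sum_congr rfl
    intro f _
    by_cases h : r e f
    · rw [if_pos h, if_pos h, Pr_congr hr _ h]
    · rw [if_neg h, if_neg h, mul_zero]
  simp only [h1]
  rw [Finset.sum_comm]
  apply Finset.sum_congr rfl
  intro f _
  have h2 : ∑ e, (if r e f then (Pr r (fun _ => 1) f)⁻¹ * (p f * g f) else 0)
      = (∑ e, if r f e then (1 : ℝ) else 0) * ((Pr r (fun _ => 1) f)⁻¹ * (p f * g f)) := by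
    rw [Finset.sum_mul]
    apply Finset.sum_congr rfl
    intro e _
    by_cases h : r e f
    · rw [if_pos h, if_pos (hr.symm h), one_mul]
    · rw [if_neg h, if_neg (fun h' => h (hr.symm h')), zero_mul]
  rw [h2]
  have h3 : (∑ e, if r f e then (1 : ℝ) else 0) = Pr r (fun _ => 1) f := rfl
  rw [h3, ← mul_assoc, mul_inv_cancel₀ (Cr_pos hr f).ne', one_mul]

lemma Hr_eq {r : E → E → Prop} (hr : Equivalence r) (p : E → ℝ) :
    Hr r p = ∑ e, p e * (- Real.logb 2 (Pr r p e)) := by
  have h1 := sum_swap hr p (fun e => - Real.log (Pr r p e)) (fun e f h => by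
    simp only [Pr_congr hr p h])
  have h2 : ∑ e, p e * (- Real.logb 2 (Pr r p e)) = (∑ e, p e * (- Real.log (Pr r p e))) / Real.log 2 := by
    rw [Finset.sum_div]
    apply Finset.sum_congr rfl
    intro e _
    unfold Real.logb
    ring
  rw [h2, ← h1]
  unfold Hr
  congr 1
  apply Finset.sum_congr rfl
  intro e _
  unfold Real.negMulLog
  ring

lemma continuous_Pr (r : E → E → Prop) (e : E) : Continuous (fun p : E → ℝ => Pr r p e) := by
  classical
  unfold Pr
  apply continuous_finsetSum
  intro x _
  by_cases h : r e x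
  · simp only [h, if_true]; exact continuous_apply x
  · simp only [h, if_false]; exact continuous_const

lemma continuous_Hr (r : E → E → Prop) : Continuous (Hr r) := by
  unfold Hr
  apply Continuous.div_const
  apply continuous_finsetSum
  intro e _
  exact continuous_const.mul (Real.continuous_negMulLog.comp (continuous_Pr r e))

lemma Pr_add (r : E → E → Prop) (p q : E → ℝ) (a b : ℝ) (e : E) :
    Pr r (a • p + b • q) e = a * Pr r p e + b * Pr r q e := by
  classical
  unfold Pr
  rw [Finset.mul_sum, Finset.mul_sum, ← Finset.sum_add_distrib]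
  apply Finset.sum_congr rfl
  intro x _
  split_ifs
  · simp
  · simp

lemma concave_Hr {r : E → E → Prop} (hr : Equivalence r) : ConcaveOn ℝ (stdSimplex ℝ E) (Hr r) := by
  refine ⟨convex_stdSimplex ℝ E, ?_⟩
  intro p hp q hq a b ha hb hab
  unfold Hr
  simp only [smul_eq_mul]
  rw [mul_div_assoc', mul_div_assoc', ← add_div]
  apply div_le_div_of_nonneg_right _ (Real.log_pos (by norm_num)).le
  rw [Finset.mul_sum, Finset.mul_sum, ← Finset.sum_add_distrib]
  apply Finset.sum_le_sum
  intro e _
  have h1 := Real.concaveOn_negMulLog.2 (mem_Ici.2 (Pr_nonneg (r := r) hp.1 e))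
    (mem_Ici.2 (Pr_nonneg (r := r) hq.1 e)) ha hb hab
  rw [Pr_add]
  simp only [smul_eq_mul] at h1
  have h2 := mul_le_mul_of_nonneg_left h1 (inv_nonneg.2 (Cr_pos hr e).le)
  calc _ = (Pr r (fun _ => 1) e)⁻¹ * (a * (Pr r p e).negMulLog + b * (Pr r q e).negMulLog) := by ring
    _ ≤ _ := h2

lemma Hr_nonneg {r : E → E → Prop} (hr : Equivalence r) {p : E → ℝ} (hp : p ∈ stdSimplex ℝ E) :
    0 ≤ Hr r p := by
  rw [Hr_eq hr]
  apply Finset.sum_nonneg
  intro e _
  apply mul_nonneg (hp.1 e)
  rw [neg_nonneg]
  apply Real.logb_nonpos (by norm_num) (Pr_nonneg hp.1 e)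
  rw [← hp.2]
  exact Pr_le_sum hp.1 e

lemma Hr_mono {r r' : E → E → Prop} (hr : Equivalence r) (hr' : Equivalence r')
    (h : ∀ x y, r' x y → r x y) {p : E → ℝ} (hp : ∀ e, 0 ≤ p e) : Hr r p ≤ Hr r' p := by
  rw [Hr_eq hr, Hr_eq hr']
  apply Finset.sum_le_sum
  intro e _
  rcases (hp e).eq_or_lt with h0 | h0
  · rw [← h0]; simp
  · apply mul_le_mul_of_nonneg_left _ h0.le
    rw [neg_le_neg_iff]
    apply Real.logb_le_logb_of_le (by norm_num)
    · exact h0.trans_le (le_Pr hr' hp e)
    · exact Pr_mono hp h e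

/-- Strong subadditivity. -/
lemma Hr_ssa {K J x : E → E → Prop} (hK : Equivalence K) (hJ : Equivalence J) (hx : Equivalence x)
    (hKJ : ∀ a b, K a b → J a b) {p : E → ℝ} (hp : ∀ e, 0 ≤ p e) :
    Hr (fun a b => K a b ∧ x a b) p + Hr J p ≤ Hr K p + Hr (fun a b => J a b ∧ x a b) p := by
  classical
  set xK : E → E → Prop := fun a b => K a b ∧ x a b with hxK
  set xJ : E → E → Prop := fun a b => J a b ∧ x a b with hxJ
  have hxKe : Equivalence xK := ⟨fun a => ⟨hK.refl a, hx.refl a⟩,
    fun h => ⟨hK.symm h.1, hx.symm h.2⟩, fun h h' => ⟨hK.trans h.1 h'.1, hx.trans h.2 h'.2⟩⟩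
  have hxJe : Equivalence xJ := ⟨fun a => ⟨hJ.refl a, hx.refl a⟩,
    fun h => ⟨hJ.symm h.1, hx.symm h.2⟩, fun h h' => ⟨hJ.trans h.1 h'.1, hx.trans h.2 h'.2⟩⟩
  -- the key inequality
  have key : ∑ e, p e * (Pr K p e * Pr xJ p e / (Pr xK p e * Pr J p e)) ≤ ∑ e, p e := by
    have hin : ∀ f, ∑ e, (if xJ e f then p e * Pr K p e / Pr xK p e else 0) ≤ Pr J p f := by
      intro f
      have h1 : ∀ e, (if xJ e f then p e * Pr K p e / Pr xK p e else 0)
          = ∑ g, if (K e g ∧ xJ e f) then p g * (p e / Pr xK p e) else 0 := by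
        intro e
        by_cases h : xJ e f
        · rw [if_pos h]
          have : p e * Pr K p e / Pr xK p e = Pr K p e * (p e / Pr xK p e) := by ring
          rw [this]
          unfold Pr
          rw [Finset.sum_mul]
          apply Finset.sum_congr rfl
          intro g _
          by_cases h2 : K e g
          · rw [if_pos h2, if_pos ⟨h2, h⟩]
          · rw [if_neg h2, if_neg (fun h3 => h2 h3.1), zero_mul]
        · rw [if_neg h]
          symm
          apply Finset.sum_eq_zero
          intro g _
          rw [if_neg (fun h3 => h h3.2)]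
      simp only [h1]
      rw [Finset.sum_comm]
      conv_rhs => unfold Pr
      apply Finset.sum_le_sum
      intro g _
      by_cases hfg : J f g
      · rw [if_pos hfg]
        have h2 : ∑ e, (if (K e g ∧ xJ e f) then p g * (p e / Pr xK p e) else 0)
            = p g * ∑ e, (if (K e g ∧ xJ e f) then p e / Pr xK p e else 0) := by
          rw [Finset.mul_sum]
          apply Finset.sum_congr rfl
          intro e _
          split_ifs
          · rfl
          · rw [mul_zero]
        rw [h2]
        have h3 : ∑ e, (if (K e g ∧ xJ e f) then p e / Pr xK p e else 0) ≤ 1 := by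
          by_cases hne : ∃ e₀, K e₀ g ∧ xJ e₀ f
          · obtain ⟨e₀, he₀⟩ := hne
            have h4 : ∀ e, (K e g ∧ xJ e f) → xK e₀ e := by
              intro e he
              exact ⟨hK.trans he₀.1 (hK.symm he.1), hx.trans he₀.2.2 (hx.symm he.2.2)⟩
            have h5 : ∑ e, (if (K e g ∧ xJ e f) then p e / Pr xK p e else 0)
                ≤ ∑ e, (if xK e₀ e then p e / Pr xK p e₀ else 0) := by
              apply Finset.sum_le_sum
              intro e _
              by_cases he : (K e g ∧ xJ e f)
              · rw [if_pos he, if_pos (h4 e he), Pr_congr hxKe p (h4 e he)]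
              · rw [if_neg he]
                split_ifs
                · exact div_nonneg (hp e) (Pr_nonneg hp e₀)
                · exact le_rfl
            refine h5.trans ?_
            have h6 : ∑ e, (if xK e₀ e then p e / Pr xK p e₀ else 0) = Pr xK p e₀ / Pr xK p e₀ := by
              conv_rhs => rw [Pr, Finset.sum_div]
              apply Finset.sum_congr rfl
              intro e _
              split_ifs
              · rfl
              · rw [zero_div]
            rw [h6]
            exact div_self_le_one _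
          · have : ∑ e, (if (K e g ∧ xJ e f) then p e / Pr xK p e else 0) = 0 := by
              apply Finset.sum_eq_zero
              intro e _
              rw [if_neg (fun he => hne ⟨e, he⟩)]
            rw [this]; exact zero_le_one
        calc p g * _ ≤ p g * 1 := mul_le_mul_of_nonneg_left h3 (hp g)
          _ = p g := mul_one _
      · rw [if_neg hfg]
        apply le_of_eq
        apply Finset.sum_eq_zero
        intro e _
        rw [if_neg]
        rintro ⟨h2, h3⟩
        exact hfg (hJ.trans (hJ.symm h3.1) (hKJ _ _ h2))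
    have h2 : ∀ e, p e * (Pr K p e * Pr xJ p e / (Pr xK p e * Pr J p e))
        = ∑ f, (if xJ e f then p f * (p e * Pr K p e / Pr xK p e) / Pr J p f else 0) := by
      intro e
      have : p e * (Pr K p e * Pr xJ p e / (Pr xK p e * Pr J p e))
          = Pr xJ p e * ((p e * Pr K p e / Pr xK p e) / Pr J p e) := by
        rw [div_div, mul_div_assoc', mul_div_assoc']
        congr 1; ring
      rw [this]
      conv_lhs => rw [Pr, Finset.sum_mul]
      apply Finset.sum_congr rfl
      intro f _
      by_cases h : xJ e f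
      · rw [if_pos h, if_pos h, Pr_congr hJ p h.1]; ring
      · rw [if_neg h, if_neg h, zero_mul]
    simp only [h2]
    rw [Finset.sum_comm]
    apply Finset.sum_le_sum
    intro f _
    have h3 : ∑ e, (if xJ e f then p f * (p e * Pr K p e / Pr xK p e) / Pr J p f else 0)
        = p f * ((∑ e, (if xJ e f then p e * Pr K p e / Pr xK p e else 0)) / Pr J p f) := by
      rw [Finset.sum_div, Finset.mul_sum]
      apply Finset.sum_congr rfl
      intro e _
      split_ifs
      · ring
      · simp
    rw [h3]
    have h4 : (∑ e, (if xJ e f then p e * Pr K p e / Pr xK p e else 0)) / Pr J p f ≤ 1 := by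
      apply div_le_one_of_le₀ (hin f) (Pr_nonneg hp f)
    calc p f * _ ≤ p f * 1 := mul_le_mul_of_nonneg_left h4 (hp f)
      _ = p f := mul_one _
  rw [Hr_eq hxKe, Hr_eq hJ, Hr_eq hK, Hr_eq hxJe, ← sub_nonpos]
  have hlog2 : 0 < Real.log 2 := Real.log_pos (by norm_num)
  have hsum : (∑ e, p e * (-Real.logb 2 (Pr xK p e)) + ∑ e, p e * (-Real.logb 2 (Pr J p e)))
      - (∑ e, p e * (-Real.logb 2 (Pr K p e)) + ∑ e, p e * (-Real.logb 2 (Pr xJ p e)))
      ≤ (∑ e, p e * (Pr K p e * Pr xJ p e / (Pr xK p e * Pr J p e) - 1)) / Real.log 2 := by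
    rw [← Finset.sum_add_distrib, ← Finset.sum_add_distrib, ← Finset.sum_sub_distrib,
      Finset.sum_div]
    apply Finset.sum_le_sum
    intro e _
    rcases (hp e).eq_or_lt with h0 | h0
    · rw [← h0]; simp
    · have a1 := h0.trans_le (le_Pr hK hp e)
      have a2 := h0.trans_le (le_Pr hJ hp e)
      have a3 := h0.trans_le (le_Pr hxKe hp e)
      have a4 := h0.trans_le (le_Pr hxJe hp e)
      have h5 : Real.log (Pr K p e * Pr xJ p e / (Pr xK p e * Pr J p e))
          ≤ Pr K p e * Pr xJ p e / (Pr xK p e * Pr J p e) - 1 :=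
        Real.log_le_sub_one_of_pos (by positivity)
      rw [Real.log_div (by positivity) (by positivity), Real.log_mul a1.ne' a4.ne',
        Real.log_mul a3.ne' a2.ne'] at h5
      have h6 : p e * (-Real.logb 2 (Pr xK p e)) + p e * (-Real.logb 2 (Pr J p e)) -
          (p e * (-Real.logb 2 (Pr K p e)) + p e * (-Real.logb 2 (Pr xJ p e)))
          = p e * (Real.log (Pr K p e) + Real.log (Pr xJ p e)
            - (Real.log (Pr xK p e) + Real.log (Pr J p e))) / Real.log 2 := by
        unfold Real.logb
        field_simp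
        ring
      rw [h6]
      apply div_le_div_of_nonneg_right _ hlog2.le
      exact mul_le_mul_of_nonneg_left h5 h0.le
  refine hsum.trans ?_
  apply div_nonpos_of_nonpos_of_nonneg _ hlog2.le
  have : ∑ e, p e * (Pr K p e * Pr xJ p e / (Pr xK p e * Pr J p e) - 1)
      = ∑ e, p e * (Pr K p e * Pr xJ p e / (Pr xK p e * Pr J p e)) - ∑ e, p e := by
    rw [← Finset.sum_sub_distrib]
    apply Finset.sum_congr rfl
    intro e _; ring
  rw [this]
  linarith

end

end Pool.Agent.FC9311
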