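import Pool.Agent.FC9311.Lower
import Pool.Agent.FC9311.Ent
import Pool.Agent.FC9311.Bern0

/-!
Bernoulli measures on a sponge: lower bound for the dynamical dimension.
-/

namespace Pool.Agent.FC9311

open MeasureTheory Filter Topology Set ProbabilityTheory
open scoped ENNReal NNReal

namespace Sponge

variable {d : ℕ} (S : Sponge d)

noncomputable instance fintypeE : Fintype S.E := Fintype.ofFinite _

/-- Two symbols agree on the coordinates in `I`. -/
def rel (I : Finset (Fin d)) (e e' : S.E) : Prop := ∀ j ∈ I, e'.1 j = e.1 j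

lemma rel_equiv (I : Finset (Fin d)) : Equivalence (S.rel I) :=
  ⟨fun _ _ _ => rfl, fun h j hj => (h j hj).symm, fun h h' j hj => (h' j hj).trans (h j hj)⟩

/-- The measure on the alphabet given by a probability vector. -/
noncomputable def bern (p : stdSimplex ℝ S.E) : Measure S.E :=
  ∑ e, ENNReal.ofReal (p.1 e) • Measure.dirac e

open Classical in
lemma bern_apply (p : stdSimplex ℝ S.E) (A : Set S.E) :
    S.bern p A = ENNReal.ofReal (∑ e, if e ∈ A then p.1 e else 0) := by
  unfold bern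
  rw [Measure.finsetSum_apply, ENNReal.ofReal_sum_of_nonneg]
  · apply Finset.sum_congr rfl
    intro e _
    rw [Measure.smul_apply, Measure.dirac_apply' _ (MeasurableSet.of_discrete), smul_eq_mul]
    by_cases h : e ∈ A
    · simp [h]
    · simp [h]
  · intro e _
    split_ifs
    · exact p.2.1 e
    · exact le_rfl

instance (p : stdSimplex ℝ S.E) : IsProbabilityMeasure (S.bern p) := ⟨by
  rw [bern_apply]
  simp only [mem_univ, if_true]
  rw [p.2.2]; simp⟩

lemma bern_rel (p : stdSimplex ℝ S.E) (I : Finset (Fin d)) (e : S.E) :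
    S.bern p {e' | S.rel I e e'} = ENNReal.ofReal (Pr (S.rel I) p.1 e) := by
  classical
  rw [bern_apply]
  rfl

lemma integrable_bern (p : stdSimplex ℝ S.E) (f : S.E → ℝ) : Integrable f (S.bern p) := by
  apply Integrable.of_bound (C := ∑ e, |f e|) (measurable_of_countable f).aestronglyMeasurable
  apply Eventually.of_forall
  intro e
  exact Finset.single_le_sum (f := fun e => |f e|) (fun _ _ => abs_nonneg _) (Finset.mem_univ e)

lemma integral_bern (p : stdSimplex ℝ S.E) (f : S.E → ℝ) :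
    ∫ e, f e ∂(S.bern p) = ∑ e, p.1 e * f e := by
  unfold bern
  rw [integral_finsetSum_measure]
  · apply Finset.sum_congr rfl
    intro e _
    rw [integral_smul_measure, integral_dirac, ENNReal.toReal_ofReal (p.2.1 e), smul_eq_mul]
  · intro e _
    apply Integrable.smul_measure _ ENNReal.ofReal_ne_top
    exact integrable_dirac (by simp)

/-- The Bernoulli measure on sequences. -/
noncomputable def mup (p : stdSimplex ℝ S.E) : Measure (ℕ → S.E) :=
  Measure.infinitePi (fun _ : ℕ => S.bern p)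

instance (p : stdSimplex ℝ S.E) : IsProbabilityMeasure (S.mup p) := by
  unfold mup; infer_instance

lemma ergodic_mup (p : stdSimplex ℝ S.E) : Ergodic shift (S.mup p) := ergodic_shift (S.bern p)

/-- Lyapunov exponent. -/
noncomputable def chi (j : Fin d) (p : S.E → ℝ) : ℝ := ∑ e, p e * S.X j (e.1 j)

lemma chi_pos (j : Fin d) (p : stdSimplex ℝ S.E) : 0 < S.chi j p.1 := by
  obtain ⟨x, y, hx, hy, hxy⟩ := S.exists_X_bounds
  have : x ≤ S.chi j p.1 := by
    calc x = ∑ e, p.1 e * x := by rw [← Finset.sum_mul, p.2.2, one_mul]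
      _ ≤ _ := Finset.sum_le_sum (fun e _ => mul_le_mul_of_nonneg_left (hxy j _).1 (p.2.1 e))
  linarith

/-- Information of the first `n` symbols with respect to the coordinates in `I`. -/
noncomputable def info (I : Finset (Fin d)) (p : S.E → ℝ) (ω : ℕ → S.E) (n : ℕ) : ℝ :=
  ∑ t ∈ Finset.range n, - Real.logb 2 (Pr (S.rel I) p (ω t))

lemma info_lim (I : Finset (Fin d)) (p : stdSimplex ℝ S.E) :
    ∀ᵐ ω ∂(S.mup p), Tendsto (fun n : ℕ => S.info I p.1 ω n / n) atTop
      (𝓝 (Hr (S.rel I) p.1)) := by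
  have h := slln (S.bern p) (fun e => - Real.logb 2 (Pr (S.rel I) p.1 e))
    (measurable_of_countable _) (S.integrable_bern p _)
  rw [integral_bern, ← Hr_eq (S.rel_equiv I)] at h
  exact h

lemma L_lim (j : Fin d) (p : stdSimplex ℝ S.E) :
    ∀ᵐ ω ∂(S.mup p), Tendsto (fun n : ℕ => S.L j ω n / n) atTop (𝓝 (S.chi j p.1)) := by
  have h := slln (S.bern p) (fun e => S.X j (e.1 j))
    (measurable_of_countable _) (S.integrable_bern p _)
  rw [integral_bern] at h
  exact h

lemma stop_tendsto (j : Fin d) (ω : ℕ → S.E) :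
    Tendsto (fun B : ℕ => S.stop j B ω) atTop atTop := by
  rw [tendsto_atTop]
  intro n
  obtain ⟨N, hN⟩ := exists_nat_gt (S.L j ω n)
  filter_upwards [eventually_ge_atTop N] with B hB
  have h1 : S.L j ω n < B := hN.trans_le (by exact_mod_cast hB)
  exact ((S.lt_stop_iff j B ω n).2 h1).le

lemma stop_lim (j : Fin d) (ω : ℕ → S.E) (χ : ℝ) (hχ : 0 < χ)
    (h : Tendsto (fun n : ℕ => S.L j ω n / n) atTop (𝓝 χ)) :
    Tendsto (fun B : ℕ => (S.stop j B ω : ℝ) / B) atTop (𝓝 χ⁻¹) := by
  obtain ⟨x, y, hx, hy, hxy⟩ := S.exists_X_bounds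
  have h1 : Tendsto (fun B : ℕ => S.L j ω (S.stop j B ω) / (S.stop j B ω : ℝ)) atTop (𝓝 χ) :=
    h.comp (S.stop_tendsto j ω)
  have h2 : Tendsto (fun B : ℕ => (B : ℝ) / (S.stop j B ω : ℝ)) atTop (𝓝 χ) := by
    have h3 : Tendsto (fun B : ℕ => S.L j ω (S.stop j B ω) / (S.stop j B ω : ℝ)
        - y / (S.stop j B ω : ℝ)) atTop (𝓝 (χ - 0)) := by
      apply h1.sub
      exact (tendsto_const_nhds.div_atTop
        (tendsto_natCast_atTop_atTop.comp (S.stop_tendsto j ω)))
    rw [sub_zero] at h3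
    apply tendsto_of_tendsto_of_tendsto_of_le_of_le h3 h1
    · intro B
      simp only
      rw [← sub_div]
      apply div_le_div_of_nonneg_right _ (Nat.cast_nonneg _)
      have := S.L_stop_le (fun j a => (hxy j a).2) j B (Nat.cast_nonneg B) ω hy.le
      linarith
    · intro B
      simp only
      apply div_le_div_of_nonneg_right _ (Nat.cast_nonneg _)
      exact S.le_L_stop j B ω
  have h3 := h2.inv₀ hχ.ne'
  refine h3.congr (fun B => ?_)
  rw [inv_div]

/-- The cell measure of a pair of coordinates. -/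
lemma mup_cell_le (p : stdSimplex ℝ S.E) (j k : Fin d) (B : ℝ) (ω : ℕ → S.E) :
    S.mup p (S.cellI {j, k} B ω) ≤ ENNReal.ofReal (2 ^ (-(
      S.info {j, k} p.1 ω (min (S.stop j B ω) (S.stop k B ω))
      + (S.info {j} p.1 ω (S.stop j B ω) - S.info {j} p.1 ω (min (S.stop j B ω) (S.stop k B ω)))
      + (S.info {k} p.1 ω (S.stop k B ω)
        - S.info {k} p.1 ω (min (S.stop j B ω) (S.stop k B ω)))))) := by
  classical
  set a := S.stop j B ω with ha
  set b := S.stop k B ω with hb
  set J : ℕ → Finset (Fin d) := fun t =>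
    if t < min a b then {j, k} else if t < a then {j} else if t < b then {k} else ∅ with hJ
  have hsub : S.cellI {j, k} B ω ⊆
      Set.pi (Finset.range (max a b)) (fun t => {e | S.rel (J t) (ω t) e}) := by
    intro ω' hω' t _ i hi
    simp only [hJ] at hi
    split_ifs at hi with h1 h2 h3
    · rw [Finset.mem_insert, Finset.mem_singleton] at hi
      rcases hi with rfl | rfl
      · exact hω' i (by simp) t (h1.trans_le (min_le_left _ _))
      · exact hω' i (by simp) t (h1.trans_le (min_le_right _ _))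
    · rw [Finset.mem_singleton] at hi
      subst hi
      exact hω' i (by simp) t h2
    · rw [Finset.mem_singleton] at hi
      subst hi
      exact hω' i (by simp) t h3
    · simp at hi
  refine (measure_mono hsub).trans ?_
  unfold mup
  rw [Measure.infinitePi_pi _ (fun t _ => MeasurableSet.of_discrete)]
  simp only [bern_rel]
  rw [← ENNReal.ofReal_prod_of_nonneg (fun t _ => Pr_nonneg p.2.1 _)]
  apply ENNReal.ofReal_le_ofReal
  have hprod : ∏ t ∈ Finset.range (max a b), Pr (S.rel (J t)) p.1 (ω t)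
      ≤ ∏ t ∈ Finset.range (max a b), (2 : ℝ) ^ (Real.logb 2 (Pr (S.rel (J t)) p.1 (ω t))) := by
    apply Finset.prod_le_prod (fun t _ => Pr_nonneg p.2.1 _)
    intro t _
    rcases (Pr_nonneg (r := S.rel (J t)) p.2.1 (ω t)).eq_or_lt with h | h
    · rw [← h]; simp
    · rw [Real.rpow_logb (by norm_num) (by norm_num) h]
  refine hprod.trans ?_
  rw [← Real.rpow_sum_of_pos (by norm_num)]
  apply Real.rpow_le_rpow_of_exponent_le (by norm_num)
  -- identify the exponent
  have hinfo : ∀ (I : Finset (Fin d)) (n : ℕ), S.info I p.1 ω n =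
      - ∑ t ∈ Finset.range n, Real.logb 2 (Pr (S.rel I) p.1 (ω t)) := by
    intro I n; unfold info; rw [Finset.sum_neg_distrib]
  have hrel0 : ∀ e, Real.logb 2 (Pr (S.rel ∅) p.1 e) = 0 := by
    intro e
    have : Pr (S.rel ∅) p.1 e = 1 := by
      unfold Pr
      rw [← p.2.2]
      apply Finset.sum_congr rfl
      intro x _
      rw [if_pos]
      intro i hi
      simp at hi
    rw [this, Real.logb_one]
  rw [hinfo, hinfo, hinfo, hinfo, hinfo]
  have hsplit : ∀ (F : ℕ → ℝ), (∑ t ∈ Finset.range (max a b), F t)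
      = (∑ t ∈ Finset.range (min a b), F t) + ∑ t ∈ Finset.Ico (min a b) (max a b), F t := by
    intro F
    rw [Finset.range_eq_Ico, Finset.range_eq_Ico,
      Finset.sum_Ico_consecutive F (Nat.zero_le _) min_le_max]
  rw [hsplit]
  have h1 : ∑ t ∈ Finset.range (min a b), Real.logb 2 (Pr (S.rel (J t)) p.1 (ω t))
      = ∑ t ∈ Finset.range (min a b), Real.logb 2 (Pr (S.rel {j, k}) p.1 (ω t)) := by
    apply Finset.sum_congr rfl
    intro t ht
    have : J t = {j, k} := by
      simp only [hJ]; rw [if_pos (Finset.mem_range.1 ht)]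
    rw [this]
  rw [h1]
  rcases le_total a b with hab | hab
  · rw [min_eq_left hab, max_eq_right hab]
    have h2 : ∑ t ∈ Finset.Ico a b, Real.logb 2 (Pr (S.rel (J t)) p.1 (ω t))
        = ∑ t ∈ Finset.Ico a b, Real.logb 2 (Pr (S.rel {k}) p.1 (ω t)) := by
      apply Finset.sum_congr rfl
      intro t ht
      rw [Finset.mem_Ico] at ht
      have : J t = {k} := by
        simp only [hJ]
        rw [if_neg (by rw [min_eq_left hab]; omega), if_neg (by omega), if_pos ht.2]
      rw [this]
    rw [h2, Finset.sum_Ico_eq_sub _ hab]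
    linarith
  · rw [min_eq_right hab, max_eq_left hab]
    have h2 : ∑ t ∈ Finset.Ico b a, Real.logb 2 (Pr (S.rel (J t)) p.1 (ω t))
        = ∑ t ∈ Finset.Ico b a, Real.logb 2 (Pr (S.rel {j}) p.1 (ω t)) := by
      apply Finset.sum_congr rfl
      intro t ht
      rw [Finset.mem_Ico] at ht
      have : J t = {j} := by
        simp only [hJ]
        rw [if_neg (by rw [min_eq_right hab]; omega), if_pos ht.2]
      rw [this]
    rw [h2, Finset.sum_Ico_eq_sub _ hab]
    linarith

/-- The pair functional. -/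
noncomputable def delta (j k : Fin d) (p : S.E → ℝ) : ℝ :=
  Hr (S.rel {j, k}) p * min (S.chi j p)⁻¹ (S.chi k p)⁻¹
    + Hr (S.rel {j}) p * ((S.chi j p)⁻¹ - min (S.chi j p)⁻¹ (S.chi k p)⁻¹)
    + Hr (S.rel {k}) p * ((S.chi k p)⁻¹ - min (S.chi j p)⁻¹ (S.chi k p)⁻¹)

theorem delta_le_DynD (j k : Fin d) (p : stdSimplex ℝ S.E) :
    ENNReal.ofReal (S.delta j k p.1) ≤ S.DynD := by
  have hDyn : measureDim ((S.mup p).map S.code) ≤ S.DynD := by
    unfold DynD
    exact le_iSup_of_le (S.mup p) (le_iSup_of_le inferInstance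
      (le_iSup_of_le (S.ergodic_mup p) le_rfl))
  refine le_trans ?_ hDyn
  apply le_of_forall_lt
  intro r hr
  obtain ⟨s, hs1, hs2⟩ := ENNReal.lt_iff_exists_nnreal_btwn.1 hr
  refine lt_of_lt_of_le hs1 ?_
  have hs2' : (s : ℝ) < S.delta j k p.1 := by
    rw [ENNReal.lt_ofReal_iff_toReal_lt ENNReal.coe_ne_top] at hs2
    simpa using hs2
  apply S.le_measureDim_code (S.mup p) {j, k} s
  filter_upwards [S.info_lim {j, k} p, S.info_lim {j} p, S.info_lim {k} p, S.L_lim j p,
    S.L_lim k p] with ω hjk hj hk hLj hLk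
  have hcj := S.chi_pos j p
  have hck := S.chi_pos k p
  have sj := S.stop_lim j ω _ hcj hLj
  have sk := S.stop_lim k ω _ hck hLk
  have tj := S.stop_tendsto j ω
  have tk := S.stop_tendsto k ω
  have tm : Tendsto (fun B : ℕ => min (S.stop j B ω) (S.stop k B ω)) atTop atTop := by
    rw [tendsto_atTop]
    intro n
    filter_upwards [tj.eventually_ge_atTop n, tk.eventually_ge_atTop n] with B h1 h2
    exact le_min h1 h2
  have sm : Tendsto (fun B : ℕ => ((min (S.stop j B ω) (S.stop k B ω) : ℕ) : ℝ) / B) atTop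
      (𝓝 (min (S.chi j p.1)⁻¹ (S.chi k p.1)⁻¹)) := by
    have := sj.min sk
    refine this.congr (fun B => ?_)
    rw [Nat.cast_min, min_div_div_right (Nat.cast_nonneg B)]
  have comb : ∀ (F : ℕ → ℝ) (H c : ℝ) (τ : ℕ → ℕ), Tendsto (fun n : ℕ => F n / n) atTop (𝓝 H) →
      Tendsto τ atTop atTop → Tendsto (fun B : ℕ => (τ B : ℝ) / B) atTop (𝓝 c) →
      Tendsto (fun B : ℕ => F (τ B) / B) atTop (𝓝 (H * c)) := by
    intro F H c τ hF hτ hc
    have h1 := (hF.comp hτ).mul hc
    refine h1.congr' ?_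
    filter_upwards [hτ.eventually_gt_atTop 0] with B hB
    simp only [Function.comp]
    have : (τ B : ℝ) ≠ 0 := by
      have : 0 < τ B := hB
      exact_mod_cast this.ne'
    field_simp
  have hlim : Tendsto (fun B : ℕ => (S.info {j, k} p.1 ω (min (S.stop j B ω) (S.stop k B ω))
      + (S.info {j} p.1 ω (S.stop j B ω) - S.info {j} p.1 ω (min (S.stop j B ω) (S.stop k B ω)))
      + (S.info {k} p.1 ω (S.stop k B ω)
        - S.info {k} p.1 ω (min (S.stop j B ω) (S.stop k B ω)))) / (B : ℝ)) atTop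
      (𝓝 (S.delta j k p.1)) := by
    have h1 := comb _ _ _ _ hjk tm sm
    have h2 := comb _ _ _ _ hj tj sj
    have h3 := comb _ _ _ _ hj tm sm
    have h4 := comb _ _ _ _ hk tk sk
    have h5 := comb _ _ _ _ hk tm sm
    have h6 := (h1.add (h2.sub h3)).add (h4.sub h5)
    have h7 : Hr (S.rel {j, k}) p.1 * min (S.chi j p.1)⁻¹ (S.chi k p.1)⁻¹ +
        (Hr (S.rel {j}) p.1 * (S.chi j p.1)⁻¹ -
          Hr (S.rel {j}) p.1 * min (S.chi j p.1)⁻¹ (S.chi k p.1)⁻¹) +
        (Hr (S.rel {k}) p.1 * (S.chi k p.1)⁻¹ -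
          Hr (S.rel {k}) p.1 * min (S.chi j p.1)⁻¹ (S.chi k p.1)⁻¹) = S.delta j k p.1 := by
      unfold delta; ring
    rw [h7] at h6
    refine h6.congr (fun B => ?_)
    ring
  filter_upwards [hlim.eventually_const_lt hs2', eventually_gt_atTop 0] with B hB hB0
  have hB0' : (0 : ℝ) < B := by exact_mod_cast hB0
  refine (S.mup_cell_le p j k B ω).trans ?_
  rw [half_pow_eq, ENNReal.ofReal_rpow_of_pos (by positivity), ← Real.rpow_mul (by norm_num)]
  apply ENNReal.ofReal_le_ofReal
  apply Real.rpow_le_rpow_of_exponent_le (by norm_num)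
  rw [lt_div_iff₀ hB0'] at hB
  nlinarith

end Sponge

end Pool.Agent.FC9311
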