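import Mathlib

/-!
General lemmas on Hausdorff dimension.
-/

namespace Pool.Agent.FC9311

open MeasureTheory Filter Topology Set Metric
open scoped ENNReal NNReal

/-- Mass distribution principle. -/
theorem le_dimH_of_measure {X : Type*} [EMetricSpace X] [MeasurableSpace X] [BorelSpace X]
    (μ : Measure X) (s : ℝ≥0) (C : ℝ≥0) (ε : ℝ≥0∞) (h0 : 0 < ε)
    (h : ∀ U : Set X, ediam U ≤ ε → μ U ≤ C * ediam U ^ (s : ℝ)) (A : Set X) (hA : μ A ≠ 0) :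
    (s : ℝ≥0∞) ≤ dimH A := by
  apply le_dimH_of_hausdorffMeasure_ne_zero
  set c : ℝ≥0∞ := ((C : ℝ≥0∞) + 1)⁻¹ with hc
  have hC1 : (C : ℝ≥0∞) + 1 ≠ ∞ := by simp
  have hC0 : (C : ℝ≥0∞) + 1 ≠ 0 := by simp
  have hle : c • μ ≤ μH[(s : ℝ)] := by
    apply Measure.le_hausdorffMeasure _ _ ε h0
    intro U hU
    rw [Measure.smul_apply, smul_eq_mul]
    calc c * μ U ≤ c * (C * ediam U ^ (s : ℝ)) := by gcongr; exact h U hU
      _ ≤ c * (((C : ℝ≥0∞) + 1) * ediam U ^ (s : ℝ)) := by gcongr; exact le_self_add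
      _ = ediam U ^ (s : ℝ) := by
        rw [← mul_assoc, hc, ENNReal.inv_mul_cancel hC0 hC1, one_mul]
  intro h1
  have h2 : c * μ A ≤ 0 := by
    rw [← h1]; exact hle A
  have h3 : c * μ A = 0 := le_antisymm h2 bot_le
  rcases mul_eq_zero.1 h3 with h4 | h4
  · rw [hc, ENNReal.inv_eq_zero] at h4; exact hC1 h4
  · exact hA h4

/-- Upper bound for the Hausdorff dimension through partitions into cells and a reference
measure. -/
theorem dimH_image_le_of_cells {Ω X : Type*} [MeasurableSpace Ω] [EMetricSpace X]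
    (ρ : Measure Ω) [IsFiniteMeasure ρ] (π : Ω → X) (c : ℕ → Ω → Set Ω)
    (hmeas : ∀ B ω, MeasurableSet (c B ω))
    (hself : ∀ B ω, ω ∈ c B ω)
    (heq : ∀ B ω ω', ω' ∈ c B ω → c B ω' = c B ω)
    (hdiam : ∀ B ω, ediam (π '' c B ω) ≤ (2 : ℝ≥0∞)⁻¹ ^ B)
    (s : ℝ≥0) (A : Set Ω)
    (hA : ∀ ω ∈ A, ∃ᶠ B in atTop, ((2 : ℝ≥0∞)⁻¹ ^ B) ^ (s : ℝ) ≤ ρ (c B ω)) :
    dimH (π '' A) ≤ s := by
  borelize X
  apply dimH_le
  intro s' hs'
  by_contra hcon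
  have hlt : s < s' := by
    rw [not_le] at hcon
    exact_mod_cast hcon
  -- it suffices to show that the Hausdorff measure vanishes
  suffices hzero : μH[(s' : ℝ)] (π '' A) ≤ 0 by
    rw [hs'] at hzero
    simp at hzero
  set θ : ℝ≥0∞ := (2 : ℝ≥0∞)⁻¹ ^ ((s' : ℝ) - s) with hθ
  have hθ1 : θ < 1 := by
    apply ENNReal.rpow_lt_one
    · rw [ENNReal.inv_lt_one]; norm_num
    · have : (s : ℝ) < s' := by exact_mod_cast hlt
      linarith
  have hpow : ∀ B : ℕ, ((2 : ℝ≥0∞)⁻¹ ^ B) ^ (s' : ℝ) = ((2 : ℝ≥0∞)⁻¹ ^ B) ^ (s : ℝ) * θ ^ B := by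
    intro B
    have h2 : (2 : ℝ≥0∞)⁻¹ ≠ 0 := by simp
    have h3 : (2 : ℝ≥0∞)⁻¹ ≠ ∞ := by simp
    rw [hθ, ← ENNReal.rpow_natCast, ← ENNReal.rpow_natCast, ← ENNReal.rpow_mul, ← ENNReal.rpow_mul,
      ← ENNReal.rpow_mul, ← ENNReal.rpow_add _ _ h2 h3]
    congr 1
    ring
  let Q : ℕ → Type _ := fun B =>
    {q : Set Ω // (∃ ω, q = c B ω) ∧ ((2 : ℝ≥0∞)⁻¹ ^ B) ^ (s : ℝ) ≤ ρ q}
  have hdisj : ∀ B, Pairwise (Function.onFun Disjoint (fun q : Q B => q.1)) := by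
    intro B q q' hqq'
    rw [Function.onFun, Set.disjoint_left]
    intro x hx hx'
    apply hqq'
    obtain ⟨⟨ω, hω⟩, _⟩ := q.2
    obtain ⟨⟨ω', hω'⟩, _⟩ := q'.2
    apply Subtype.ext
    rw [hω] at hx
    rw [hω'] at hx'
    rw [hω, hω', ← heq B ω x hx, ← heq B ω' x hx']
  have hsum : ∀ B, ∑' q : Q B, ρ q.1 ≤ ρ univ := by
    intro B
    refine (tsum_meas_le_meas_iUnion_of_disjoint ρ ?_ (hdisj B)).trans (measure_mono (subset_univ _))
    intro q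
    obtain ⟨⟨ω, hω⟩, _⟩ := q.2
    rw [hω]
    exact hmeas B ω
  have hfin : ∀ B, Finite (Q B) := by
    intro B
    have h1 : {q : Q B | ((2 : ℝ≥0∞)⁻¹ ^ B) ^ (s : ℝ) ≤ ρ q.1}.Finite := by
      apply ENNReal.finite_const_le_of_tsum_ne_top
      · exact ne_top_of_le_ne_top (measure_ne_top ρ univ) (hsum B)
      · have h2 : (2 : ℝ≥0∞)⁻¹ ≠ 0 := by simp
        have h3 : (2 : ℝ≥0∞)⁻¹ ≠ ∞ := by simp
        have h4 : 0 < ((2 : ℝ≥0∞)⁻¹ ^ B) ^ (s : ℝ) := by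
          apply ENNReal.rpow_pos
          · exact ENNReal.pow_pos (pos_iff_ne_zero.2 h2) _
          · exact ENNReal.pow_ne_top h3
        exact h4.ne'
    have h2 : {q : Q B | ((2 : ℝ≥0∞)⁻¹ ^ B) ^ (s : ℝ) ≤ ρ q.1} = univ := by
      ext q; simp only [mem_ofPred_eq, mem_univ, iff_true]; exact q.2.2
    rw [h2] at h1
    exact Set.finite_univ_iff.1 h1
  have hcov : ∀ n : ℕ, π '' A ⊆ ⋃ i : (Σ B : ℕ, Q (n + B)), π '' i.2.1 := by
    rintro n _ ⟨ω, hω, rfl⟩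
    obtain ⟨B, hB, hB2⟩ := ((hA ω hω).and_eventually (eventually_ge_atTop n)).exists
    obtain ⟨B', rfl⟩ := Nat.exists_eq_add_of_le hB2
    rw [mem_iUnion]
    exact ⟨⟨B', ⟨c (n + B') ω, ⟨ω, rfl⟩, hB⟩⟩, mem_image_of_mem π (hself _ _)⟩
  have hmain := Measure.hausdorffMeasure_le_liminf_tsum (s' : ℝ) (π '' A) (l := atTop)
    (fun n : ℕ => (2 : ℝ≥0∞)⁻¹ ^ n)
    (ENNReal.tendsto_pow_atTop_nhds_zero_of_lt_one (by rw [ENNReal.inv_lt_one]; norm_num))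
    (ι := fun n => (Σ B : ℕ, Q (n + B))) (fun n i => π '' i.2.1)
    (Eventually.of_forall (fun n i => by
      obtain ⟨B, q, ⟨ω, hω⟩, hq⟩ := i
      show ediam (π '' q) ≤ _
      rw [hω]
      refine (hdiam _ _).trans ?_
      refine pow_le_pow_right_of_le_one' ?_ (Nat.le_add_right n B)
      rw [ENNReal.inv_le_one]; norm_num)) (Eventually.of_forall hcov)
  refine hmain.trans ?_
  have hbound : ∀ n : ℕ, ∑' i : (Σ B : ℕ, Q (n + B)), ediam (π '' i.2.1) ^ (s' : ℝ)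
      ≤ θ ^ n * (ρ univ * (1 - θ)⁻¹) := by
    intro n
    rw [ENNReal.tsum_sigma']
    calc ∑' B : ℕ, ∑' q : Q (n + B), ediam (π '' q.1) ^ (s' : ℝ)
        ≤ ∑' B : ℕ, ρ univ * θ ^ (n + B) := by
          apply ENNReal.tsum_le_tsum
          intro B
          calc ∑' q : Q (n + B), ediam (π '' q.1) ^ (s' : ℝ)
              ≤ ∑' q : Q (n + B), ρ q.1 * θ ^ (n + B) := by
                apply ENNReal.tsum_le_tsum
                rintro ⟨q, ⟨ω, hω⟩, hq⟩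
                show ediam (π '' q) ^ (s' : ℝ) ≤ ρ q * θ ^ (n + B)
                calc ediam (π '' q) ^ (s' : ℝ) ≤ ((2 : ℝ≥0∞)⁻¹ ^ (n + B)) ^ (s' : ℝ) := by
                      apply ENNReal.rpow_le_rpow _ (by positivity)
                      rw [hω]; exact hdiam _ _
                  _ = ((2 : ℝ≥0∞)⁻¹ ^ (n + B)) ^ (s : ℝ) * θ ^ (n + B) := hpow _
                  _ ≤ ρ q * θ ^ (n + B) := by gcongr
            _ = (∑' q : Q (n + B), ρ q.1) * θ ^ (n + B) := ENNReal.tsum_mul_right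
            _ ≤ ρ univ * θ ^ (n + B) := by gcongr; exact hsum _
      _ = θ ^ n * (ρ univ * (1 - θ)⁻¹) := by
          simp only [pow_add]
          rw [ENNReal.tsum_mul_left, ENNReal.tsum_mul_left, ENNReal.tsum_geometric]
          ring
  have htend : Tendsto (fun n : ℕ => θ ^ n * (ρ univ * (1 - θ)⁻¹)) atTop (𝓝 0) := by
    have h1 := ENNReal.tendsto_pow_atTop_nhds_zero_of_lt_one hθ1
    have h2 : ρ univ * (1 - θ)⁻¹ ≠ ∞ := by
      apply ENNReal.mul_ne_top (measure_ne_top _ _)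
      rw [Ne, ENNReal.inv_eq_top]
      intro h3
      rw [tsub_eq_zero_iff_le] at h3
      exact absurd hθ1 (not_lt.2 h3)
    have := ENNReal.Tendsto.mul_const h1 (Or.inr h2)
    rwa [zero_mul] at this
  calc liminf (fun n : ℕ => ∑' i : (Σ B : ℕ, Q (n + B)), ediam (π '' i.2.1) ^ (s' : ℝ)) atTop
      ≤ liminf (fun n : ℕ => θ ^ n * (ρ univ * (1 - θ)⁻¹)) atTop :=
        liminf_le_liminf (Eventually.of_forall hbound)
    _ = 0 := htend.liminf_eq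

end Pool.Agent.FC9311
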