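import Pool.Agent.FC9311.Defs

/-!
Mean ergodic theorem for functions, and inner regularity for the dimension of an image measure.
-/

namespace Pool.Agent.FC9311

open MeasureTheory Filter Topology Set Metric
open scoped ENNReal NNReal

theorem measureDim_map_le {Ω X : Type*} [TopologicalSpace Ω] [TopologicalSpace.MetrizableSpace Ω]
    [CompactSpace Ω] [MeasurableSpace Ω] [BorelSpace Ω]
    [EMetricSpace X] [MeasurableSpace X] [BorelSpace X]
    (μ : Measure Ω) [IsFiniteMeasure μ] (π : Ω → X) (hπ : Continuous π) (A : Set Ω)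
    (hμ : ∀ᵐ ω ∂μ, ω ∈ A) : Sponge.measureDim (μ.map π) ≤ dimH (π '' A) := by
  have h0 : μ Aᶜ = 0 := hμ
  obtain ⟨t, hAt, htm, ht0⟩ := exists_measurable_superset_of_null h0
  have hK : ∀ n : ℕ, ∃ K ⊆ tᶜ, IsClosed K ∧ μ (tᶜ \ K) < (n + 1 : ℝ≥0∞)⁻¹ := by
    intro n
    apply htm.compl.exists_isClosed_sdiff_lt (measure_ne_top _ _)
    simp
  choose K hKt hKc hKμ using hK
  have hKA : ∀ n, K n ⊆ A := fun n x hx => by
    by_contra hxA
    exact hKt n hx (hAt hxA)
  have hU : μ (⋃ n, K n)ᶜ = 0 := by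
    have h1 : ∀ n : ℕ, μ (⋃ n, K n)ᶜ ≤ (n + 1 : ℝ≥0∞)⁻¹ := by
      intro n
      calc μ (⋃ n, K n)ᶜ ≤ μ (t ∪ (tᶜ \ K n)) := by
            apply measure_mono
            intro x hx
            by_cases hxt : x ∈ t
            · exact Or.inl hxt
            · refine Or.inr ⟨hxt, fun h => hx (mem_iUnion.2 ⟨n, h⟩)⟩
        _ ≤ μ t + μ (tᶜ \ K n) := measure_union_le _ _
        _ ≤ 0 + (n + 1 : ℝ≥0∞)⁻¹ := by rw [ht0]; gcongr; exact (hKμ n).le
        _ = _ := zero_add _
    have h2 : Tendsto (fun n : ℕ => ((n : ℝ≥0∞) + 1)⁻¹) atTop (𝓝 0) := by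
      have := ENNReal.tendsto_inv_nat_nhds_zero
      have h3 := this.comp (tendsto_add_atTop_nat 1)
      simpa [Function.comp_def] using h3
    exact le_antisymm (ge_of_tendsto' h2 h1) bot_le
  have hm : MeasurableSet (π '' ⋃ n, K n) := by
    rw [image_iUnion]
    apply MeasurableSet.iUnion
    intro n
    exact ((hKc n).isCompact.image hπ).isClosed.measurableSet
  calc Sponge.measureDim (μ.map π) ≤ dimH (π '' ⋃ n, K n) := by
        unfold Sponge.measureDim
        apply iInf₂_le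
        rw [Measure.map_apply hπ.measurable hm.compl]
        apply measure_mono_null _ hU
        intro x hx hx2
        exact hx (mem_image_of_mem π hx2)
    _ ≤ dimH (π '' A) := dimH_mono (image_mono (iUnion_subset hKA))

theorem mean_ergodic {α : Type*} [MeasurableSpace α] (μ : Measure α) [IsProbabilityMeasure μ]
    (T : α → α) (hT : Ergodic T μ) (f : α → ℝ) (hf : MemLp f 2 μ) :
    Tendsto (fun n : ℕ => eLpNorm (fun x => birkhoffAverage ℝ T f n x - ∫ x, f x ∂μ) 2 μ)
      atTop (𝓝 0) := by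
  have hTp := hT.toMeasurePreserving
  set U : Lp ℝ 2 μ →L[ℝ] Lp ℝ 2 μ :=
    (Lp.compMeasurePreservingₗᵢ ℝ T hTp).toContinuousLinearMap with hU
  have hUn : ‖U‖ ≤ 1 := LinearIsometry.norm_toContinuousLinearMap_le _
  set F : Lp ℝ 2 μ := hf.toLp f with hF
  have hlim := U.tendsto_birkhoffAverage_orthogonalProjection hUn F
  set K := (U.eqLocus (1 : Lp ℝ 2 μ →L[ℝ] Lp ℝ 2 μ)) with hK
  set G : Lp ℝ 2 μ := ((K.orthogonalProjectionOnto F : K) : Lp ℝ 2 μ) with hG
  -- G is invariant, hence constant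
  have hGinv : U G = G := by
    have : G ∈ K := (K.orthogonalProjectionOnto F).2
    rw [hK] at this
    exact this
  have hGcomp : (G : α → ℝ) ∘ T =ᵐ[μ] G := by
    have h1 := Lp.coeFn_compMeasurePreserving G hTp
    have h2 : Lp.compMeasurePreserving T hTp G = G := hGinv
    rw [h2] at h1
    exact h1.symm
  obtain ⟨c, hc⟩ := hT.ae_eq_const_of_ae_eq_comp_ae (Lp.aestronglyMeasurable G) hGcomp
  -- the constant is the integral
  set O : Lp ℝ 2 μ := (memLp_const (1 : ℝ)).toLp (fun _ : α => (1 : ℝ)) with hO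
  have hOinv : O ∈ K := by
    show U O = O
    rfl
  have horth : inner ℝ (F - G) O = 0 := by
    have := K.starProjection_inner_eq_zero F O hOinv
    exact this
  have hcint : c = ∫ x, f x ∂μ := by
    rw [L2.inner_def] at horth
    have h1 : ∀ᵐ x ∂μ, inner ℝ ((F - G : Lp ℝ 2 μ) x) (O x) = f x - c := by
      filter_upwards [Lp.coeFn_sub F G, hf.coeFn_toLp, hc,
        (memLp_const (μ := μ) (p := 2) (1 : ℝ)).coeFn_toLp] with x h2 h3 h4 h5
      rw [h2, h5]
      simp only [Pi.sub_apply]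
      rw [h3, h4]
      simp
    rw [integral_congr_ae h1, integral_sub (hf.integrable (by norm_num)) (integrable_const _)] at horth
    simp at horth
    linarith
  -- identify the Birkhoff averages
  have hiter : ∀ k : ℕ, U^[k] F = (hf.comp_measurePreserving (hTp.iterate k)).toLp (f ∘ T^[k]) := by
    intro k
    have : (U : Lp ℝ 2 μ → Lp ℝ 2 μ) = (Lp.compMeasurePreserving (E := ℝ) (p := 2) T hTp) := rfl
    rw [this, Lp.compMeasurePreserving_iterate]
    rfl
  have hbirk : ∀ n : ℕ, (birkhoffAverage ℝ U _root_.id n F : Lp ℝ 2 μ) =ᵐ[μ]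
      birkhoffAverage ℝ T f n := by
    intro n
    simp only [birkhoffAverage, birkhoffSum, _root_.id]
    have h1 : (((∑ k ∈ Finset.range n, U^[k] F : Lp ℝ 2 μ)) : α → ℝ) =ᵐ[μ]
        fun x => ∑ k ∈ Finset.range n, f (T^[k] x) := by
      induction n with
      | zero =>
        simp only [Finset.range_zero, Finset.sum_empty]
        exact Lp.coeFn_zero ℝ 2 μ
      | succ n ih =>
        rw [Finset.sum_range_succ]
        filter_upwards [Lp.coeFn_add (∑ k ∈ Finset.range n, U^[k] F) (U^[n] F), ih,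
          (hf.comp_measurePreserving (hTp.iterate n)).coeFn_toLp] with x h2 h3 h4
        rw [h2, Finset.sum_range_succ, Pi.add_apply, h3, hiter n, h4]
        rfl
    filter_upwards [h1, Lp.coeFn_smul ((n : ℝ)⁻¹) (∑ k ∈ Finset.range n, U^[k] F)] with x h2 h3
    rw [h3, Pi.smul_apply, h2]
    rfl
  rw [tendsto_iff_norm_sub_tendsto_zero] at hlim
  have hconv : ∀ n : ℕ, eLpNorm (fun x => birkhoffAverage ℝ T f n x - ∫ x, f x ∂μ) 2 μ
      = ENNReal.ofReal ‖birkhoffAverage ℝ U _root_.id n F - G‖ := by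
    intro n
    rw [Lp.norm_def, ENNReal.ofReal_toReal
      (Lp.eLpNorm_ne_top (birkhoffAverage ℝ U _root_.id n F - G : Lp ℝ 2 μ))]
    apply eLpNorm_congr_ae
    filter_upwards [Lp.coeFn_sub (birkhoffAverage ℝ U _root_.id n F) G, hbirk n, hc] with x h1 h2 h3
    rw [h1, Pi.sub_apply, h2, h3, hcint]
    rfl
  simp only [hconv]
  rw [← ENNReal.ofReal_zero]
  exact (ENNReal.continuous_ofReal.tendsto 0).comp hlim

end Pool.Agent.FC9311
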