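import Pool.Agent.FC9311.Basic
import Pool.Agent.FC9311.Dim
import Pool.Agent.FC9311.Erg

/-!
Approximate cubes (cells).
-/

namespace Pool.Agent.FC9311

open MeasureTheory Filter Topology Set Metric
open scoped ENNReal NNReal

namespace Sponge

variable {d : ℕ} (S : Sponge d)

/-- The exponent of a symbol: `|r| = 2 ^ (-X)`. -/
noncomputable def X (j : Fin d) (a : S.A j) : ℝ := - Real.logb 2 |S.r j a|

/-- Accumulated exponents. -/
noncomputable def L (j : Fin d) (ω : ℕ → S.E) (n : ℕ) : ℝ :=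
  ∑ s ∈ Finset.range n, S.X j ((ω s).1 j)

lemma X_pos (j : Fin d) (a : S.A j) : 0 < S.X j a := by
  unfold X
  have h1 := abs_pos.2 (S.r_ne j a)
  have h2 := S.r_lt j a
  have := Real.logb_neg (b := 2) (by norm_num) h1 h2
  linarith

lemma abs_r_eq (j : Fin d) (a : S.A j) : |S.r j a| = 2 ^ (-(S.X j a)) := by
  unfold X
  rw [neg_neg, Real.rpow_logb (by norm_num) (by norm_num) (abs_pos.2 (S.r_ne j a))]

lemma exists_X_bounds : ∃ x y : ℝ, 0 < x ∧ 0 < y ∧ ∀ j a, x ≤ S.X j a ∧ S.X j a ≤ y := by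
  have := S.finite_A
  have : Finite (Σ i, S.A i) := inferInstance
  by_cases hne : Nonempty (Σ i, S.A i)
  · obtain ⟨u, hu⟩ := Finite.exists_min (fun u : Σ i, S.A i => S.X u.1 u.2)
    obtain ⟨v, hv⟩ := Finite.exists_max (fun u : Σ i, S.A i => S.X u.1 u.2)
    exact ⟨S.X u.1 u.2, S.X v.1 v.2, S.X_pos _ _, S.X_pos _ _,
      fun i a => ⟨hu ⟨i, a⟩, hv ⟨i, a⟩⟩⟩
  · exact ⟨1, 1, one_pos, one_pos, fun i a => (hne ⟨⟨i, a⟩⟩).elim⟩

lemma L_zero (j : Fin d) (ω : ℕ → S.E) : S.L j ω 0 = 0 := by simp [L]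

lemma L_succ (j : Fin d) (ω : ℕ → S.E) (n : ℕ) :
    S.L j ω (n + 1) = S.L j ω n + S.X j ((ω n).1 j) := by simp [L, Finset.sum_range_succ]

lemma L_mono (j : Fin d) (ω : ℕ → S.E) : StrictMono (S.L j ω) := by
  apply strictMono_nat_of_lt_succ
  intro n
  rw [L_succ]
  linarith [S.X_pos j ((ω n).1 j)]

lemma abs_R_eq (j : Fin d) (ω : ℕ → S.E) (n : ℕ) : |S.R j ω n| = 2 ^ (-(S.L j ω n)) := by
  induction n with
  | zero => simp [R_zero, L_zero]
  | succ n ih =>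
    rw [R_succ, L_succ, abs_mul, ih, abs_r_eq, ← Real.rpow_add (by norm_num)]
    congr 1; ring

lemma mul_le_L {x : ℝ} (hx : ∀ j a, x ≤ S.X j a) (j : Fin d) (ω : ℕ → S.E) (n : ℕ) :
    n * x ≤ S.L j ω n := by
  unfold L
  calc (n : ℝ) * x = ∑ s ∈ Finset.range n, x := by simp
    _ ≤ _ := Finset.sum_le_sum fun s _ => hx _ _

lemma L_le_mul {y : ℝ} (hy : ∀ j a, S.X j a ≤ y) (j : Fin d) (ω : ℕ → S.E) (n : ℕ) :
    S.L j ω n ≤ n * y := by
  unfold L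
  calc _ ≤ ∑ s ∈ Finset.range n, y := Finset.sum_le_sum fun s _ => hy _ _
    _ = (n : ℝ) * y := by simp

lemma exists_le_L (j : Fin d) (ω : ℕ → S.E) (B : ℝ) : ∃ n, B ≤ S.L j ω n := by
  obtain ⟨x, y, hx, hy, hxy⟩ := S.exists_X_bounds
  obtain ⟨n, hn⟩ := exists_nat_ge (B / x)
  refine ⟨n, le_trans ?_ (S.mul_le_L (fun j a => (hxy j a).1) j ω n)⟩
  rw [div_le_iff₀ hx] at hn
  exact hn

/-- The first time `n` at which the accumulated exponent in coordinate `j` is at least `B`. -/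
noncomputable def stop (j : Fin d) (B : ℝ) (ω : ℕ → S.E) : ℕ := sInf {n | B ≤ S.L j ω n}

lemma le_L_stop (j : Fin d) (B : ℝ) (ω : ℕ → S.E) : B ≤ S.L j ω (S.stop j B ω) :=
  Nat.sInf_mem (S.exists_le_L j ω B)

lemma stop_le_iff (j : Fin d) (B : ℝ) (ω : ℕ → S.E) (n : ℕ) :
    S.stop j B ω ≤ n ↔ B ≤ S.L j ω n := by
  constructor
  · intro h
    exact (S.le_L_stop j B ω).trans ((S.L_mono j ω).monotone h)
  · intro h
    exact Nat.sInf_le h

lemma lt_stop_iff (j : Fin d) (B : ℝ) (ω : ℕ → S.E) (n : ℕ) :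
    n < S.stop j B ω ↔ S.L j ω n < B := by
  rw [← not_le, stop_le_iff, not_le]

lemma L_congr {j : Fin d} {ω ω' : ℕ → S.E} {n : ℕ} (h : ∀ s < n, (ω s).1 j = (ω' s).1 j) :
    S.L j ω n = S.L j ω' n := by
  unfold L
  apply Finset.sum_congr rfl
  intro s hs
  rw [h s (Finset.mem_range.1 hs)]

lemma stop_congr {j : Fin d} {B : ℝ} {ω ω' : ℕ → S.E}
    (h : ∀ s < S.stop j B ω, (ω' s).1 j = (ω s).1 j) : S.stop j B ω' = S.stop j B ω := by
  apply le_antisymm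
  · rw [stop_le_iff, S.L_congr h]
    exact S.le_L_stop j B ω
  · by_contra hcon
    rw [not_le] at hcon
    have h1 := S.le_L_stop j B ω'
    rw [S.L_congr (fun s hs => h s (hs.trans hcon))] at h1
    rw [lt_stop_iff] at hcon
    linarith

/-- The approximate cube of `ω` at scale `2 ^ (-B)`. -/
def cell (B : ℝ) (ω : ℕ → S.E) : Set (ℕ → S.E) :=
  {ω' | ∀ j, ∀ s < S.stop j B ω, (ω' s).1 j = (ω s).1 j}

lemma mem_cell_self (B : ℝ) (ω : ℕ → S.E) : ω ∈ S.cell B ω := fun _ _ _ => rfl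

lemma cell_eq {B : ℝ} {ω ω' : ℕ → S.E} (h : ω' ∈ S.cell B ω) : S.cell B ω' = S.cell B ω := by
  have hst : ∀ j, S.stop j B ω' = S.stop j B ω := fun j => S.stop_congr (h j)
  ext ω''
  constructor
  · intro h2 j s hs
    rw [← h j s hs]
    exact h2 j s (by rw [hst]; exact hs)
  · intro h2 j s hs
    rw [hst] at hs
    rw [h j s hs]
    exact h2 j s hs

lemma measurableSet_cell (B : ℝ) (ω : ℕ → S.E) : MeasurableSet (S.cell B ω) := by
  have : S.cell B ω = ⋂ j : Fin d, ⋂ s ∈ Finset.range (S.stop j B ω),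
      (fun ω' : ℕ → S.E => ω' s) ⁻¹' {a | a.1 j = (ω s).1 j} := by
    ext ω'
    simp [cell]
  rw [this]
  apply MeasurableSet.iInter
  intro j
  apply Finset.measurableSet_biInter
  intro s _
  exact (measurable_pi_apply s) trivial

lemma abs_code_sub_le_of_mem_cell {B : ℝ} {ω ω' : ℕ → S.E} (h : ω' ∈ S.cell B ω) (j : Fin d) :
    |S.code ω' j - S.code ω j| ≤ 2 ^ (-B) := by
  refine (S.abs_code_sub_le (h j)).trans ?_
  rw [S.R_congr (h j), abs_R_eq]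
  apply Real.rpow_le_rpow_of_exponent_le (by norm_num)
  linarith [S.le_L_stop j B ω]

lemma ediam_code_cell_le (B : ℕ) (ω : ℕ → S.E) :
    ediam (S.code '' S.cell B ω) ≤ (2 : ℝ≥0∞)⁻¹ ^ B := by
  apply ediam_le
  rintro _ ⟨ω', h', rfl⟩ _ ⟨ω'', h'', rfl⟩
  rw [edist_pi_le_iff]
  intro j
  have h1 : ω' ∈ S.cell B ω'' := by
    rw [S.cell_eq h'']; exact h'
  have h2 := S.abs_code_sub_le_of_mem_cell h1 j
  rw [edist_dist, Real.dist_eq]
  have h3 : (2 : ℝ≥0∞)⁻¹ ^ B = ENNReal.ofReal (2 ^ (-(B : ℝ))) := by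
    rw [Real.rpow_neg (by norm_num), Real.rpow_natCast, ← inv_pow, ENNReal.ofReal_pow (by norm_num),
      ENNReal.ofReal_inv_of_pos (by norm_num)]
    simp
  rw [h3]
  exact ENNReal.ofReal_le_ofReal h2

theorem dimH_code_image_le (ρ : Measure (ℕ → S.E)) [IsFiniteMeasure ρ] (s : ℝ≥0)
    (A : Set (ℕ → S.E))
    (hA : ∀ ω ∈ A, ∃ᶠ B : ℕ in atTop, ((2 : ℝ≥0∞)⁻¹ ^ B) ^ (s : ℝ) ≤ ρ (S.cell B ω)) :
    dimH (S.code '' A) ≤ s :=
  dimH_image_le_of_cells ρ S.code (fun B ω => S.cell B ω)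
    (fun B ω => S.measurableSet_cell B ω) (fun B ω => S.mem_cell_self B ω)
    (fun _ _ _ h => S.cell_eq h) (fun B ω => S.ediam_code_cell_le B ω) s A hA

instance : BorelSpace (ℕ → S.E) := Pi.borelSpace

theorem measureDim_code_le (μ : Measure (ℕ → S.E)) [IsFiniteMeasure μ]
    (ρ : Measure (ℕ → S.E)) [IsFiniteMeasure ρ] (s : ℝ≥0)
    (hA : ∀ᵐ ω ∂μ, ∃ᶠ B : ℕ in atTop, ((2 : ℝ≥0∞)⁻¹ ^ B) ^ (s : ℝ) ≤ ρ (S.cell B ω)) :
    measureDim (μ.map S.code) ≤ s := by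
  refine (measureDim_map_le μ S.code S.continuous_code _ hA).trans ?_
  exact S.dimH_code_image_le ρ s _ (fun ω h => h)

end Sponge

end Pool.Agent.FC9311
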