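import Pool.Agent.FC9311.Lower

/-!
The cyclic sponge.
-/

namespace Pool.Agent.FC9311

open MeasureTheory Filter Topology Set Metric
open scoped ENNReal NNReal

namespace Cyc

/-- cyclic distance `(j - k) mod d`. -/
def rr (d j k : ℕ) : ℕ := (j + (d - k)) % d

/-- the exponents. -/
def Xn (d a : ℕ) (j k : Fin d) : ℕ := if j = k then a ^ (2 * d) else a ^ (4 * rr d j k)

/-- number of own symbols of each coordinate. -/
def NN (d a : ℕ) : ℕ := 2 ^ (a ^ (2 * d) - 1)

lemma rr_pos {d : ℕ} {j k : Fin d} (h : j ≠ k) : 1 ≤ rr d j k := by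
  unfold rr
  have hj := j.2
  have hk := k.2
  have hne : (j : ℕ) ≠ k := fun h' => h (Fin.ext h')
  rcases lt_or_gt_of_ne hne with h1 | h1
  · rw [Nat.mod_eq_of_lt (by omega)]; omega
  · have : (j : ℕ) + (d - k) = (j - k) + d := by omega
    rw [this, Nat.add_mod_right, Nat.mod_eq_of_lt (by omega)]; omega

lemma rr_symm {d : ℕ} {j k : Fin d} (h : j ≠ k) : rr d j k + rr d k j = d := by
  unfold rr
  have hj := j.2
  have hk := k.2
  have hne : (j : ℕ) ≠ k := fun h' => h (Fin.ext h')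
  rcases lt_or_gt_of_ne hne with h1 | h1
  · rw [Nat.mod_eq_of_lt (by omega)]
    have : (k : ℕ) + (d - j) = (k - j) + d := by omega
    rw [this, Nat.add_mod_right, Nat.mod_eq_of_lt (by omega)]; omega
  · have : (j : ℕ) + (d - k) = (j - k) + d := by omega
    rw [this, Nat.add_mod_right, Nat.mod_eq_of_lt (by omega), Nat.mod_eq_of_lt (by omega)]; omega

lemma Xn_recip {d a : ℕ} (j k : Fin d) : Xn d a j k * Xn d a k j = Xn d a j j * Xn d a k k := by
  unfold Xn
  by_cases h : j = k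
  · subst h; simp
  · rw [if_neg h, if_neg (fun h' => h h'.symm), if_pos rfl, if_pos rfl, ← pow_add, ← pow_add]
    congr 1
    have := rr_symm h
    omega

lemma le_Xn {d a : ℕ} (_ha : 2 ≤ a) (j k : Fin d) : a ≤ Xn d a j k := by
  have hd : 1 ≤ d := by have := j.2; omega
  unfold Xn
  split_ifs with h
  · exact Nat.le_self_pow (by omega) a
  · have := rr_pos h
    exact Nat.le_self_pow (by omega) a

/-- left endpoint of the interval of a symbol. -/
noncomputable def lo (d a : ℕ) : Fin (NN d a) ⊕ Fin d → ℝ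
  | Sum.inl m => (m : ℕ) * (1 / 2 : ℝ) ^ (a ^ (2 * d))
  | Sum.inr k => 1 / 2 + (k : ℕ) / (2 * (d : ℝ))

/-- length of the interval of a symbol in coordinate `j`. -/
noncomputable def len (d a : ℕ) (j : Fin d) : Fin (NN d a) ⊕ Fin d → ℝ
  | Sum.inl _ => (1 / 2 : ℝ) ^ (a ^ (2 * d))
  | Sum.inr k => (1 / 2 : ℝ) ^ (Xn d a j k)

lemma len_pos {d a : ℕ} (j : Fin d) (x : Fin (NN d a) ⊕ Fin d) : 0 < len d a j x := by
  unfold len
  split <;> positivity

lemma len_lt_one {d a : ℕ} (ha : 2 ≤ a) (j : Fin d) (x : Fin (NN d a) ⊕ Fin d) :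
    len d a j x < 1 := by
  have hd : 1 ≤ d := by have := j.2; omega
  unfold len
  split
  · apply pow_lt_one₀ (by norm_num) (by norm_num)
    have : 0 < a ^ (2 * d) := by positivity
    omega
  · apply pow_lt_one₀ (by norm_num) (by norm_num)
    have := le_Xn ha j (by assumption : Fin d)
    omega

lemma NN_mul {d a : ℕ} (ha : 2 ≤ a) :
    (NN d a : ℝ) * (1 / 2 : ℝ) ^ (a ^ (2 * d)) = 1 / 2 := by
  have h1 : 0 < a ^ (2 * d) := by positivity
  obtain ⟨n, hn⟩ : ∃ n, a ^ (2 * d) = n + 1 := ⟨a ^ (2 * d) - 1, by omega⟩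
  unfold NN
  rw [hn, Nat.add_sub_cancel]
  push_cast
  rw [pow_succ, ← mul_assoc, ← mul_pow]
  norm_num

lemma half_pow_le {d a : ℕ} (ha : 2 * d ≤ a) (ha2 : 2 ≤ a) (j k : Fin d) :
    (1 / 2 : ℝ) ^ (Xn d a j k) ≤ 1 / (2 * (d : ℝ)) := by
  have hd : 1 ≤ d := by have := j.2; omega
  have hd' : (0 : ℝ) < d := by exact_mod_cast hd
  have h1 : 2 * d ≤ Xn d a j k := ha.trans (le_Xn ha2 j k)
  have h2 : Xn d a j k < 2 ^ Xn d a j k := Nat.lt_two_pow_self
  have h3 : (2 * (d : ℝ)) ≤ 2 ^ Xn d a j k := by exact_mod_cast (h1.trans h2.le)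
  rw [div_pow, one_pow]
  exact one_div_le_one_div_of_le (by positivity) h3

lemma lo_nonneg {d a : ℕ} (x : Fin (NN d a) ⊕ Fin d) : 0 ≤ lo d a x := by
  unfold lo
  split <;> positivity

lemma hi_le_one {d a : ℕ} (ha : 2 * d ≤ a) (ha2 : 2 ≤ a) (j : Fin d) (x : Fin (NN d a) ⊕ Fin d) :
    lo d a x + len d a j x ≤ 1 := by
  have hd : 1 ≤ d := by have := j.2; omega
  have hd' : (0 : ℝ) < d := by exact_mod_cast hd
  rcases x with m | k
  · simp only [lo, len]
    have h1 : ((m : ℕ) : ℝ) + 1 ≤ NN d a := by exact_mod_cast m.2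
    have h2 := NN_mul (d := d) ha2
    have h3 : (0 : ℝ) < (1 / 2 : ℝ) ^ (a ^ (2 * d)) := by positivity
    nlinarith
  · simp only [lo, len]
    have h1 := half_pow_le ha ha2 j k
    have h2 : ((k : ℕ) : ℝ) + 1 ≤ d := by exact_mod_cast k.2
    have h3 : ((k : ℕ) : ℝ) / (2 * d) + 1 / (2 * d) ≤ 1 / 2 := by
      rw [← add_div, div_le_iff₀ (by positivity)]; linarith
    linarith

lemma order {d a : ℕ} (ha : 2 * d ≤ a) (ha2 : 2 ≤ a) (j : Fin d) (x y : Fin (NN d a) ⊕ Fin d)
    (h : x ≠ y) : lo d a x + len d a j x ≤ lo d a y ∨ lo d a y + len d a j y ≤ lo d a x := by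
  have hd : 1 ≤ d := by have := j.2; omega
  have hd' : (0 : ℝ) < d := by exact_mod_cast hd
  have key : ∀ (m : Fin (NN d a)) (k : Fin d),
      lo d a (Sum.inl m) + len d a j (Sum.inl m) ≤ lo d a (Sum.inr k) := by
    intro m k
    simp only [lo, len]
    have h1 : ((m : ℕ) : ℝ) + 1 ≤ NN d a := by exact_mod_cast m.2
    have h2 := NN_mul (d := d) ha2
    have h3 : (0 : ℝ) < (1 / 2 : ℝ) ^ (a ^ (2 * d)) := by positivity
    have h4 : (0 : ℝ) ≤ ((k : ℕ) : ℝ) / (2 * d) := by positivity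
    nlinarith
  rcases x with m | k <;> rcases y with m' | k'
  · have hne : (m : ℕ) ≠ m' := fun h' => h (by rw [Fin.ext h'])
    have h3 : (0 : ℝ) < (1 / 2 : ℝ) ^ (a ^ (2 * d)) := by positivity
    simp only [lo, len]
    rcases lt_or_gt_of_ne hne with h1 | h1
    · left
      have : ((m : ℕ) : ℝ) + 1 ≤ (m' : ℕ) := by exact_mod_cast h1
      nlinarith
    · right
      have : ((m' : ℕ) : ℝ) + 1 ≤ (m : ℕ) := by exact_mod_cast h1
      nlinarith
  · left; exact key m k'
  · right; exact key m' k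
  · have hne : (k : ℕ) ≠ k' := fun h' => h (by rw [Fin.ext h'])
    simp only [lo, len]
    rcases lt_or_gt_of_ne hne with h1 | h1
    · left
      have h2 : ((k : ℕ) : ℝ) + 1 ≤ (k' : ℕ) := by exact_mod_cast h1
      have h3 := half_pow_le ha ha2 j k
      have h4 : ((k : ℕ) : ℝ) / (2 * d) + 1 / (2 * d) ≤ (k' : ℕ) / (2 * d) := by
        rw [← add_div]; gcongr
      linarith
    · right
      have h2 : ((k' : ℕ) : ℝ) + 1 ≤ (k : ℕ) := by exact_mod_cast h1
      have h3 := half_pow_le ha ha2 j k'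
      have h4 : ((k' : ℕ) : ℝ) / (2 * d) + 1 / (2 * d) ≤ (k : ℕ) / (2 * d) := by
        rw [← add_div]; gcongr
      linarith

/-- The symbol of piece `k` with digit `m`. -/
def emb (d a : ℕ) (p : Fin d × Fin (NN d a)) (j : Fin d) : Fin (NN d a) ⊕ Fin d :=
  if j = p.1 then Sum.inl p.2 else Sum.inr p.1

lemma emb_injective (d a : ℕ) : Function.Injective (emb d a) := by
  intro p q h
  have h1 := congrFun h p.1
  simp only [emb, if_true] at h1
  split_ifs at h1 with h2
  exact Prod.ext h2 (Sum.inl_injective h1)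

/-- The cyclic sponge. -/
noncomputable def spo (d a : ℕ) (hd : 1 ≤ d) (ha : 2 * d ≤ a) (ha2 : 2 ≤ a) : Sponge d where
  A := fun _ => Fin (NN d a) ⊕ Fin d
  finite_A := fun _ => inferInstance
  r := fun j x => len d a j x
  t := fun _ x => lo d a x
  r_ne := fun j x => (len_pos j x).ne'
  r_lt := fun j x => by
    rw [abs_of_pos (len_pos j x)]; exact len_lt_one ha2 j x
  maps := fun j x u hu => by
    have h1 := len_pos j x
    have h2 := lo_nonneg x
    have h3 := hi_le_one ha ha2 j x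
    constructor
    · nlinarith [hu.1]
    · nlinarith [hu.1, hu.2]
  disj := fun j x y hxy => by
    rw [Set.disjoint_left]
    rintro _ ⟨u, hu, rfl⟩ ⟨v, hv, hv2⟩
    have h1 := len_pos j x
    have h2 := len_pos j y
    simp only at hv2
    rcases order ha ha2 j x y hxy with h | h
    · nlinarith [hu.1, hu.2, hv.1, hv.2]
    · nlinarith [hu.1, hu.2, hv.1, hv.2]
  E := range (emb d a)
  nonempty_E := ⟨emb d a (⟨0, hd⟩, ⟨0, by unfold NN; positivity⟩), mem_range_self _⟩

end Cyc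

end Pool.Agent.FC9311
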