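import Pool.Agent.FC9311.Erg

/-!
Simultaneous almost everywhere convergence of Birkhoff averages along a subsequence.
-/

namespace Pool.Agent.FC9311

open MeasureTheory Filter Topology Set Metric
open scoped ENNReal NNReal

lemma birkhoffAverage_measurable {α : Type*} [MeasurableSpace α] (T : α → α) (hT : Measurable T)
    (f : α → ℝ) (hf : Measurable f) (n : ℕ) : Measurable (birkhoffAverage ℝ T f n) := by
  unfold birkhoffAverage birkhoffSum
  simp only [smul_eq_mul]
  apply Measurable.const_mul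
  apply Finset.measurable_sum
  intro k _
  exact hf.comp (hT.iterate k)

theorem exists_seq_birkhoff {α ι κ : Type*} [Fintype ι] [Fintype κ] [MeasurableSpace α]
    (μ : Measure α) [IsProbabilityMeasure μ]
    (T : α → α) (hT : Ergodic T μ) (f : κ → α → ℝ) (hf : ∀ k, MemLp (f k) 2 μ)
    (hfm : ∀ k, Measurable (f k)) (τ : ι → ℕ → ℕ) (hτ : ∀ j, Tendsto (τ j) atTop atTop) :
    ∃ ns : ℕ → ℕ, StrictMono ns ∧ ∀ᵐ x ∂μ, ∀ j k,
      Tendsto (fun i => birkhoffAverage ℝ T (f k) (τ j (ns i)) x) atTop (𝓝 (∫ x, f k x ∂μ)) := by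
  classical
  set g : ℕ → α → ℝ := fun B => ∑ p : ι × κ, fun x =>
    ‖birkhoffAverage ℝ T (f p.2) (τ p.1 B) x - ∫ x, f p.2 x ∂μ‖ with hg
  have hgm1 : ∀ (p : ι × κ) (B : ℕ), Measurable (fun x =>
      ‖birkhoffAverage ℝ T (f p.2) (τ p.1 B) x - ∫ x, f p.2 x ∂μ‖) := by
    intro p B
    exact ((birkhoffAverage_measurable T hT.measurable (f p.2) (hfm p.2) _).sub_const _).norm
  have hgm : ∀ B, Measurable (g B) := by
    intro B
    simp only [hg]
    have : (∑ p : ι × κ, fun x => ‖birkhoffAverage ℝ T (f p.2) (τ p.1 B) x - ∫ x, f p.2 x ∂μ‖)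
        = fun x => ∑ p : ι × κ, ‖birkhoffAverage ℝ T (f p.2) (τ p.1 B) x - ∫ x, f p.2 x ∂μ‖ := by
      funext x; simp
    rw [this]
    exact Finset.measurable_sum _ (fun p _ => hgm1 p B)
  have hlim : Tendsto (fun B => eLpNorm (g B - 0) 2 μ) atTop (𝓝 0) := by
    have h1 : Tendsto (fun B => ∑ p : ι × κ, eLpNorm (fun x =>
        ‖birkhoffAverage ℝ T (f p.2) (τ p.1 B) x - ∫ x, f p.2 x ∂μ‖) 2 μ) atTop (𝓝 0) := by
      have h2 : (0 : ℝ≥0∞) = ∑ p : ι × κ, 0 := by simp
      rw [h2]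
      apply tendsto_finsetSum
      intro p _
      simp only [eLpNorm_norm]
      exact (mean_ergodic μ T hT (f p.2) (hf p.2)).comp (hτ p.1)
    apply tendsto_of_tendsto_of_tendsto_of_le_of_le tendsto_const_nhds h1 (fun _ => bot_le)
    intro B
    simp only [sub_zero]
    exact eLpNorm_sum_le (fun p _ => (hgm1 p B).aestronglyMeasurable) (by norm_num)
  have h3 := tendstoInMeasure_of_tendsto_eLpNorm (p := 2) (by norm_num)
    (fun B => (hgm B).aestronglyMeasurable) (aestronglyMeasurable_zero) hlim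
  obtain ⟨ns, hns, hae⟩ := h3.exists_seq_tendsto_ae
  refine ⟨ns, hns, ?_⟩
  filter_upwards [hae] with x hx
  intro j k
  rw [tendsto_iff_norm_sub_tendsto_zero]
  apply tendsto_of_tendsto_of_tendsto_of_le_of_le tendsto_const_nhds hx (fun _ => norm_nonneg _)
  intro i
  simp only [hg, Finset.sum_apply]
  exact Finset.single_le_sum (f := fun p : ι × κ =>
    ‖birkhoffAverage ℝ T (f p.2) (τ p.1 (ns i)) x - ∫ x, f p.2 x ∂μ‖)
    (fun _ _ => norm_nonneg _) (Finset.mem_univ (j, k))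

end Pool.Agent.FC9311
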