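import Pool.Agent.FC9311.CycUp
import Pool.Agent.FC9311.Erg2

/-!
The cyclic sponge: upper bound for the dynamical dimension, conclusion.
-/

namespace Pool.Agent.FC9311

open MeasureTheory Filter Topology Set Metric
open scoped ENNReal NNReal

namespace Cyc

lemma pow_conv (d M W n B : ℕ) (s : ℝ) (hd : 1 ≤ d)
    (h : M * Real.logb 2 d + (n : ℝ) * W ≤ s * B) :
    ((2 : ℝ≥0∞)⁻¹ ^ B) ^ s ≤ ((d : ℝ≥0∞)⁻¹) ^ M * (((2 ^ n : ℕ) : ℝ≥0∞)⁻¹) ^ W := by
  have hd0 : (0 : ℝ) < d := by exact_mod_cast hd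
  have h1 : ((2 : ℝ≥0∞)⁻¹ ^ B) ^ s = ENNReal.ofReal (2 ^ (-(s * B))) := by
    rw [Sponge.half_pow_eq, ENNReal.ofReal_rpow_of_pos (by positivity), ← Real.rpow_mul (by norm_num)]
    congr 2; ring
  have h2 : ((d : ℝ≥0∞)⁻¹) ^ M = ENNReal.ofReal (2 ^ (-(M * Real.logb 2 d))) := by
    have : (2 : ℝ) ^ (-(M * Real.logb 2 d)) = ((d : ℝ)⁻¹) ^ M := by
      rw [Real.rpow_neg (by norm_num), mul_comm, Real.rpow_mul (by norm_num),
        Real.rpow_logb (by norm_num) (by norm_num) hd0, Real.rpow_natCast, inv_pow]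
    rw [this, ENNReal.ofReal_pow (by positivity), ENNReal.ofReal_inv_of_pos hd0,
      ENNReal.ofReal_natCast]
  have h3 : (((2 ^ n : ℕ) : ℝ≥0∞)⁻¹) ^ W = ENNReal.ofReal (2 ^ (-((n : ℝ) * W))) := by
    have : (2 : ℝ) ^ (-((n : ℝ) * W)) = (((2 ^ n : ℕ) : ℝ)⁻¹) ^ W := by
      rw [Real.rpow_neg (by norm_num), Real.rpow_mul (by norm_num), Real.rpow_natCast,
        Real.rpow_natCast, inv_pow]
      push_cast; rfl
    rw [this, ENNReal.ofReal_pow (by positivity), ENNReal.ofReal_inv_of_pos (by positivity),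
      ENNReal.ofReal_natCast]
  rw [h1, h2, h3, ← ENNReal.ofReal_mul (by positivity), ← Real.rpow_add (by norm_num)]
  apply ENNReal.ofReal_le_ofReal
  apply Real.rpow_le_rpow_of_exponent_le (by norm_num)
  linarith

section

variable {d a : ℕ} {hd : 1 ≤ d} {ha : 2 * d ≤ a} {ha2 : 2 ≤ a}

lemma det_lemma (q : Fin d → ℝ) (hq : ∀ k, 0 ≤ q k) (hq1 : ∑ k, q k = 1) (δ s : ℝ) (hδ : 0 < δ)
    (hs : (1 + δ) * (1 + Real.logb 2 d / a) < s)
    (ω : ℕ → (spo d a hd ha ha2).E) (ns : ℕ → ℕ) (hns : Tendsto ns atTop atTop)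
    (h : ∀ j k, Tendsto (fun i =>
      (Q k ω ⌈((1 + δ) / ∑ k, (Xn d a j k : ℝ) * q k) * (ns i : ℝ)⌉₊ : ℝ) /
        (⌈((1 + δ) / ∑ k, (Xn d a j k : ℝ) * q k) * (ns i : ℝ)⌉₊ : ℝ)) atTop (𝓝 (q k))) :
    ∀ᶠ i in atTop, ((2 : ℝ≥0∞)⁻¹ ^ (ns i)) ^ s
      ≤ rho d a hd ha ha2 ((spo d a hd ha ha2).cell (ns i : ℕ) ω) := by
  set χ : Fin d → ℝ := fun j => ∑ k, (Xn d a j k : ℝ) * q k with hχ
  have ha0 : (0 : ℝ) < a := by
    have : 0 < a := by omega
    exact_mod_cast this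
  have hχa : ∀ j, (a : ℝ) ≤ χ j := by
    intro j
    calc (a : ℝ) = ∑ k, (a : ℝ) * q k := by rw [← Finset.mul_sum, hq1, mul_one]
      _ ≤ χ j := by
        apply Finset.sum_le_sum
        intro k _
        apply mul_le_mul_of_nonneg_right _ (hq k)
        exact_mod_cast le_Xn ha2 j k
  have hχ0 : ∀ j, 0 < χ j := fun j => ha0.trans_le (hχa j)
  set τ : Fin d → ℕ → ℕ := fun j B => ⌈((1 + δ) / χ j) * (B : ℝ)⌉₊ with hτ
  set M : ℕ → ℕ := fun B => ⌈((1 + δ) / a) * (B : ℝ)⌉₊ with hM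
  have hτM : ∀ j B, τ j B ≤ M B := by
    intro j B
    apply Nat.ceil_le_ceil
    gcongr
    exact hχa j
  have hnsR : Tendsto (fun i => (ns i : ℝ)) atTop atTop := tendsto_natCast_atTop_atTop.comp hns
  have hτlim : ∀ j, Tendsto (fun i => (τ j (ns i) : ℝ) / (ns i : ℝ)) atTop
      (𝓝 ((1 + δ) / χ j)) := by
    intro j
    exact (tendsto_nat_ceil_mul_div_atTop (a := (1 + δ) / χ j)
      (div_nonneg (by linarith) (hχ0 j).le)).comp hnsR
  have hMlim : Tendsto (fun i => (M (ns i) : ℝ) / (ns i : ℝ)) atTop (𝓝 ((1 + δ) / a)) := by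
    exact (tendsto_nat_ceil_mul_div_atTop (a := (1 + δ) / (a : ℝ))
      (div_nonneg (by linarith) ha0.le)).comp hnsR
  have hQlim : ∀ j k, Tendsto (fun i => (Q k ω (τ j (ns i)) : ℝ) / (ns i : ℝ)) atTop
      (𝓝 (q k * ((1 + δ) / χ j))) := by
    intro j k
    have h1 := (h j k).mul (hτlim j)
    refine h1.congr' ?_
    filter_upwards [hnsR.eventually_gt_atTop 0] with i hi
    have h2 : (0 : ℝ) < (τ j (ns i) : ℝ) := by
      have : 0 < τ j (ns i) := Nat.ceil_pos.2 (mul_pos (div_pos (by linarith) (hχ0 j)) hi)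
      exact_mod_cast this
    change (Q k ω (τ j (ns i)) : ℝ) / (τ j (ns i) : ℝ) * ((τ j (ns i) : ℝ) / (ns i : ℝ)) = _
    field_simp
  have hLlim : ∀ j, Tendsto (fun i => (spo d a hd ha ha2).L j ω (τ j (ns i)) / (ns i : ℝ)) atTop
      (𝓝 (1 + δ)) := by
    intro j
    have h1 : Tendsto (fun i => ∑ k, (Xn d a j k : ℝ) * ((Q k ω (τ j (ns i)) : ℝ) / (ns i : ℝ)))
        atTop (𝓝 (∑ k, (Xn d a j k : ℝ) * (q k * ((1 + δ) / χ j)))) :=
      tendsto_finsetSum _ (fun k _ => (hQlim j k).const_mul _)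
    have h2 : ∑ k, (Xn d a j k : ℝ) * (q k * ((1 + δ) / χ j)) = 1 + δ := by
      have : ∑ k, (Xn d a j k : ℝ) * (q k * ((1 + δ) / χ j)) = χ j * ((1 + δ) / χ j) := by
        rw [hχ, Finset.sum_mul]
        apply Finset.sum_congr rfl
        intro k _; ring
      rw [this, mul_div_cancel₀ _ (hχ0 j).ne']
    rw [h2] at h1
    refine h1.congr ?_
    intro i
    rw [L_eq, Finset.sum_div]
    apply Finset.sum_congr rfl
    intro k _; ring
  have hstop : ∀ᶠ i in atTop, ∀ j, (spo d a hd ha ha2).stop j ((ns i : ℕ) : ℝ) ω ≤ τ j (ns i) := by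
    rw [eventually_all]
    intro j
    filter_upwards [(hLlim j).eventually_const_lt (show (1 : ℝ) < 1 + δ by linarith),
      hnsR.eventually_gt_atTop 0] with i hi hpos
    rw [Sponge.stop_le_iff]
    rw [lt_div_iff₀ hpos, one_mul] at hi
    exact hi.le
  have hexp : ∀ᶠ i in atTop, (M (ns i) : ℝ) * Real.logb 2 d +
      ((a ^ (2 * d) - 1 : ℕ) : ℝ) * (∑ j, Q j ω (τ j (ns i)) : ℕ) ≤ s * (ns i : ℕ) := by
    have h1 : Tendsto (fun i => (M (ns i) : ℝ) / (ns i : ℝ) * Real.logb 2 d +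
        ((a ^ (2 * d) - 1 : ℕ) : ℝ) * ∑ j, (Q j ω (τ j (ns i)) : ℝ) / (ns i : ℝ)) atTop
        (𝓝 ((1 + δ) / a * Real.logb 2 d +
          ((a ^ (2 * d) - 1 : ℕ) : ℝ) * ∑ j, q j * ((1 + δ) / χ j))) :=
      (hMlim.mul_const _).add ((tendsto_finsetSum _ (fun j _ => hQlim j j)).const_mul _)
    have h2 : (1 + δ) / a * Real.logb 2 d +
          ((a ^ (2 * d) - 1 : ℕ) : ℝ) * ∑ j, q j * ((1 + δ) / χ j) < s := by
      refine lt_of_le_of_lt ?_ hs
      have h3 := static_lemma (fun j k => (Xn d a j k : ℝ))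
        (fun j k => by
          have := le_Xn ha2 j k
          have : 0 < Xn d a j k := by omega
          exact_mod_cast this)
        (fun j k => by exact_mod_cast Xn_recip j k) q hq hχ0
      have h4 : ((a ^ (2 * d) - 1 : ℕ) : ℝ) * ∑ j, q j * ((1 + δ) / χ j)
          ≤ (1 + δ) * ∑ j, (Xn d a j j : ℝ) * q j / χ j := by
        rw [Finset.mul_sum, Finset.mul_sum]
        apply Finset.sum_le_sum
        intro j _
        have h5 : ((a ^ (2 * d) - 1 : ℕ) : ℝ) ≤ (Xn d a j j : ℝ) := by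
          have : a ^ (2 * d) - 1 ≤ Xn d a j j := by simp [Xn]
          exact_mod_cast this
        have h6 : 0 ≤ q j * ((1 + δ) / χ j) :=
          mul_nonneg (hq j) (div_nonneg (by linarith) (hχ0 j).le)
        calc ((a ^ (2 * d) - 1 : ℕ) : ℝ) * (q j * ((1 + δ) / χ j))
            ≤ (Xn d a j j : ℝ) * (q j * ((1 + δ) / χ j)) := mul_le_mul_of_nonneg_right h5 h6
          _ = _ := by ring
      have h7 : (1 + δ) * ∑ j, (Xn d a j j : ℝ) * q j / χ j ≤ (1 + δ) * 1 :=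
        mul_le_mul_of_nonneg_left h3 (by linarith)
      calc (1 + δ) / a * Real.logb 2 d +
          ((a ^ (2 * d) - 1 : ℕ) : ℝ) * ∑ j, q j * ((1 + δ) / χ j)
          ≤ (1 + δ) / a * Real.logb 2 d + (1 + δ) * 1 := by linarith
        _ = (1 + δ) * (1 + Real.logb 2 d / a) := by ring
    filter_upwards [h1.eventually_lt_const h2, hnsR.eventually_gt_atTop 0] with i hi hpos
    have h8 : (M (ns i) : ℝ) * Real.logb 2 d +
      ((a ^ (2 * d) - 1 : ℕ) : ℝ) * (∑ j, Q j ω (τ j (ns i)) : ℕ)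
      = ((M (ns i) : ℝ) / (ns i : ℝ) * Real.logb 2 d +
        ((a ^ (2 * d) - 1 : ℕ) : ℝ) * ∑ j, (Q j ω (τ j (ns i)) : ℝ) / (ns i : ℝ)) * ns i := by
      rw [← Finset.sum_div]
      push_cast
      field_simp
    rw [h8]
    exact mul_le_mul_of_nonneg_right hi.le hpos.le
  filter_upwards [hstop, hexp] with i hi1 hi2
  refine le_trans ?_ (cell_lower ω _ (fun j => τ j (ns i)) hi1 (M (ns i)) (fun j => hτM j _))
  exact pow_conv d (M (ns i)) (∑ j, Q j ω (τ j (ns i))) (a ^ (2 * d) - 1) (ns i) s hd hi2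

lemma birkhoff_eq (k : Fin d) (n : ℕ) (ω : ℕ → (spo d a hd ha ha2).E) :
    birkhoffAverage ℝ Sponge.shift
      (fun ω : ℕ → (spo d a hd ha ha2).E => if pc d a hd ha ha2 (ω 0) = k then (1 : ℝ) else 0) n ω
      = (Q k ω n : ℝ) / n := by
  unfold birkhoffAverage birkhoffSum Q
  have hiter : ∀ (t : ℕ) (ω : ℕ → (spo d a hd ha ha2).E), (Sponge.shift^[t] ω) 0 = ω t := by
    intro t
    induction t with
    | zero => intro ω; rfl
    | succ t ih =>
      intro ω
      rw [Function.iterate_succ_apply, ih]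
      rfl
  simp only [hiter, smul_eq_mul]
  rw [Finset.sum_ite, Finset.sum_const, Finset.sum_const_zero, add_zero, nsmul_eq_mul, mul_one]
  rw [div_eq_inv_mul]

theorem DynD_le : (spo d a hd ha ha2).DynD ≤ ENNReal.ofReal (1 + Real.logb 2 d / a) := by
  classical
  have ha0 : (0 : ℝ) < a := by
    have : 0 < a := by omega
    exact_mod_cast this
  have hlog : 0 ≤ Real.logb 2 d := Real.logb_nonneg (by norm_num) (by exact_mod_cast hd)
  have hpos : 0 < 1 + Real.logb 2 d / a := by positivity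
  unfold Sponge.DynD
  refine iSup_le fun μ => iSup_le fun hμ => iSup_le fun herg => ?_
  apply le_of_forall_gt
  intro r hr
  obtain ⟨s, hs1, hs2⟩ := ENNReal.lt_iff_exists_nnreal_btwn.1 hr
  refine lt_of_le_of_lt ?_ hs2
  have hs1' : 1 + Real.logb 2 d / a < (s : ℝ) := by
    rw [ENNReal.ofReal_lt_coe_iff hpos.le] at hs1
    exact hs1
  -- choose δ
  obtain ⟨δ, hδ0, hδ⟩ : ∃ δ : ℝ, 0 < δ ∧ (1 + δ) * (1 + Real.logb 2 d / a) < s := by
    refine ⟨(s - (1 + Real.logb 2 d / a)) / (2 * (1 + Real.logb 2 d / a)),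
      div_pos (by linarith) (by linarith), ?_⟩
    rw [add_mul, one_mul]
    have : (s - (1 + Real.logb 2 d / a)) / (2 * (1 + Real.logb 2 d / a)) * (1 + Real.logb 2 d / a)
        = (s - (1 + Real.logb 2 d / a)) / 2 := by
      field_simp
    rw [this]
    linarith
  apply Sponge.measureDim_code_le _ μ (rho d a hd ha ha2) s
  set f : Fin d → (ℕ → (spo d a hd ha ha2).E) → ℝ := fun k ω =>
    if pc d a hd ha ha2 (ω 0) = k then (1 : ℝ) else 0 with hf
  have hfm : ∀ k, Measurable (f k) := by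
    intro k
    have h1 : Measurable (fun e : (spo d a hd ha ha2).E =>
      if pc d a hd ha ha2 e = k then (1 : ℝ) else 0) := measurable_of_countable _
    exact h1.comp (measurable_pi_apply 0)
  have hfL : ∀ k, MemLp (f k) 2 μ := by
    intro k
    apply MemLp.of_bound (hfm k).aestronglyMeasurable 1
    apply Eventually.of_forall
    intro ω
    simp only [hf]
    split_ifs <;> simp
  set q : Fin d → ℝ := fun k => ∫ ω, f k ω ∂μ with hq
  have hq0 : ∀ k, 0 ≤ q k := by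
    intro k
    apply integral_nonneg
    intro ω
    simp only [hf]
    split_ifs <;> simp
  have hq1 : ∑ k, q k = 1 := by
    simp only [hq]
    rw [← integral_finsetSum _ (fun k _ => (hfL k).integrable (by norm_num))]
    have : ∀ ω : ℕ → (spo d a hd ha ha2).E, ∑ k, f k ω = 1 := by
      intro ω
      simp only [hf]
      rw [Finset.sum_ite_eq]; simp
    simp only [this]
    simp
  have hχ0 : ∀ j, 0 < ∑ k, (Xn d a j k : ℝ) * q k := by
    intro j
    have : (a : ℝ) ≤ ∑ k, (Xn d a j k : ℝ) * q k := by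
      calc (a : ℝ) = ∑ k, (a : ℝ) * q k := by rw [← Finset.mul_sum, hq1, mul_one]
        _ ≤ _ := by
          apply Finset.sum_le_sum
          intro k _
          apply mul_le_mul_of_nonneg_right _ (hq0 k)
          exact_mod_cast le_Xn ha2 j k
    linarith
  obtain ⟨ns, hns, hae⟩ := exists_seq_birkhoff μ Sponge.shift herg f hfL hfm
    (fun (j : Fin d) (B : ℕ) => ⌈((1 + δ) / ∑ k, (Xn d a j k : ℝ) * q k) * (B : ℝ)⌉₊)
    (fun j => by
      apply tendsto_nat_ceil_atTop.comp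
      apply Tendsto.const_mul_atTop (div_pos (by linarith) (hχ0 j)) tendsto_natCast_atTop_atTop)
  filter_upwards [hae] with ω hω
  have h1 := det_lemma (hd := hd) (ha := ha) (ha2 := ha2) q hq0 hq1 δ s hδ0 hδ ω ns
    hns.tendsto_atTop (fun j k => by
      have h2 := hω j k
      simp only [hf, birkhoff_eq] at h2
      exact h2)
  exact hns.tendsto_atTop.frequently h1.frequently

end

end Cyc

end Pool.Agent.FC9311
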