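import Pool.Agent.FC9311.CycLow2

/-!
The cyclic sponge: lower bound for the Hausdorff dimension, conclusion.
-/

namespace Pool.Agent.FC9311

open MeasureTheory Filter Topology Set Metric
open scoped ENNReal NNReal

namespace Cyc

section

variable {d a : ℕ} {hd : 1 ≤ d} {ha : 2 * d ≤ a} {ha2 : 2 ≤ a}

instance : Nonempty (Fin (NN d a)) := ⟨⟨0, NN_pos⟩⟩

variable (d a hd ha ha2) in
/-- uniform measure on piece `k`. -/
noncomputable def pm (k : Fin d) : Measure (spo d a hd ha ha2).E :=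
  ((PMF.uniformOfFintype (Fin (NN d a))).toMeasure).map (fun m => eqv d a hd ha ha2 (k, m))

lemma meas_pm (k : Fin d) : Measurable (fun m : Fin (NN d a) => eqv d a hd ha ha2 (k, m)) :=
  measurable_of_countable _

instance (k : Fin d) : IsProbabilityMeasure (pm d a hd ha ha2 k) :=
  Measure.isProbabilityMeasure_map (meas_pm k).aemeasurable

lemma pm_ae (k : Fin d) : ∀ᵐ e ∂(pm d a hd ha ha2 k), pc d a hd ha ha2 e = k := by
  unfold pm
  rw [ae_map_iff (meas_pm k).aemeasurable MeasurableSet.of_discrete]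
  apply Eventually.of_forall
  intro m
  exact pc_eqv _

lemma pm_le (k : Fin d) (e₀ : (spo d a hd ha ha2).E) (he : pc d a hd ha ha2 e₀ = k) :
    pm d a hd ha ha2 k {e | e.1 k = e₀.1 k} ≤ (NN d a : ℝ≥0∞)⁻¹ := by
  unfold pm
  rw [Measure.map_apply (meas_pm k) MeasurableSet.of_discrete]
  have hsub : (fun m : Fin (NN d a) => eqv d a hd ha ha2 (k, m)) ⁻¹' {e | e.1 k = e₀.1 k}
      ⊆ {((eqv d a hd ha ha2).symm e₀).2} := by
    intro m hm
    have h1 : eqv d a hd ha ha2 (k, m) = e₀ := eq_of_agree he hm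
    rw [mem_singleton_iff, ← h1, Equiv.symm_apply_apply]
  refine (measure_mono hsub).trans ?_
  rw [PMF.toMeasure_apply_singleton _ _ (MeasurableSet.of_discrete), PMF.uniformOfFintype_apply,
    Fintype.card_fin]

variable (d a hd ha ha2) in
/-- the measure on sequences following the block schedule. -/
noncomputable def muL : Measure (ℕ → (spo d a hd ha ha2).E) :=
  Measure.infinitePi (fun t => pm d a hd ha ha2 (kk d a hd t))

instance : IsProbabilityMeasure (muL d a hd ha ha2) := by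
  unfold muL; infer_instance

lemma mu_ae : ∀ᵐ ω ∂(muL d a hd ha ha2), ∀ t, pc d a hd ha ha2 (ω t) = kk d a hd t := by
  rw [ae_all_iff]
  intro t
  have h1 := measurePreserving_eval_infinitePi (fun t => pm d a hd ha ha2 (kk d a hd t)) t
  exact h1.quasiMeasurePreserving.ae (pm_ae (kk d a hd t))

lemma L_eq_Ld (ω : ℕ → (spo d a hd ha ha2).E) (hω : ∀ t, pc d a hd ha ha2 (ω t) = kk d a hd t)
    (j : Fin d) (n : ℕ) : (spo d a hd ha ha2).L j ω n = Ld d a hd j n := by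
  unfold Sponge.L Ld
  push_cast
  apply Finset.sum_congr rfl
  intro s _
  rw [X_eq, hω]

lemma cell_upper (ω : ℕ → (spo d a hd ha ha2).E)
    (hω : ∀ t, pc d a hd ha ha2 (ω t) = kk d a hd t) (B : ℕ) (F : Finset ℕ)
    (hF : ∀ t ∈ F, Ld d a hd (kk d a hd t) t < B) :
    muL d a hd ha ha2 ((spo d a hd ha ha2).cell B ω) ≤ ((NN d a : ℝ≥0∞)⁻¹) ^ F.card := by
  have hsub : (spo d a hd ha ha2).cell B ω ⊆
      Set.pi F (fun t => {e | e.1 (kk d a hd t) = (ω t).1 (kk d a hd t)}) := by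
    intro ω' hω' t ht
    apply hω' (kk d a hd t) t
    rw [Sponge.lt_stop_iff, L_eq_Ld ω hω]
    exact_mod_cast hF t ht
  refine (measure_mono hsub).trans ?_
  unfold muL
  rw [Measure.infinitePi_pi _ (fun t _ => MeasurableSet.of_discrete)]
  calc ∏ t ∈ F, pm d a hd ha ha2 (kk d a hd t) {e | e.1 (kk d a hd t) = (ω t).1 (kk d a hd t)}
      ≤ ∏ t ∈ F, (NN d a : ℝ≥0∞)⁻¹ := by
        apply Finset.prod_le_prod'
        intro t _
        exact pm_le _ _ (hω t)
    _ = _ := by rw [Finset.prod_const]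

theorem le_HD (s : ℝ≥0)
    (hs : (s : ℝ) = ((d - 1) / 2 : ℕ) * (((a ^ (2 * d) - 1 : ℕ) : ℝ) / (a ^ (2 * d) : ℕ)) *
      (1 - (d : ℝ) / a)) : (s : ℝ≥0∞) ≤ (spo d a hd ha ha2).HD := by
  have ha0 : (0 : ℝ) < a := by
    have : 0 < a := by omega
    exact_mod_cast this
  unfold Sponge.HD Sponge.limitSet
  rw [← image_univ]
  set K := (d - 1) / 2 with hK
  set T := a ^ (2 * d) with hT
  have hT0 : 0 < T := by positivity
  have hT0' : (0 : ℝ) < (T : ℝ) := by exact_mod_cast hT0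
  set G : Set (ℕ → (spo d a hd ha ha2).E) := {ω | ∀ t, pc d a hd ha ha2 (ω t) = kk d a hd t}
    with hG
  have hGμ : muL d a hd ha ha2 (univ ∩ G) ≠ 0 := by
    rw [univ_inter]
    have h1 : muL d a hd ha ha2 Gᶜ = 0 := mu_ae
    intro h0
    have h2 : muL d a hd ha ha2 (univ : Set (ℕ → (spo d a hd ha ha2).E)) ≤ 0 := by
      calc muL d a hd ha ha2 (univ : Set (ℕ → (spo d a hd ha ha2).E))
          = muL d a hd ha ha2 (G ∪ Gᶜ) := by rw [union_compl_self]
        _ ≤ muL d a hd ha ha2 G + muL d a hd ha ha2 Gᶜ := measure_union_le _ _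
        _ = 0 := by rw [h0, h1, add_zero]
    rw [measure_univ] at h2
    exact absurd h2 (by simp)
  apply (spo d a hd ha ha2).le_dimH_code_image (muL d a hd ha ha2) Finset.univ s univ G
    (2 ^ ((T - 1) * K)) T _ hGμ
  intro ω hω B hB
  rw [Sponge.cellI_univ]
  obtain ⟨F, hF1, hF2⟩ := exists_times (a := a) hd ha2 B hB
  refine (cell_upper ω hω B F hF2).trans ?_
  rw [hF1]
  -- numerical comparison
  set n := ⌈(1 - (d : ℝ) / a) * B / (a ^ (2 * d) : ℕ) - 1⌉₊ with hn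
  have h1 : ((NN d a : ℝ≥0∞)⁻¹) ^ (K * n) = ENNReal.ofReal (2 ^ (-(((T - 1 : ℕ) : ℝ) * (K * n)))) := by
    have : (2 : ℝ) ^ (-(((T - 1 : ℕ) : ℝ) * (K * n))) = ((NN d a : ℝ)⁻¹) ^ (K * n) := by
      unfold NN
      rw [Real.rpow_neg (by norm_num), Real.rpow_mul (by norm_num), Real.rpow_natCast, inv_pow]
      push_cast
      rw [← Real.rpow_natCast ((2 : ℝ) ^ (T - 1)) (K * n)]
      push_cast
      rfl
    rw [this, ENNReal.ofReal_pow (by positivity), ENNReal.ofReal_inv_of_pos (by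
      have := NN_pos (d := d) (a := a)
      exact_mod_cast this), ENNReal.ofReal_natCast]
  have h2 : ((2 ^ ((T - 1) * K) : ℝ≥0) : ℝ≥0∞) = ENNReal.ofReal (2 ^ (((T - 1 : ℕ) : ℝ) * K)) := by
    have : (2 : ℝ) ^ (((T - 1 : ℕ) : ℝ) * K) = ((2 ^ ((T - 1) * K) : ℝ≥0) : ℝ) := by
      push_cast
      rw [← Real.rpow_natCast]
      push_cast
      rfl
    rw [this, ENNReal.ofReal_coe_nnreal]
  have h3 : ((2 : ℝ≥0∞)⁻¹ ^ B) ^ (s : ℝ) = ENNReal.ofReal (2 ^ (-((s : ℝ) * B))) := by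
    rw [Sponge.half_pow_eq, ENNReal.ofReal_rpow_of_pos (by positivity),
      ← Real.rpow_mul (by norm_num)]
    congr 2; ring
  rw [h1, h2, h3, ← ENNReal.ofReal_mul (by positivity), ← Real.rpow_add (by norm_num)]
  apply ENNReal.ofReal_le_ofReal
  apply Real.rpow_le_rpow_of_exponent_le (by norm_num)
  have h4 : (1 - (d : ℝ) / a) * B / (T : ℕ) - 1 ≤ n := Nat.le_ceil _
  have h5 : (0 : ℝ) ≤ ((T - 1 : ℕ) : ℝ) := Nat.cast_nonneg _
  have h6 : (0 : ℝ) ≤ (K : ℝ) := Nat.cast_nonneg _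
  have h7 : (s : ℝ) * B = ((T - 1 : ℕ) : ℝ) * (K * ((1 - (d : ℝ) / a) * B / (T : ℕ))) := by
    rw [hs]; field_simp
  rw [h7]
  have h8 : ((T - 1 : ℕ) : ℝ) * (K * ((1 - (d : ℝ) / a) * B / (T : ℕ) - 1))
      ≤ ((T - 1 : ℕ) : ℝ) * (K * n) := by gcongr
  nlinarith

end

end Cyc

end Pool.Agent.FC9311
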