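import Pool.Agent.FC9311.CycUp

/-!
The cyclic sponge: lower bound for the Hausdorff dimension.
-/

namespace Pool.Agent.FC9311

open MeasureTheory Filter Topology Set Metric
open scoped ENNReal NNReal

namespace Cyc

lemma rr_eq (d j m : ℕ) (hj : j < d) (hm : m < d) :
    rr d j m = if m ≤ j then j - m else j + d - m := by
  unfold rr
  split_ifs with h
  · have : j + (d - m) = (j - m) + d := by omega
    rw [this, Nat.add_mod_right, Nat.mod_eq_of_lt (by omega)]
  · rw [Nat.mod_eq_of_lt (by omega)]; omega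

lemma succ_mod_eq (d i : ℕ) (hd : 1 ≤ d) :
    (i + 1) % d = if i % d + 1 < d then i % d + 1 else 0 := by
  have h1 : i % d < d := Nat.mod_lt _ hd
  rw [← Nat.mod_add_mod]
  split_ifs with h
  · exact Nat.mod_eq_of_lt h
  · have : i % d + 1 = d := by omega
    rw [this, Nat.mod_self]

lemma rr_step (d i j : ℕ) (hd : 1 ≤ d) (hj : j < d) :
    rr d j ((i + 1) % d) = if rr d j (i % d) = 0 then d - 1 else rr d j (i % d) - 1 := by
  have h1 : i % d < d := Nat.mod_lt _ hd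
  have h2 : (i + 1) % d < d := Nat.mod_lt _ hd
  have h3 := succ_mod_eq d i hd
  rw [rr_eq d j _ hj h1, rr_eq d j _ hj h2, h3]
  split_ifs <;> omega

/-- the piece used at time `t`. -/
def kk (d a : ℕ) (hd : 1 ≤ d) (t : ℕ) : Fin d := ⟨Nat.log (a ^ 4) t % d, Nat.mod_lt _ hd⟩

/-- deterministic accumulated exponent. -/
def Ld (d a : ℕ) (hd : 1 ≤ d) (j : Fin d) (n : ℕ) : ℕ :=
  ∑ s ∈ Finset.range n, Xn d a j (kk d a hd s)

lemma kk_block {d a : ℕ} (hd : 1 ≤ d) (ha2 : 2 ≤ a) {i t : ℕ} (h1 : (a ^ 4) ^ i ≤ t)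
    (h2 : t < (a ^ 4) ^ (i + 1)) : kk d a hd t = ⟨i % d, Nat.mod_lt _ hd⟩ := by
  have hb : 1 < a ^ 4 := Nat.one_lt_pow (by norm_num) (by omega)
  unfold kk
  congr 2
  exact Nat.log_eq_of_pow_le_of_lt_pow h1 h2

lemma Ld_block {d a : ℕ} (hd : 1 ≤ d) (ha2 : 2 ≤ a) (j : Fin d) {i u : ℕ}
    (h2 : (a ^ 4) ^ i + u ≤ (a ^ 4) ^ (i + 1)) :
    Ld d a hd j ((a ^ 4) ^ i + u) =
      Ld d a hd j ((a ^ 4) ^ i) + u * Xn d a j ⟨i % d, Nat.mod_lt _ hd⟩ := by
  induction u with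
  | zero => simp
  | succ u ih =>
    rw [← add_assoc]
    unfold Ld at ih ⊢
    rw [Finset.sum_range_succ, ih (by omega), kk_block hd ha2 (i := i) (by omega) (by omega)]
    ring

lemma Ld_bound {d a : ℕ} (hd : 1 ≤ d) (ha2 : 2 ≤ a) (j : Fin d) (i : ℕ) :
    Ld d a hd j ((a ^ 4) ^ i) ≤
      (d - rr d j (i % d)) * (a ^ 4) ^ (i + rr d j (i % d) + 1) + a ^ (2 * d) := by
  have hj := j.2
  have hb1 : 1 ≤ a ^ 4 := Nat.one_le_pow _ _ (by omega)
  induction i with
  | zero =>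
    have h0 : Ld d a hd j ((a ^ 4) ^ 0) = Xn d a j ⟨0, hd⟩ := by
      unfold Ld
      rw [pow_zero, Finset.sum_range_one]
      congr 1
      unfold kk
      simp
    rw [h0]
    have h1 : rr d j (0 % d) = j := by
      rw [Nat.zero_mod, rr_eq d j 0 hj hd]; simp
    rw [h1]
    unfold Xn
    split_ifs with h
    · omega
    · have h2 : rr d j ((⟨0, hd⟩ : Fin d) : ℕ) = j := by
        show rr d j 0 = j
        rw [rr_eq d j 0 hj hd]; simp
      rw [h2]
      have h3 : a ^ (4 * (j : ℕ)) ≤ (d - (j : ℕ)) * (a ^ 4) ^ (0 + (j : ℕ) + 1) := by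
        rw [pow_mul]
        calc (a ^ 4) ^ (j : ℕ) ≤ (a ^ 4) ^ (0 + (j : ℕ) + 1) :=
              Nat.pow_le_pow_right hb1 (by omega)
          _ = 1 * (a ^ 4) ^ (0 + (j : ℕ) + 1) := by rw [one_mul]
          _ ≤ _ := Nat.mul_le_mul_right _ (by omega)
      omega
  | succ i ih =>
    have hle : (a ^ 4) ^ i ≤ (a ^ 4) ^ (i + 1) := Nat.pow_le_pow_right hb1 (by omega)
    have h1 := Ld_block hd ha2 j (i := i) (u := (a ^ 4) ^ (i + 1) - (a ^ 4) ^ i) (by omega)
    rw [Nat.add_sub_cancel' hle] at h1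
    rw [h1]
    have hle2 : ((a ^ 4) ^ (i + 1) - (a ^ 4) ^ i) * Xn d a j ⟨i % d, Nat.mod_lt _ hd⟩
        ≤ (a ^ 4) ^ (i + 1) * Xn d a j ⟨i % d, Nat.mod_lt _ hd⟩ :=
      Nat.mul_le_mul_right _ (Nat.sub_le _ _)
    have hstep := rr_step d i j hd hj
    have him : i % d < d := Nat.mod_lt _ hd
    set ρ := rr d j (i % d) with hρ
    have hρd : ρ < d := Nat.mod_lt _ hd
    by_cases h0 : ρ = 0
    · rw [if_pos h0] at hstep
      rw [hstep]
      have hjm : j = ⟨i % d, Nat.mod_lt _ hd⟩ := by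
        by_contra hne
        have := rr_pos hne
        simp only at this
        omega
      have hX : Xn d a j ⟨i % d, Nat.mod_lt _ hd⟩ = a ^ (2 * d) := by
        unfold Xn; rw [if_pos hjm]
      rw [hX] at hle2 ⊢
      rw [h0] at ih
      set T := a ^ (2 * d) with hT
      have hT2 : d + T ≤ (a ^ 4) ^ d := by
        have e1 : (a ^ 4) ^ d = T * T := by
          rw [hT, ← pow_mul, ← pow_add]; congr 1; ring
        have e2 : d < T := by
          calc d < 2 ^ d := Nat.lt_two_pow_self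
            _ ≤ a ^ d := Nat.pow_le_pow_left ha2 d
            _ ≤ a ^ (2 * d) := Nat.pow_le_pow_right (by omega) (by omega)
        rw [e1]
        nlinarith
      have e3 : (d - (d - 1)) * (a ^ 4) ^ (i + 1 + (d - 1) + 1) = (a ^ 4) ^ (i + 1) * (a ^ 4) ^ d := by
        rw [← pow_add]
        have : d - (d - 1) = 1 := by omega
        rw [this, one_mul]
        congr 1; omega
      rw [e3]
      have e4 : (d - 0) * (a ^ 4) ^ (i + 0 + 1) = (a ^ 4) ^ (i + 1) * d := by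
        rw [Nat.sub_zero, add_zero, mul_comm]
      rw [e4] at ih
      have e5 : (a ^ 4) ^ (i + 1) * (d + T) ≤ (a ^ 4) ^ (i + 1) * (a ^ 4) ^ d :=
        Nat.mul_le_mul_left _ hT2
      rw [Nat.mul_add] at e5
      omega
    · rw [if_neg h0] at hstep
      rw [hstep]
      have hjm : j ≠ ⟨i % d, Nat.mod_lt _ hd⟩ := by
        intro he
        apply h0
        rw [hρ, rr_eq d j _ hj him]
        have : (j : ℕ) = i % d := by rw [he]
        rw [if_pos (by omega)]; omega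
      have hX : Xn d a j ⟨i % d, Nat.mod_lt _ hd⟩ = (a ^ 4) ^ ρ := by
        unfold Xn; rw [if_neg hjm, pow_mul]
      rw [hX] at hle2 ⊢
      have e1 : (d - (ρ - 1)) * (a ^ 4) ^ (i + 1 + (ρ - 1) + 1)
          = (d - ρ) * (a ^ 4) ^ (i + ρ + 1) + (a ^ 4) ^ (i + ρ + 1) := by
        have : d - (ρ - 1) = (d - ρ) + 1 := by omega
        have h3 : i + 1 + (ρ - 1) + 1 = i + ρ + 1 := by omega
        rw [this, h3]; ring
      rw [e1]
      have e2 : (a ^ 4) ^ (i + 1) * (a ^ 4) ^ ρ = (a ^ 4) ^ (i + ρ + 1) := by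
        rw [← pow_add]; congr 1; omega
      rw [e2] at hle2
      omega

end Cyc

end Pool.Agent.FC9311
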