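import Pool.Agent.FC9311.CycLow

/-!
The cyclic sponge: lower bound for the Hausdorff dimension, counting.
-/

namespace Pool.Agent.FC9311

open MeasureTheory Filter Topology Set Metric
open scoped ENNReal NNReal

namespace Cyc

lemma rr_self {d : ℕ} {m : ℕ} (hm : m < d) : rr d m m = 0 := by
  rw [rr_eq d m m hm hm]; simp

lemma exists_times {d a : ℕ} (hd : 1 ≤ d) (ha2 : 2 ≤ a) (B : ℕ) (hB : a ^ (2 * d) ≤ B) :
    ∃ F : Finset ℕ,
      F.card = ((d - 1) / 2) * ⌈(1 - (d : ℝ) / a) * B / (a ^ (2 * d) : ℕ) - 1⌉₊ ∧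
      ∀ t ∈ F, Ld d a hd (kk d a hd t) t < B := by
  classical
  have ha0 : (0 : ℝ) < a := by
    have : 0 < a := by omega
    exact_mod_cast this
  have hb1 : 1 ≤ a ^ 4 := Nat.one_le_pow _ _ (by omega)
  have hb : 1 < a ^ 4 := Nat.one_lt_pow (by norm_num) (by omega)
  set T := a ^ (2 * d) with hT
  have hT0 : 0 < T := by positivity
  have hT0' : (0 : ℝ) < (T : ℝ) := by exact_mod_cast hT0
  have hBR : (0 : ℝ) ≤ B := Nat.cast_nonneg B
  have hex : ∃ m, a * B ≤ T * (a ^ 4) ^ m := by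
    refine ⟨a * B, ?_⟩
    calc a * B ≤ (a ^ 4) ^ (a * B) := (Nat.lt_pow_self hb).le
      _ ≤ T * (a ^ 4) ^ (a * B) := Nat.le_mul_of_pos_left _ hT0
  set m₀ := Nat.find hex with hm₀
  have hm₀s := Nat.find_spec hex
  have hm₀pos : 1 ≤ m₀ := by
    by_contra hcon
    have h0 : m₀ = 0 := by omega
    rw [← hm₀, h0, pow_zero, mul_one] at hm₀s
    have : 2 * T ≤ a * B := Nat.mul_le_mul ha2 hB
    omega
  have hmin : T * (a ^ 4) ^ (m₀ - 1) < a * B := by
    have := Nat.find_min hex (m := m₀ - 1) (by omega)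
    omega
  set n := ⌈(1 - (d : ℝ) / a) * B / (T : ℕ) - 1⌉₊ with hn
  -- T * n ≤ B
  have hTn : T * n ≤ B := by
    rcases Nat.eq_zero_or_pos n with h | h
    · rw [h]; simp
    · have hy : 0 < (1 - (d : ℝ) / a) * B / (T : ℕ) - 1 := Nat.ceil_pos.1 h
      have h1 := Nat.ceil_lt_add_one hy.le
      rw [← hn] at h1
      have h2 : (n : ℝ) < (1 - (d : ℝ) / a) * B / (T : ℕ) := by linarith
      have h3 : (1 - (d : ℝ) / a) * B / (T : ℕ) ≤ B / T := by
        apply div_le_div_of_nonneg_right _ hT0'.le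
        have : 0 ≤ (d : ℝ) / a := by positivity
        nlinarith
      have h4 : (n : ℝ) * T < B := by
        have := h2.trans_le h3
        rwa [lt_div_iff₀ hT0'] at this
      have h5 : ((T * n : ℕ) : ℝ) ≤ B := by push_cast; linarith
      exact_mod_cast h5
  have hblock : ∀ l, n ≤ (a ^ 4) ^ (m₀ + l - 1 + 1) - (a ^ 4) ^ (m₀ + l - 1) := by
    intro l
    have h1 : a * B ≤ T * (a ^ 4) ^ (m₀ + l) :=
      hm₀s.trans (Nat.mul_le_mul_left _ (Nat.pow_le_pow_right hb1 (by omega)))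
    have h2 : T * (a * n) ≤ T * (a ^ 4) ^ (m₀ + l) := by
      calc T * (a * n) = a * (T * n) := by ring
        _ ≤ a * B := Nat.mul_le_mul_left _ hTn
        _ ≤ _ := h1
    have h3 : a * n ≤ (a ^ 4) ^ (m₀ + l) := Nat.le_of_mul_le_mul_left h2 hT0
    have h4 : m₀ + l - 1 + 1 = m₀ + l := by omega
    rw [h4]
    obtain ⟨i, hi⟩ : ∃ i, m₀ + l = i + 1 := ⟨m₀ + l - 1, by omega⟩
    rw [hi] at h3 ⊢
    rw [Nat.add_sub_cancel]
    set p := (a ^ 4) ^ i with hp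
    have hp0 : 0 < p := by positivity
    have h5 : (a ^ 4) ^ (i + 1) = p * a ^ 4 := by rw [pow_succ]
    rw [h5] at h3 ⊢
    have h6 : a * n ≤ a * (p * a ^ 3) := by
      calc a * n ≤ p * a ^ 4 := h3
        _ = a * (p * a ^ 3) := by ring
    have h7 : n ≤ p * a ^ 3 := Nat.le_of_mul_le_mul_left h6 (by omega)
    have h8 : p * a ^ 3 + p ≤ p * a ^ 4 := by
      have : a ^ 3 + 1 ≤ a ^ 4 := by
        have h9 : 1 ≤ a ^ 3 := Nat.one_le_pow _ _ (by omega)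
        calc a ^ 3 + 1 ≤ a ^ 3 * 2 := by omega
          _ ≤ a ^ 3 * a := Nat.mul_le_mul_left _ ha2
          _ = a ^ 4 := by ring
      calc p * a ^ 3 + p = p * (a ^ 3 + 1) := by ring
        _ ≤ _ := Nat.mul_le_mul_left _ this
    omega
  refine ⟨(Finset.range ((d - 1) / 2) ×ˢ Finset.range n).image
    (fun p => (a ^ 4) ^ (m₀ + p.1 - 1) + p.2), ?_, ?_⟩
  · rw [Finset.card_image_of_injOn, Finset.card_product, Finset.card_range, Finset.card_range]
    rintro ⟨l, u⟩ hlu ⟨l', u'⟩ hlu' heq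
    simp only [Finset.coe_product, Finset.coe_range, mem_prod, mem_Iio] at hlu hlu'
    simp only at heq
    have h1 := hblock l
    have h2 := hblock l'
    have hp1 : (a ^ 4) ^ (m₀ + l - 1) ≤ (a ^ 4) ^ (m₀ + l - 1 + 1) :=
      Nat.pow_le_pow_right hb1 (by omega)
    have hp2 : (a ^ 4) ^ (m₀ + l' - 1) ≤ (a ^ 4) ^ (m₀ + l' - 1 + 1) :=
      Nat.pow_le_pow_right hb1 (by omega)
    have e1 : Nat.log (a ^ 4) ((a ^ 4) ^ (m₀ + l - 1) + u) = m₀ + l - 1 :=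
      Nat.log_eq_of_pow_le_of_lt_pow (by omega) (by omega)
    have e2 : Nat.log (a ^ 4) ((a ^ 4) ^ (m₀ + l' - 1) + u') = m₀ + l' - 1 :=
      Nat.log_eq_of_pow_le_of_lt_pow (by omega) (by omega)
    rw [heq, e2] at e1
    have h3 : l = l' := by omega
    subst h3
    have h4 : u = u' := by omega
    rw [h4]
  · intro t ht
    rw [Finset.mem_image] at ht
    obtain ⟨⟨l, u⟩, hlu, rfl⟩ := ht
    rw [Finset.mem_product, Finset.mem_range, Finset.mem_range] at hlu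
    obtain ⟨hl, hu⟩ := hlu
    simp only at hl hu ⊢
    have h1 := hblock l
    set i := m₀ + l - 1 with hi
    have hp1 : (a ^ 4) ^ i ≤ (a ^ 4) ^ (i + 1) := Nat.pow_le_pow_right hb1 (by omega)
    rw [kk_block hd ha2 (i := i) (by omega) (by omega),
      Ld_block hd ha2 _ (by omega)]
    have h2 := Ld_bound hd ha2 (⟨i % d, Nat.mod_lt _ hd⟩ : Fin d) i
    simp only at h2
    rw [rr_self (Nat.mod_lt i hd)] at h2
    have hX : Xn d a ⟨i % d, Nat.mod_lt _ hd⟩ ⟨i % d, Nat.mod_lt _ hd⟩ = T := by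
      unfold Xn; rw [if_pos rfl]
    rw [hX]
    -- a * b^(i+1) ≤ B
    have h3 : a * (a ^ 4) ^ (i + 1) ≤ B := by
      have h4 : a * (a * (a ^ 4) ^ (i + 1)) ≤ a * B := by
        refine le_trans ?_ hmin.le
        have h5 : i + 1 = m₀ + l := by omega
        rw [h5, hT, ← pow_mul, ← pow_mul, ← pow_add]
        calc a * (a * a ^ (4 * (m₀ + l))) = a ^ (4 * (m₀ + l) + 2) := by ring
          _ ≤ a ^ (2 * d + 4 * (m₀ - 1)) := Nat.pow_le_pow_right (by omega) (by omega)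
      exact Nat.le_of_mul_le_mul_left h4 (by omega)
    have h4 : (u : ℝ) < (1 - (d : ℝ) / a) * B / (T : ℕ) - 1 := Nat.lt_ceil.1 hu
    have h5 : ((u : ℝ) + 1) * T < (1 - (d : ℝ) / a) * B := by
      have : (u : ℝ) + 1 < (1 - (d : ℝ) / a) * B / (T : ℕ) := by linarith
      rwa [lt_div_iff₀ hT0'] at this
    have h6 : (d : ℝ) * ((a ^ 4 : ℕ) : ℝ) ^ (i + 1) ≤ (d : ℝ) / a * B := by
      have h7 : (a : ℝ) * ((a ^ 4 : ℕ) : ℝ) ^ (i + 1) ≤ B := by exact_mod_cast h3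
      rw [div_mul_eq_mul_div, le_div_iff₀ ha0]
      have hd0 : (0 : ℝ) ≤ d := Nat.cast_nonneg d
      nlinarith
    have h7 : ((Ld d a hd ⟨i % d, Nat.mod_lt _ hd⟩ ((a ^ 4) ^ i) : ℕ) : ℝ)
        ≤ d * ((a ^ 4 : ℕ) : ℝ) ^ (i + 1) + T := by
      have h8 : Ld d a hd ⟨i % d, Nat.mod_lt _ hd⟩ ((a ^ 4) ^ i) ≤ d * (a ^ 4) ^ (i + 1) + T := by
        refine h2.trans ?_
        rw [Nat.sub_zero, add_zero]
      exact_mod_cast h8
    have h8 : ((Ld d a hd ⟨i % d, Nat.mod_lt _ hd⟩ ((a ^ 4) ^ i) + u * T : ℕ) : ℝ) < B := by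
      push_cast at h6 h7 ⊢
      nlinarith
    exact_mod_cast h8

end Cyc

end Pool.Agent.FC9311
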