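import Pool.Agent.FC9311.Cyc

/-!
The cyclic sponge: upper bound for the dynamical dimension.
-/

namespace Pool.Agent.FC9311

open MeasureTheory Filter Topology Set Metric
open scoped ENNReal NNReal

namespace Cyc

lemma static_lemma {d : ℕ} (X : Fin d → Fin d → ℝ) (hX : ∀ j k, 0 < X j k)
    (hrec : ∀ j k, X j k * X k j = X j j * X k k) (q : Fin d → ℝ) (hq : ∀ j, 0 ≤ q j)
    (hχ : ∀ j, 0 < ∑ k, X j k * q k) : ∑ j, X j j * q j / (∑ k, X j k * q k) ≤ 1 := by
  set χ : Fin d → ℝ := fun j => ∑ k, X j k * q k with hχd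
  set F : Fin d → ℝ := fun j => X j j * q j / χ j with hF
  set s : ℝ := ∑ j, F j with hs
  show s ≤ 1
  have h1 : s = ∑ j, ∑ k, F j * (X j k * q k) / χ j := by
    rw [hs]
    apply Finset.sum_congr rfl
    intro j _
    rw [← Finset.sum_div, ← Finset.mul_sum]
    rw [mul_div_assoc, div_self (hχ j).ne', mul_one]
  have h2 : s = ∑ j, ∑ k, F k * (X k j * q j) / χ k := by
    rw [h1, Finset.sum_comm]
  have h3 : s * s = ∑ j, ∑ k, F j * F k := by
    rw [hs, Finset.sum_mul_sum]
  have h4 : ∀ j k, 2 * (F j * F k) ≤ F j * (X j k * q k) / χ j + F k * (X k j * q j) / χ k := by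
    intro j k
    simp only [hF]
    have hu : 0 < (χ j)⁻¹ := inv_pos.2 (hχ j)
    have hv : 0 < (χ k)⁻¹ := inv_pos.2 (hχ k)
    set u := (χ j)⁻¹
    set v := (χ k)⁻¹
    have e1 : 2 * (X j j * q j / χ j * (X k k * q k / χ k))
        = q j * q k * (2 * (X j j * X k k) * u * v) := by
      simp only [div_eq_mul_inv, u, v]; ring
    have e2 : X j j * q j / χ j * (X j k * q k) / χ j + X k k * q k / χ k * (X k j * q j) / χ k
        = q j * q k * ((X j j * X j k) * u ^ 2 + (X k k * X k j) * v ^ 2) := by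
      simp only [div_eq_mul_inv, u, v]; ring
    rw [e1, e2]
    apply mul_le_mul_of_nonneg_left _ (mul_nonneg (hq j) (hq k))
    have hα : 0 < X j j * X j k := mul_pos (hX _ _) (hX _ _)
    have hαβ : (X j j * X j k) * (X k k * X k j) = (X j j * X k k) ^ 2 := by
      have := hrec j k
      calc (X j j * X j k) * (X k k * X k j) = (X j j * X k k) * (X j k * X k j) := by ring
        _ = _ := by rw [this]; ring
    have h5 : 0 ≤ (X j j * X j k) *
        ((X j j * X j k) * u ^ 2 + (X k k * X k j) * v ^ 2 - 2 * (X j j * X k k) * u * v) := by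
      have : (X j j * X j k) *
        ((X j j * X j k) * u ^ 2 + (X k k * X k j) * v ^ 2 - 2 * (X j j * X k k) * u * v)
        = ((X j j * X j k) * u - (X j j * X k k) * v) ^ 2 := by
        have : (X j j * X j k) *
          ((X j j * X j k) * u ^ 2 + (X k k * X k j) * v ^ 2 - 2 * (X j j * X k k) * u * v)
          = (X j j * X j k) ^ 2 * u ^ 2 + ((X j j * X j k) * (X k k * X k j)) * v ^ 2
            - 2 * (X j j * X j k) * (X j j * X k k) * u * v := by ring
        rw [this, hαβ]; ring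
      rw [this]; positivity
    have h6 := nonneg_of_mul_nonneg_right h5 hα
    linarith
  have h5 : 2 * (s * s) ≤ s + s := by
    rw [h3]
    nth_rewrite 1 [h1]
    rw [h2, Finset.mul_sum, ← Finset.sum_add_distrib]
    apply Finset.sum_le_sum
    intro j _
    rw [Finset.mul_sum, ← Finset.sum_add_distrib]
    apply Finset.sum_le_sum
    intro k _
    exact h4 j k
  nlinarith

section

variable (d a : ℕ) (hd : 1 ≤ d) (ha : 2 * d ≤ a) (ha2 : 2 ≤ a)

/-- symbols are pairs (piece, digit). -/
noncomputable def eqv : Fin d × Fin (NN d a) ≃ (spo d a hd ha ha2).E :=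
  Equiv.ofInjective (emb d a) (emb_injective d a)

/-- the piece of a symbol. -/
noncomputable def pc (e : (spo d a hd ha ha2).E) : Fin d := ((eqv d a hd ha ha2).symm e).1

variable {d a hd ha ha2}

lemma eqv_val (p : Fin d × Fin (NN d a)) : (eqv d a hd ha ha2 p).1 = emb d a p := rfl

lemma pc_eqv (p : Fin d × Fin (NN d a)) : pc d a hd ha ha2 (eqv d a hd ha ha2 p) = p.1 := by
  unfold pc; rw [Equiv.symm_apply_apply]

lemma X_eq (j : Fin d) (e : (spo d a hd ha ha2).E) :
    (spo d a hd ha ha2).X j (e.1 j) = Xn d a j (pc d a hd ha ha2 e) := by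
  obtain ⟨p, rfl⟩ := (eqv d a hd ha ha2).surjective e
  rw [pc_eqv, eqv_val]
  have hlog : ∀ n : ℕ, - Real.logb 2 |(1 / 2 : ℝ) ^ n| = n := by
    intro n
    rw [abs_of_pos (by positivity), ← Real.rpow_natCast, Real.logb_rpow_eq_mul_logb_of_pos
      (by norm_num), one_div, Real.logb_inv, Real.logb_self_eq_one (by norm_num)]
    ring
  unfold Sponge.X
  show - Real.logb 2 |len d a j (emb d a p j)| = _
  unfold emb
  split_ifs with h
  · simp only [len]
    rw [hlog, h]
    simp [Xn]
  · simp only [len]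
    rw [hlog]

lemma agree {j : Fin d} {e e' : (spo d a hd ha ha2).E}
    (h : pc d a hd ha ha2 e = pc d a hd ha ha2 e') (hj : j ≠ pc d a hd ha ha2 e) :
    e.1 j = e'.1 j := by
  obtain ⟨p, rfl⟩ := (eqv d a hd ha ha2).surjective e
  obtain ⟨p', rfl⟩ := (eqv d a hd ha ha2).surjective e'
  rw [pc_eqv] at h hj
  rw [pc_eqv] at h
  rw [eqv_val, eqv_val]
  simp only [emb]
  rw [if_neg hj, if_neg (by rw [← h]; exact hj), h]

lemma eq_of_agree {j : Fin d} {e e' : (spo d a hd ha ha2).E}
    (hj : pc d a hd ha ha2 e = j) (h : e'.1 j = e.1 j) : e' = e := by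
  obtain ⟨p, rfl⟩ := (eqv d a hd ha ha2).surjective e
  obtain ⟨p', rfl⟩ := (eqv d a hd ha ha2).surjective e'
  rw [pc_eqv] at hj
  rw [eqv_val, eqv_val] at h
  simp only [emb] at h
  rw [if_pos hj.symm] at h
  split_ifs at h with h1
  have h2 := Sum.inl_injective h
  have : p' = p := Prod.ext (by rw [← h1, hj]) h2
  rw [this]

/-- number of times `< n` at which the piece is `k`. -/
noncomputable def Q (k : Fin d) (ω : ℕ → (spo d a hd ha ha2).E) (n : ℕ) : ℕ :=
  ((Finset.range n).filter (fun t => pc d a hd ha ha2 (ω t) = k)).card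

lemma L_eq (j : Fin d) (ω : ℕ → (spo d a hd ha ha2).E) (n : ℕ) :
    (spo d a hd ha ha2).L j ω n = ∑ k, (Xn d a j k : ℝ) * Q k ω n := by
  unfold Sponge.L Q
  simp only [X_eq]
  have h1 : ∀ k : Fin d, (Xn d a j k : ℝ) *
      ((Finset.range n).filter (fun t => pc d a hd ha ha2 (ω t) = k)).card
      = ∑ t ∈ Finset.range n, if pc d a hd ha ha2 (ω t) = k then (Xn d a j k : ℝ) else 0 := by
    intro k
    rw [Finset.sum_ite, Finset.sum_const, Finset.sum_const_zero, add_zero, nsmul_eq_mul, mul_comm]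
  simp only [h1]
  rw [Finset.sum_comm]
  apply Finset.sum_congr rfl
  intro t _
  rw [Finset.sum_ite_eq]
  simp

noncomputable instance : Fintype (spo d a hd ha ha2).E :=
  Fintype.ofEquiv _ (eqv d a hd ha ha2)

lemma card_E : Fintype.card (spo d a hd ha ha2).E = d * NN d a := by
  rw [← Fintype.card_congr (eqv d a hd ha ha2)]; simp

variable (d a hd ha ha2) in
/-- the uniform measure on the alphabet. -/
noncomputable def unif : Measure (spo d a hd ha ha2).E :=
  (PMF.uniformOfFintype (spo d a hd ha ha2).E).toMeasure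

instance : IsProbabilityMeasure (unif d a hd ha ha2) := by
  unfold unif; infer_instance

lemma unif_singleton (e : (spo d a hd ha ha2).E) :
    unif d a hd ha ha2 {e} = (d : ℝ≥0∞)⁻¹ * (NN d a : ℝ≥0∞)⁻¹ := by
  unfold unif
  rw [PMF.toMeasure_apply_singleton _ _ (MeasurableSet.of_discrete), PMF.uniformOfFintype_apply, card_E]
  push_cast
  rw [ENNReal.mul_inv (Or.inr (ENNReal.natCast_ne_top _)) (Or.inl (ENNReal.natCast_ne_top _))]

lemma NN_pos : 0 < NN d a := by unfold NN; positivity

lemma unif_piece (k : Fin d) :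
    unif d a hd ha ha2 {e | pc d a hd ha ha2 e = k} = (d : ℝ≥0∞)⁻¹ := by
  classical
  unfold unif
  rw [PMF.toMeasure_uniformOfFintype_apply _ (MeasurableSet.of_discrete), card_E]
  have h1 : Fintype.card ({e | pc d a hd ha ha2 e = k} : Set (spo d a hd ha ha2).E) = NN d a := by
    have e1 : Fin (NN d a) ≃ ({e | pc d a hd ha ha2 e = k} : Set (spo d a hd ha ha2).E) :=
      { toFun := fun m => ⟨eqv d a hd ha ha2 (k, m), pc_eqv _⟩
        invFun := fun e => ((eqv d a hd ha ha2).symm e.1).2
        left_inv := fun m => by simp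
        right_inv := fun e => by
          apply Subtype.ext
          have h2 : ((eqv d a hd ha ha2).symm e.1).1 = k := e.2
          have h3 : (k, ((eqv d a hd ha ha2).symm e.1).2) = (eqv d a hd ha ha2).symm e.1 :=
            Prod.ext h2.symm rfl
          show eqv d a hd ha ha2 (k, ((eqv d a hd ha ha2).symm e.1).2) = e.1
          rw [h3, Equiv.apply_symm_apply] }
    rw [← Fintype.card_congr e1]; simp
  rw [h1]
  push_cast
  have hN : (NN d a : ℝ≥0∞) ≠ 0 := by
    have := NN_pos (d := d) (a := a)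
    exact_mod_cast this.ne'
  rw [mul_comm, div_eq_mul_inv, ENNReal.mul_inv (Or.inl hN) (Or.inl (ENNReal.natCast_ne_top _)),
    ← mul_assoc, ENNReal.mul_inv_cancel hN (ENNReal.natCast_ne_top _), one_mul]

variable (d a hd ha ha2) in
/-- the uniform Bernoulli measure. -/
noncomputable def rho : Measure (ℕ → (spo d a hd ha ha2).E) :=
  Measure.infinitePi (fun _ => unif d a hd ha ha2)

instance : IsProbabilityMeasure (rho d a hd ha ha2) := by
  unfold rho; infer_instance

lemma cell_lower (ω : ℕ → (spo d a hd ha ha2).E) (B : ℝ) (τ : Fin d → ℕ)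
    (hτ : ∀ j, (spo d a hd ha ha2).stop j B ω ≤ τ j) (M : ℕ) (hM : ∀ j, τ j ≤ M) :
    ((d : ℝ≥0∞)⁻¹) ^ M * ((NN d a : ℝ≥0∞)⁻¹) ^ (∑ j, Q j ω (τ j))
      ≤ rho d a hd ha ha2 ((spo d a hd ha ha2).cell B ω) := by
  classical
  set T : ℕ → Set (spo d a hd ha ha2).E := fun t =>
    if t < τ (pc d a hd ha ha2 (ω t)) then {ω t} else {e | pc d a hd ha ha2 e
      = pc d a hd ha ha2 (ω t)} with hT
  have hsub : Set.pi (Finset.range M) T ⊆ (spo d a hd ha ha2).cell B ω := by
    intro ω' hω' j t ht
    have ht2 : t < τ j := lt_of_lt_of_le ht (hτ j)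
    have h1 := hω' t (by rw [Finset.mem_coe, Finset.mem_range]; exact ht2.trans_le (hM j))
    simp only [hT] at h1
    split_ifs at h1 with h2
    · rw [mem_singleton_iff.1 h1]
    · have h3 : pc d a hd ha ha2 (ω' t) = pc d a hd ha ha2 (ω t) := h1
      apply agree h3
      intro h4
      apply h2
      rw [← h3, ← h4]
      exact ht2
  refine le_trans (le_of_eq ?_) (measure_mono hsub)
  unfold rho
  rw [Measure.infinitePi_pi (fun _ => unif d a hd ha ha2) (fun t _ => MeasurableSet.of_discrete)]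
  have hterm : ∀ t, unif d a hd ha ha2 (T t) = (d : ℝ≥0∞)⁻¹ *
      (if t < τ (pc d a hd ha ha2 (ω t)) then (NN d a : ℝ≥0∞)⁻¹ else 1) := by
    intro t
    simp only [hT]
    split_ifs with h
    · rw [unif_singleton]
    · rw [unif_piece, mul_one]
  simp only [hterm]
  rw [Finset.prod_mul_distrib, Finset.prod_const, Finset.card_range, Finset.prod_ite,
    Finset.prod_const_one, mul_one, Finset.prod_const]
  congr 2
  rw [Finset.card_eq_sum_card_fiberwise (f := fun t => pc d a hd ha ha2 (ω t)) (t := Finset.univ)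
    (fun _ _ => by simp)]
  apply Finset.sum_congr rfl
  intro j _
  unfold Q
  congr 1
  ext t
  simp only [Finset.mem_filter, Finset.mem_range]
  constructor
  · rintro ⟨h1, h2⟩
    refine ⟨⟨h1.trans_le (hM j), by rw [h2]; exact h1⟩, h2⟩
  · rintro ⟨⟨h1, h2⟩, h3⟩
    rw [h3] at h2
    exact ⟨h2, h3⟩

end

end Cyc

end Pool.Agent.FC9311
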