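import Mathlib

/-!
# Self-affine sponges, Hausdorff and dynamical dimension: definitions
-/

namespace Pool.Agent.FC9311

open MeasureTheory Filter Topology Set
open scoped ENNReal

/-- Data of a Baranski sponge in `[0,1]^d`: for every coordinate `i` a finite family
`x ↦ r i a * x + t i a`, `a ∈ A i`, of contracting similarities of `[0,1]` (negative ratios, i.e.
reflections, are allowed) such that the images of the open interval `(0,1)` are pairwise disjoint,
and a nonempty set `E ⊆ ∏ i, A i`. -/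
structure Sponge (d : ℕ) where
  A : Fin d → Type
  finite_A : ∀ i, Finite (A i)
  r : ∀ i, A i → ℝ
  t : ∀ i, A i → ℝ
  r_ne : ∀ i a, r i a ≠ 0
  r_lt : ∀ i a, |r i a| < 1
  maps : ∀ i a, ∀ x ∈ Icc (0 : ℝ) 1, r i a * x + t i a ∈ Icc (0 : ℝ) 1
  disj : ∀ i, ∀ a b : A i, a ≠ b →
    Disjoint ((fun x => r i a * x + t i a) '' Ioo (0 : ℝ) 1)
      ((fun x => r i b * x + t i b) '' Ioo (0 : ℝ) 1)
  E : Set (∀ i, A i)
  nonempty_E : E.Nonempty

namespace Sponge

variable {d : ℕ} (S : Sponge d)

/-- The affine map `φ_a (x) = (φ_{i, a i} (x i))_i` of `ℝ^d` belonging to a symbol `a ∈ E`. -/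
def phi (a : S.E) (x : Fin d → ℝ) : Fin d → ℝ := fun i => S.r i (a.1 i) * x i + S.t i (a.1 i)

/-- `comp ω n = φ_{ω 0} ∘ φ_{ω 1} ∘ ... ∘ φ_{ω (n-1)}`. -/
def comp (ω : ℕ → S.E) : ℕ → (Fin d → ℝ) → (Fin d → ℝ)
  | 0 => id
  | n + 1 => comp ω n ∘ S.phi (ω n)

/-- The coding map `π(ω) = lim_n φ_{ω 0} ∘ ... ∘ φ_{ω (n-1)} (0)`. -/
noncomputable def code (ω : ℕ → S.E) : Fin d → ℝ := limUnder atTop fun n => S.comp ω n 0

/-- The limit set `Λ = π(E^ℕ)`. -/
def limitSet : Set (Fin d → ℝ) := range S.code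

/-- The discrete topology on the alphabet `E`. -/
instance : TopologicalSpace S.E := ⊥

/-- The discrete σ-algebra on the alphabet `E`; `ℕ → E` carries the product σ-algebra. -/
instance : MeasurableSpace S.E := ⊤

/-- `HD(Φ)`, the Hausdorff dimension of the limit set (in `ℝ^d` with the maximum metric, which is
bi-Lipschitz equivalent to the Euclidean one). -/
noncomputable def HD : ℝ≥0∞ := dimH S.limitSet

/-- The left shift on sequences. -/
def shift {X : Type*} (ω : ℕ → X) : ℕ → X := fun n => ω (n + 1)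

/-- The Hausdorff dimension of a measure `ν`: the infimum of `dimH S` over sets `S` whose
complement is `ν`-null. -/
noncomputable def measureDim {X : Type*} [EMetricSpace X] [MeasurableSpace X] [BorelSpace X]
    (ν : Measure X) : ℝ≥0∞ := ⨅ (s : Set X) (_ : ν sᶜ = 0), dimH s

/-- The dynamical dimension: the supremum of `HD(π_* μ)` over the ergodic shift-invariant Borel
probability measures `μ` on `E^ℕ`. -/
noncomputable def DynD : ℝ≥0∞ :=
  ⨆ (μ : Measure (ℕ → S.E)) (_ : IsProbabilityMeasure μ) (_ : Ergodic shift μ),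
    measureDim (μ.map S.code)

end Sponge

/-- The relative maximal dimension gap in dimension `d`: the supremum of `(HD - DynD) / DynD` over
all Baranski sponges in `[0,1]^d` with at least two symbols. -/
noncomputable def MDG (d : ℕ) : ℝ≥0∞ :=
  ⨆ (S : Sponge d) (_ : S.E.Nontrivial), (S.HD - S.DynD) / S.DynD

end Pool.Agent.FC9311
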