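import Pool.Agent.FC9311.CycHD
import Pool.Agent.FC9311.CycDyn

/-!
Lower bound for the relative maximal dimension gap.
-/

namespace Pool.Agent.FC9311

open MeasureTheory Filter Topology Set Metric
open scoped ENNReal NNReal

namespace Cyc

lemma gap_ge (d a : ℕ) (hd : 3 ≤ d) (ha : 2 * d ≤ a) :
    ENNReal.ofReal (((((d - 1) / 2 : ℕ) * (((a ^ (2 * d) - 1 : ℕ) : ℝ) / (a ^ (2 * d) : ℕ)) *
      (1 - (d : ℝ) / a)) - (1 + Real.logb 2 d / a)) / (1 + Real.logb 2 d / a)) ≤ MDG d := by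
  have hd1 : 1 ≤ d := by omega
  have ha2 : 2 ≤ a := by omega
  have ha0 : (0 : ℝ) < a := by
    have : 0 < a := by omega
    exact_mod_cast this
  have hlog : 0 ≤ Real.logb 2 d := Real.logb_nonneg (by norm_num) (by exact_mod_cast hd1)
  have hpos : 0 < 1 + Real.logb 2 d / a := by positivity
  set S := spo d a hd1 ha ha2 with hS
  have hnt : S.E.Nontrivial := by
    refine ⟨emb d a (⟨0, by omega⟩, ⟨0, NN_pos⟩), mem_range_self _,
      emb d a (⟨1, by omega⟩, ⟨0, NN_pos⟩), mem_range_self _, ?_⟩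
    intro h
    have := emb_injective d a h
    simp at this
  have h1 : (S.HD - S.DynD) / S.DynD ≤ MDG d := by
    unfold MDG
    exact le_iSup₂_of_le S hnt le_rfl
  refine le_trans ?_ h1
  set D : ℝ := 1 + Real.logb 2 d / a with hD
  set s : ℝ := ((d - 1) / 2 : ℕ) * (((a ^ (2 * d) - 1 : ℕ) : ℝ) / (a ^ (2 * d) : ℕ)) *
      (1 - (d : ℝ) / a) with hs
  have hs0 : 0 ≤ s := by
    apply mul_nonneg (by positivity)
    rw [sub_nonneg, div_le_one ha0]
    exact_mod_cast (by omega : d ≤ a)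
  have hDyn : S.DynD ≤ ENNReal.ofReal D := DynD_le
  have hHD : ENNReal.ofReal s ≤ S.HD := le_HD s.toNNReal (Real.coe_toNNReal _ hs0)
  rw [ENNReal.ofReal_div_of_pos hpos, ENNReal.ofReal_sub _ hpos.le]
  exact ENNReal.div_le_div (tsub_le_tsub hHD hDyn) hDyn

theorem MDG_ge (d : ℕ) (hd : 3 ≤ d) : (((d - 1) / 2 - 1 : ℕ) : ℝ≥0∞) ≤ MDG d := by
  have hK : 1 ≤ (d - 1) / 2 := by omega
  have h1 : Tendsto (fun a : ℕ => ((a : ℝ))⁻¹) atTop (𝓝 0) := tendsto_inv_atTop_nhds_zero_nat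
  have h2 : Tendsto (fun a : ℕ => 1 + Real.logb 2 d / a) atTop (𝓝 1) := by
    have : Tendsto (fun a : ℕ => 1 + Real.logb 2 d * (a : ℝ)⁻¹) atTop
        (𝓝 (1 + Real.logb 2 d * 0)) := tendsto_const_nhds.add (h1.const_mul _)
    simpa [div_eq_mul_inv] using this
  have h3 : Tendsto (fun a : ℕ => 1 - (d : ℝ) / a) atTop (𝓝 1) := by
    have : Tendsto (fun a : ℕ => 1 - (d : ℝ) * (a : ℝ)⁻¹) atTop
        (𝓝 (1 - (d : ℝ) * 0)) := tendsto_const_nhds.sub (h1.const_mul _)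
    simpa [div_eq_mul_inv] using this
  have h4 : Tendsto (fun a : ℕ => ((a ^ (2 * d) - 1 : ℕ) : ℝ) / (a ^ (2 * d) : ℕ)) atTop (𝓝 1) := by
    have h5 : Tendsto (fun a : ℕ => a ^ (2 * d)) atTop atTop :=
      tendsto_pow_atTop (by omega)
    have h6 : Tendsto (fun a : ℕ => 1 - ((a ^ (2 * d) : ℕ) : ℝ)⁻¹) atTop (𝓝 (1 - 0)) :=
      tendsto_const_nhds.sub ((tendsto_inv_atTop_nhds_zero_nat (𝕜 := ℝ)).comp h5)
    rw [sub_zero] at h6
    refine h6.congr' ?_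
    filter_upwards [eventually_ge_atTop 1] with a ha
    have h7 : 1 ≤ a ^ (2 * d) := Nat.one_le_pow _ _ ha
    rw [Nat.cast_sub h7]
    have h8 : ((a ^ (2 * d) : ℕ) : ℝ) ≠ 0 := by
      have : 0 < a ^ (2 * d) := by omega
      exact_mod_cast this.ne'
    field_simp
    simp
  have h5 : Tendsto (fun a : ℕ => ENNReal.ofReal
      (((((d - 1) / 2 : ℕ) * (((a ^ (2 * d) - 1 : ℕ) : ℝ) / (a ^ (2 * d) : ℕ)) *
      (1 - (d : ℝ) / a)) - (1 + Real.logb 2 d / a)) / (1 + Real.logb 2 d / a))) atTop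
      (𝓝 (ENNReal.ofReal (((((d - 1) / 2 : ℕ) * 1 * 1) - 1) / 1))) := by
    apply (ENNReal.continuous_ofReal.tendsto _).comp
    exact (((h4.const_mul _).mul h3).sub h2).div h2 one_ne_zero
  have h6 : ENNReal.ofReal (((((d - 1) / 2 : ℕ) * 1 * 1) - 1) / 1)
      = (((d - 1) / 2 - 1 : ℕ) : ℝ≥0∞) := by
    rw [← ENNReal.ofReal_natCast, Nat.cast_sub hK]
    simp
  rw [← h6]
  apply le_of_tendsto h5
  filter_upwards [eventually_ge_atTop (2 * d)] with a ha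
  exact gap_ge d a hd ha

theorem MDG_tendsto : Tendsto MDG atTop (𝓝 ∞) := by
  rw [ENNReal.tendsto_nhds_top_iff_nat]
  intro n
  filter_upwards [eventually_ge_atTop (2 * n + 7)] with d hd
  refine lt_of_lt_of_le ?_ (MDG_ge d (by omega))
  exact_mod_cast (by omega : n < (d - 1) / 2 - 1)

end Cyc

end Pool.Agent.FC9311
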