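import Pool.Agent.FC9311.UpperB
import Pool.Agent.FC9311.PartA

/-!
Conclusion: asymptotics of the relative maximal dimension gap.
-/

namespace Pool.Agent.FC9311

open MeasureTheory Filter Topology Set ProbabilityTheory
open scoped ENNReal NNReal

namespace Sponge

variable {d : ℕ} (S : Sponge d)

lemma DynD_le_dim : S.DynD ≤ d := by
  unfold DynD
  refine iSup_le fun μ => iSup_le fun _ => iSup_le fun _ => ?_
  unfold measureDim
  refine (iInf₂_le (univ : Set (Fin d → ℝ)) (by simp)).trans ?_
  rw [Real.dimH_univ_pi_fin]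

lemma DynD_ne_top : S.DynD ≠ ∞ := ne_top_of_le_ne_top (ENNReal.natCast_ne_top d) S.DynD_le_dim

/-- In dimension `d ≥ 2` the Hausdorff dimension is at most `d / 2` times the dynamical one. -/
theorem HD_le_mul_DynD (hd : 2 ≤ d) : S.HD ≤ ENNReal.ofReal ((d : ℝ) / 2) * S.DynD := by
  have h1 := S.HD_le hd S.DynD.toReal ENNReal.toReal_nonneg (fun j k p => by
    rw [← ENNReal.ofReal_le_iff_le_toReal S.DynD_ne_top]
    exact S.delta_le_DynD j k p)
  rwa [ENNReal.ofReal_mul (by positivity), ENNReal.ofReal_toReal S.DynD_ne_top] at h1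

/-- The dynamical dimension is positive as soon as there are two symbols. -/
theorem DynD_pos (hE : S.E.Nontrivial) : 0 < S.DynD := by
  classical
  obtain ⟨a, ha, b, hb, hab⟩ := hE
  obtain ⟨j, hj⟩ : ∃ j, a j ≠ b j := Function.ne_iff.1 hab
  set ea : S.E := ⟨a, ha⟩ with hea
  set eb : S.E := ⟨b, hb⟩ with heb
  have heab : ea ≠ eb := fun h => hab (congrArg Subtype.val h)
  set p : S.E → ℝ := fun e => if e = ea then 1 / 2 else if e = eb then 1 / 2 else 0 with hp
  have hpm : p ∈ stdSimplex ℝ S.E := by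
    refine ⟨fun e => ?_, ?_⟩
    · simp only [hp]
      split_ifs <;> norm_num
    · have h1 : ∀ e, p e = (if e = ea then (1 / 2 : ℝ) else 0) + (if e = eb then (1 / 2 : ℝ) else 0) := by
        intro e
        simp only [hp]
        by_cases h : e = ea
        · rw [if_pos h, if_pos h, if_neg (by rw [h]; exact heab), add_zero]
        · rw [if_neg h, if_neg h, zero_add]
      simp only [h1]
      rw [Finset.sum_add_distrib, Finset.sum_ite_eq', Finset.sum_ite_eq']
      simp only [Finset.mem_univ, if_true]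
      norm_num
  have hchi := S.chi_pos j ⟨p, hpm⟩
  have hH : 0 < Hr (S.rel {j}) p := by
    rw [Hr_eq (S.rel_equiv _)]
    apply Finset.sum_pos'
    · intro e _
      apply mul_nonneg (hpm.1 e)
      rw [neg_nonneg]
      apply Real.logb_nonpos (by norm_num) (Pr_nonneg hpm.1 e)
      rw [← hpm.2]
      exact Pr_le_sum hpm.1 e
    · refine ⟨ea, Finset.mem_univ _, ?_⟩
      have h1 : p ea = 1 / 2 := by simp [hp]
      have h2 : Pr (S.rel {j}) p ea ≤ 1 / 2 := by
        have h3 : Pr (S.rel {j}) p ea + p eb ≤ 1 := by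
          rw [← hpm.2]
          have h4 : p eb = ∑ x, if x = eb then p x else 0 := by
            rw [Finset.sum_ite_eq']; simp
          rw [h4]
          unfold Pr
          rw [← Finset.sum_add_distrib]
          apply Finset.sum_le_sum
          intro x _
          by_cases hx : x = eb
          · have h5 : ¬ S.rel {j} ea x := by
              intro h6
              apply hj
              have := h6 j (by simp)
              rw [hx] at this
              exact this.symm
            rw [if_neg h5, if_pos hx, zero_add]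
          · rw [if_neg hx, add_zero]
            split_ifs
            · exact le_rfl
            · exact hpm.1 x
        have h4 : p eb = 1 / 2 := by
          have h5 : eb ≠ ea := fun h => heab h.symm
          simp [hp, h5]
        linarith
      have h3 : 0 < Pr (S.rel {j}) p ea := by
        have := le_Pr (S.rel_equiv {j}) hpm.1 ea
        rw [h1] at this
        linarith
      rw [h1]
      apply mul_pos (by norm_num)
      rw [neg_pos]
      exact Real.logb_neg (by norm_num) h3 (by linarith)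
  have h1 := S.delta_le_DynD j j ⟨p, hpm⟩
  refine lt_of_lt_of_le ?_ h1
  rw [ENNReal.ofReal_pos]
  unfold delta
  have h2 : ({j, j} : Finset (Fin d)) = {j} := by simp
  rw [h2, min_self, sub_self, mul_zero, add_zero, add_zero]
  exact mul_pos hH (inv_pos.2 hchi)

end Sponge

theorem MDG_le (d : ℕ) (hd : 2 ≤ d) : MDG d ≤ ((d - 2 : ℕ) : ℝ≥0∞) / 2 := by
  unfold MDG
  refine iSup₂_le fun S hS => ?_
  have hpos := S.DynD_pos hS
  have htop := S.DynD_ne_top
  have h1 := S.HD_le_mul_DynD hd
  have h2 : (S.HD - S.DynD) / S.DynD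
      ≤ (ENNReal.ofReal ((d : ℝ) / 2) * S.DynD - 1 * S.DynD) / S.DynD := by
    rw [one_mul]
    exact ENNReal.div_le_div_right (tsub_le_tsub_right h1 _) _
  refine h2.trans ?_
  rw [← ENNReal.sub_mul (fun _ _ => htop), ENNReal.mul_div_cancel_right hpos.ne' htop,
    ← ENNReal.ofReal_one, ← ENNReal.ofReal_sub _ zero_le_one]
  apply le_of_eq
  have h3 : (d : ℝ) / 2 - 1 = ((d - 2 : ℕ) : ℝ) / 2 := by
    rw [Nat.cast_sub hd]; push_cast; ring
  rw [h3, ENNReal.ofReal_div_of_pos (by norm_num), ENNReal.ofReal_natCast]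
  simp

theorem MDG_div_tendsto : Tendsto (fun d : ℕ => MDG d / d) atTop (𝓝 (1 / 2)) := by
  have hinv : Tendsto (fun d : ℕ => ((d : ℝ))⁻¹) atTop (𝓝 0) := tendsto_inv_atTop_nhds_zero_nat
  have hup : Tendsto (fun d : ℕ => ENNReal.ofReal (1 / 2 - (d : ℝ)⁻¹)) atTop (𝓝 (1 / 2)) := by
    have h1 : Tendsto (fun d : ℕ => 1 / 2 - (d : ℝ)⁻¹) atTop (𝓝 (1 / 2 - 0)) :=
      tendsto_const_nhds.sub hinv
    rw [sub_zero] at h1
    have h2 := (ENNReal.continuous_ofReal.tendsto _).comp h1
    have h3 : ENNReal.ofReal (1 / 2) = 1 / 2 := by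
      rw [ENNReal.ofReal_div_of_pos (by norm_num)]; simp
    rw [h3] at h2
    exact h2
  have hlo : Tendsto (fun d : ℕ => ENNReal.ofReal (1 / 2 - 2 * (d : ℝ)⁻¹)) atTop (𝓝 (1 / 2)) := by
    have h1 : Tendsto (fun d : ℕ => 1 / 2 - 2 * (d : ℝ)⁻¹) atTop (𝓝 (1 / 2 - 2 * 0)) :=
      tendsto_const_nhds.sub (hinv.const_mul _)
    rw [mul_zero, sub_zero] at h1
    have h2 := (ENNReal.continuous_ofReal.tendsto _).comp h1
    have h3 : ENNReal.ofReal (1 / 2) = 1 / 2 := by
      rw [ENNReal.ofReal_div_of_pos (by norm_num)]; simp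
    rw [h3] at h2
    exact h2
  apply tendsto_of_tendsto_of_tendsto_of_le_of_le' hlo hup
  · filter_upwards [eventually_ge_atTop 4] with d hd
    have hd0 : (0 : ℝ) < d := by
      have : 0 < d := by omega
      exact_mod_cast this
    have h1 := Cyc.MDG_ge d (by omega)
    have h2 : ENNReal.ofReal (1 / 2 - 2 * (d : ℝ)⁻¹)
        ≤ ENNReal.ofReal (((d - 1) / 2 - 1 : ℕ) : ℝ) / d := by
      rw [← ENNReal.ofReal_natCast d, ← ENNReal.ofReal_div_of_pos hd0]
      apply ENNReal.ofReal_le_ofReal
      rw [le_div_iff₀ hd0]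
      have h3 : (1 / 2 - 2 * (d : ℝ)⁻¹) * d = ((d : ℝ) - 4) / 2 := by field_simp; ring
      rw [h3]
      have h4 : d ≤ 2 * ((d - 1) / 2 - 1) + 4 := by omega
      have h5 : (d : ℝ) ≤ 2 * (((d - 1) / 2 - 1 : ℕ) : ℝ) + 4 := by exact_mod_cast h4
      linarith
    refine h2.trans ?_
    rw [ENNReal.ofReal_natCast]
    exact ENNReal.div_le_div_right h1 _
  · filter_upwards [eventually_ge_atTop 2] with d hd
    have hd0 : (0 : ℝ) < d := by
      have : 0 < d := by omega
      exact_mod_cast this
    have h1 := MDG_le d hd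
    refine (ENNReal.div_le_div_right h1 _).trans ?_
    have h2 : ((d - 2 : ℕ) : ℝ≥0∞) / 2 = ENNReal.ofReal (((d - 2 : ℕ) : ℝ) / 2) := by
      rw [ENNReal.ofReal_div_of_pos (by norm_num), ENNReal.ofReal_natCast]; simp
    rw [h2, ← ENNReal.ofReal_natCast d, ← ENNReal.ofReal_div_of_pos hd0]
    apply ENNReal.ofReal_le_ofReal
    rw [Nat.cast_sub hd]
    apply le_of_eq
    push_cast
    field_simp

end Pool.Agent.FC9311
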