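import Mathlib

/-!
Logarithmic averages.
-/

namespace Pool.Agent.FC9311

open Set Filter Topology

lemma sub_sq_le_log {t : ℝ} (ht : 0 ≤ t) : t - t ^ 2 ≤ Real.log (1 + t) := by
  have h1 := Real.le_log_one_add_of_nonneg ht
  refine le_trans ?_ h1
  rw [le_div_iff₀ (by linarith)]
  nlinarith [mul_nonneg ht ht, mul_nonneg ht (mul_nonneg ht ht)]

lemma log_inc {a α : ℝ} (ha : 0 < a) (hα : 0 ≤ α) :
    α / a - (α / a) ^ 2 ≤ Real.log (a + α) - Real.log a ∧
    Real.log (a + α) - Real.log a ≤ α / a := by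
  have h1 : Real.log (a + α) - Real.log a = Real.log (1 + α / a) := by
    rw [← Real.log_div (by linarith) ha.ne', add_div, div_self ha.ne']
  rw [h1]
  have h2 : 0 ≤ α / a := div_nonneg hα ha.le
  refine ⟨sub_sq_le_log h2, ?_⟩
  have := Real.log_le_sub_one_of_pos (show 0 < 1 + α / a by linarith)
  linarith

lemma one_div_le_log_sub (M : ℕ) (hM : 1 ≤ M) :
    1 / ((M : ℝ) + 1) ≤ Real.log ((M : ℝ) + 1) - Real.log M := by
  have hM0 : (0 : ℝ) < M := by exact_mod_cast hM
  have h1 : Real.log ((M : ℝ) + 1) - Real.log M = - Real.log (M / (M + 1)) := by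
    rw [Real.log_div hM0.ne' (by linarith)]; ring
  rw [h1]
  have h2 := Real.log_le_sub_one_of_pos (show (0 : ℝ) < M / (M + 1) by positivity)
  have h3 : (M : ℝ) / (M + 1) - 1 = - (1 / ((M : ℝ) + 1)) := by field_simp; ring
  linarith

theorem log_avg (a b α β W : ℕ → ℝ) (X₀ Y₀ : ℝ) (hX₀ : 0 < X₀)
    (ha0 : a 0 = 0) (ha : ∀ i, a (i + 1) = a i + α i) (hα : ∀ i, X₀ ≤ α i ∧ α i ≤ Y₀)
    (hb0 : b 0 = 0) (hb : ∀ i, b (i + 1) = b i + β i) (hβ : ∀ i, X₀ ≤ β i ∧ β i ≤ Y₀)
    (m : ℝ) (hm : 0 ≤ m) (c : C(ℝ, ℝ)) (δ : ℝ) (hδ : 0 ≤ δ)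
    (hW : ∀ i : ℕ, 1 ≤ i → W i ≤ m * (α i / a i) + δ / i +
      c (Real.log (b i) - Real.log (a i)) * (β i / b i - α i / a i)) (ε : ℝ) (hε : 0 < ε) :
    ∃ C : ℝ, ∀ M : ℕ, ∑ i ∈ Finset.Icc 1 M, W i ≤ (m + δ + ε) * Real.log ((M : ℝ) + 1) + C := by
  have hXY : X₀ ≤ Y₀ := (hα 0).1.trans (hα 0).2
  have hY₀ : 0 < Y₀ := hX₀.trans_le hXY
  have bounds : ∀ (a α : ℕ → ℝ), a 0 = 0 → (∀ i, a (i + 1) = a i + α i) →
      (∀ i, X₀ ≤ α i ∧ α i ≤ Y₀) → ∀ i : ℕ, i * X₀ ≤ a i ∧ a i ≤ i * Y₀ := by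
    intro a α ha0 ha hα i
    induction i with
    | zero => simp [ha0]
    | succ i ih =>
      rw [ha]
      push_cast
      constructor
      · linarith [ih.1, (hα i).1]
      · linarith [ih.2, (hα i).2]
  have hab := bounds a α ha0 ha hα
  have hbb := bounds b β hb0 hb hβ
  have hapos : ∀ i : ℕ, 1 ≤ i → 0 < a i := by
    intro i hi
    have : (0 : ℝ) < i := by exact_mod_cast hi
    exact (mul_pos this hX₀).trans_le (hab i).1
  have hbpos : ∀ i : ℕ, 1 ≤ i → 0 < b i := by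
    intro i hi
    have : (0 : ℝ) < i := by exact_mod_cast hi
    exact (mul_pos this hX₀).trans_le (hbb i).1
  set K := Y₀ / X₀ with hK
  have hK0 : 0 < K := div_pos hY₀ hX₀
  have hK1 : 1 ≤ K := by rw [hK, le_div_iff₀ hX₀]; linarith
  have ratio : ∀ (a α : ℕ → ℝ), (∀ i : ℕ, i * X₀ ≤ a i) → (∀ i, X₀ ≤ α i ∧ α i ≤ Y₀) →
      ∀ i : ℕ, 1 ≤ i → 0 ≤ α i / a i ∧ α i / a i ≤ K / i := by
    intro a α ha hα i hi
    have hi0 : (0 : ℝ) < i := by exact_mod_cast hi
    have hai : 0 < a i := (mul_pos hi0 hX₀).trans_le (ha i)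
    refine ⟨div_nonneg (hX₀.le.trans (hα i).1) hai.le, ?_⟩
    calc α i / a i ≤ Y₀ / (i * X₀) :=
          div_le_div₀ hY₀.le (hα i).2 (mul_pos hi0 hX₀) (ha i)
      _ = K / i := by rw [hK]; field_simp
  have hra := ratio a α (fun i => (hab i).1) hα
  have hrb := ratio b β (fun i => (hbb i).1) hβ
  set u : ℕ → ℝ := fun i => Real.log (b i) - Real.log (a i) with hu
  set U := Real.log K with hU
  have hU0 : 0 ≤ U := Real.log_nonneg hK1
  have huU : ∀ i : ℕ, 1 ≤ i → u i ∈ Icc (-U) U := by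
    intro i hi
    have hi0 : (0 : ℝ) < i := by exact_mod_cast hi
    have h1 := hapos i hi
    have h2 := hbpos i hi
    simp only [hu]
    rw [← Real.log_div h2.ne' h1.ne', hU, ← Real.log_inv]
    constructor
    · apply Real.log_le_log (inv_pos.2 hK0)
      rw [hK, inv_div, div_le_div_iff₀ hY₀ h1]
      have := (hab i).2
      have := (hbb i).1
      nlinarith
    · apply Real.log_le_log (div_pos h2 h1)
      rw [hK, div_le_div_iff₀ h1 hX₀]
      have := (hab i).1
      have := (hbb i).2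
      nlinarith
  -- bound for c
  obtain ⟨Cb, hCb⟩ : ∃ Cb : ℝ, ∀ v ∈ Icc (-U) U, |c v| ≤ Cb := by
    obtain ⟨Cb, hCb⟩ := (isCompact_Icc (a := -U) (b := U)).exists_bound_of_continuousOn
      c.continuous.continuousOn
    exact ⟨Cb, fun p hp => by simpa using hCb p hp⟩
  have hCb0 : 0 ≤ Cb := (abs_nonneg _).trans (hCb 0 ⟨by linarith, hU0⟩)
  -- uniform continuity
  set ε₂ := ε / (2 * K) with hε₂
  have hε₂0 : 0 < ε₂ := by positivity
  obtain ⟨δ₂, hδ₂, hunif⟩ : ∃ δ₂ > 0, ∀ v ∈ Icc (-U) U, ∀ w ∈ Icc (-U) U, |v - w| < δ₂ →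
      |c v - c w| ≤ ε₂ := by
    have h1 := (isCompact_Icc (a := -U) (b := U)).uniformContinuousOn_of_continuous
      c.continuous.continuousOn
    rw [Metric.uniformContinuousOn_iff] at h1
    obtain ⟨δ₂, hδ₂, h2⟩ := h1 ε₂ hε₂0
    refine ⟨δ₂, hδ₂, fun v hv w hw hvw => ?_⟩
    have := h2 v hv w hw (by rwa [Real.dist_eq])
    rw [Real.dist_eq] at this
    exact this.le
  set V : ℝ → ℝ := fun x => ∫ t in (0 : ℝ)..x, c t with hV
  have hVinc : ∀ v ∈ Icc (-U) U, ∀ w ∈ Icc (-U) U, |w - v| < δ₂ →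
      c v * (w - v) - ε₂ * |w - v| ≤ V w - V v := by
    intro v hv w hw hvw
    have h1 : V w - V v = ∫ t in v..w, c t := by
      simp only [hV]
      rw [intervalIntegral.integral_interval_sub_left (c.continuous.intervalIntegrable _ _)
        (c.continuous.intervalIntegrable _ _)]
    have h2 : ∫ t in v..w, c t = c v * (w - v) + ∫ t in v..w, (c t - c v) := by
      rw [intervalIntegral.integral_sub (c.continuous.intervalIntegrable _ _)
        (continuous_const.intervalIntegrable _ _)]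
      simp only [intervalIntegral.integral_const, smul_eq_mul]
      ring
    have h3 : ‖∫ t in v..w, (c t - c v)‖ ≤ ε₂ * |w - v| := by
      apply intervalIntegral.norm_integral_le_of_norm_le_const
      intro t ht
      rw [Real.norm_eq_abs]
      have ht2 : t ∈ uIcc v w := uIoc_subset_uIcc ht
      have ht3 : t ∈ Icc (-U) U := by
        have := uIcc_subset_Icc hv hw
        exact this ht2
      apply hunif t ht3 v hv
      refine lt_of_le_of_lt ?_ hvw
      exact abs_sub_left_of_mem_uIcc ht2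
    rw [Real.norm_eq_abs, abs_le] at h3
    rw [h1, h2]
    linarith [h3.1]
  obtain ⟨Vb, hVb⟩ : ∃ Vb : ℝ, ∀ v ∈ Icc (-U) U, |V v| ≤ Vb := by
    have hVc : Continuous V := by
      simp only [hV]
      exact intervalIntegral.continuous_primitive (fun _ _ => c.continuous.intervalIntegrable _ _) 0
    obtain ⟨Cb, hCb⟩ := (isCompact_Icc (a := -U) (b := U)).exists_bound_of_continuousOn
      hVc.continuousOn
    exact ⟨Cb, fun p hp => by simpa using hCb p hp⟩
  set Φ : ℕ → ℝ := fun i => m * Real.log (a i) + V (u i) with hΦ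
  -- threshold
  obtain ⟨i₁, hi₁⟩ : ∃ i₁ : ℕ, 1 ≤ i₁ ∧ K / δ₂ < i₁ ∧ 2 * (m + Cb * 2) * K ^ 2 / ε ≤ i₁ := by
    obtain ⟨n, hn⟩ := exists_nat_gt (max (K / δ₂) (2 * (m + Cb * 2) * K ^ 2 / ε))
    refine ⟨n + 1, by omega, ?_, ?_⟩
    · push_cast
      have := (le_max_left (K / δ₂) (2 * (m + Cb * 2) * K ^ 2 / ε)).trans_lt hn
      linarith
    · push_cast
      have := (le_max_right (K / δ₂) (2 * (m + Cb * 2) * K ^ 2 / ε)).trans_lt hn
      linarith
  obtain ⟨hi1, hi2, hi3⟩ := hi₁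
  have hstep : ∀ i : ℕ, i₁ ≤ i → W i ≤ Φ (i + 1) - Φ i + (δ + ε) / i := by
    intro i hi
    have hi1' : 1 ≤ i := hi1.trans hi
    have hi0 : (0 : ℝ) < i := by exact_mod_cast hi1'
    have hiR : (i₁ : ℝ) ≤ i := by exact_mod_cast hi
    have ea := log_inc (hapos i hi1') (hX₀.le.trans (hα i).1)
    have eb := log_inc (hbpos i hi1') (hX₀.le.trans (hβ i).1)
    rw [← ha] at ea
    rw [← hb] at eb
    have ra := hra i hi1'
    have rb := hrb i hi1'
    set ta := α i / a i with hta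
    set tb := β i / b i with htb
    have hta2 : ta ^ 2 ≤ (K / i) ^ 2 := pow_le_pow_left₀ ra.1 ra.2 2
    have htb2 : tb ^ 2 ≤ (K / i) ^ 2 := pow_le_pow_left₀ rb.1 rb.2 2
    have hla0 : 0 ≤ Real.log (a (i + 1)) - Real.log (a i) := by
      have : Real.log (a i) ≤ Real.log (a (i + 1)) := by
        apply Real.log_le_log (hapos i hi1')
        rw [ha]; linarith [(hα i).1]
      linarith
    have hlb0 : 0 ≤ Real.log (b (i + 1)) - Real.log (b i) := by
      have : Real.log (b i) ≤ Real.log (b (i + 1)) := by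
        apply Real.log_le_log (hbpos i hi1')
        rw [hb]; linarith [(hβ i).1]
      linarith
    set la := Real.log (a (i + 1)) - Real.log (a i) with hla
    set lb := Real.log (b (i + 1)) - Real.log (b i) with hlb
    have hdu : u (i + 1) - u i = lb - la := by
      simp only [hu, hla, hlb]; ring
    have hdu_abs : |u (i + 1) - u i| ≤ K / i := by
      rw [hdu, abs_le]
      constructor <;> linarith [ea.2, eb.2, ra.2, rb.2]
    have hKi : K / i < δ₂ := by
      rw [div_lt_iff₀ hi0]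
      rw [div_lt_iff₀ hδ₂] at hi2
      nlinarith
    have hv := hVinc (u i) (huU i hi1') (u (i + 1)) (huU (i + 1) (by omega))
      (lt_of_le_of_lt hdu_abs hKi)
    have hw := hW i hi1'
    have hcb := hCb (u i) (huU i hi1')
    have hu_i : Real.log (b i) - Real.log (a i) = u i := rfl
    rw [hu_i] at hw
    -- the c term
    have h1 : c (u i) * (tb - ta) ≤ c (u i) * (u (i + 1) - u i) + Cb * (2 * (K / i) ^ 2) := by
      have h2 : |(tb - ta) - (u (i + 1) - u i)| ≤ 2 * (K / i) ^ 2 := by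
        rw [hdu, abs_le]
        constructor <;> linarith [ea.1, ea.2, eb.1, eb.2, sq_nonneg (K / i)]
      have h3 : c (u i) * ((tb - ta) - (u (i + 1) - u i)) ≤ Cb * (2 * (K / i) ^ 2) := by
        refine (le_abs_self _).trans ?_
        rw [abs_mul]
        exact mul_le_mul hcb h2 (abs_nonneg _) hCb0
      linarith
    have h4 : m * ta ≤ m * la + m * (K / i) ^ 2 := by
      have : ta ≤ la + (K / i) ^ 2 := by linarith [ea.1]
      calc m * ta ≤ m * (la + (K / i) ^ 2) := mul_le_mul_of_nonneg_left this hm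
        _ = _ := by ring
    have h5 : ε₂ * |u (i + 1) - u i| ≤ (ε / 2) / i := by
      calc ε₂ * |u (i + 1) - u i| ≤ ε₂ * (K / i) := mul_le_mul_of_nonneg_left hdu_abs hε₂0.le
        _ = (ε / 2) / i := by rw [hε₂]; field_simp
    have h6 : (m + Cb * 2) * (K / i) ^ 2 ≤ (ε / 2) / i := by
      have h7 : 2 * (m + Cb * 2) * K ^ 2 / ε ≤ i := hi3.trans hiR
      rw [div_le_iff₀ hε] at h7
      rw [div_pow, ← mul_div_assoc, div_le_div_iff₀ (by positivity) hi0]
      nlinarith
    have h8 : Φ (i + 1) - Φ i = m * la + (V (u (i + 1)) - V (u i)) := by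
      simp only [hΦ, hla]; ring
    rw [h8]
    have h9 : (δ + ε) / i = δ / i + (ε / 2) / i + (ε / 2) / i := by ring
    rw [h9]
    have h10 : m * (K / i) ^ 2 + Cb * (2 * (K / i) ^ 2) = (m + Cb * 2) * (K / i) ^ 2 := by ring
    linarith
  -- summation
  set S : ℕ → ℝ := fun M => ∑ i ∈ Finset.Icc 1 M, W i with hS
  set C₁ := S i₁ - Φ (i₁ + 1) - (δ + ε) * Real.log i₁ with hC₁
  have hsum : ∀ M : ℕ, i₁ ≤ M → S M ≤ Φ (M + 1) + (δ + ε) * Real.log M + C₁ := by
    intro M hM
    induction M, hM using Nat.le_induction with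
    | base => rw [hC₁]; linarith
    | succ M hM ih =>
      have h1 : S (M + 1) = S M + W (M + 1) := by
        simp only [hS]
        rw [Finset.sum_Icc_succ_top (by omega)]
      have h2 := hstep (M + 1) (by omega)
      have h3 := one_div_le_log_sub M (hi1.trans hM)
      rw [h1]
      push_cast at h2 ⊢
      have h4 : (δ + ε) / ((M : ℝ) + 1) ≤ (δ + ε) * (Real.log ((M : ℝ) + 1) - Real.log M) := by
        rw [div_eq_mul_one_div]
        exact mul_le_mul_of_nonneg_left h3 (by linarith)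
      linarith
  set C₂ := ∑ i ∈ Finset.Icc 1 i₁, |W i| with hC₂
  refine ⟨|m * Real.log Y₀| + Vb + |C₁| + C₂, fun M => ?_⟩
  have hVb0 : 0 ≤ Vb := (abs_nonneg _).trans (hVb 0 ⟨by linarith, hU0⟩)
  have hC₂0 : 0 ≤ C₂ := Finset.sum_nonneg (fun _ _ => abs_nonneg _)
  have hlogM : 0 ≤ Real.log ((M : ℝ) + 1) := Real.log_nonneg (by
    have : (0 : ℝ) ≤ M := Nat.cast_nonneg M
    linarith)
  rcases le_or_gt i₁ M with h | h
  · have h1 := hsum M h
    have hM1 : 1 ≤ M := hi1.trans h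
    have hM0 : (0 : ℝ) < M := by exact_mod_cast hM1
    have h2 : Φ (M + 1) ≤ m * Real.log ((M : ℝ) + 1) + |m * Real.log Y₀| + Vb := by
      simp only [hΦ]
      have h3 : Real.log (a (M + 1)) ≤ Real.log ((M : ℝ) + 1) + Real.log Y₀ := by
        rw [← Real.log_mul (by linarith) hY₀.ne']
        apply Real.log_le_log (hapos (M + 1) (by omega))
        have := (hab (M + 1)).2
        push_cast at this
        exact this
      have h4 := mul_le_mul_of_nonneg_left h3 hm
      have h5 := (le_abs_self _).trans (hVb (u (M + 1)) (huU (M + 1) (by omega)))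
      have h6 := le_abs_self (m * Real.log Y₀)
      linarith
    have h3 : (δ + ε) * Real.log M ≤ (δ + ε) * Real.log ((M : ℝ) + 1) := by
      apply mul_le_mul_of_nonneg_left _ (by linarith)
      exact Real.log_le_log hM0 (by linarith)
    have h4 := le_abs_self C₁
    have h5 : S M = ∑ i ∈ Finset.Icc 1 M, W i := rfl
    rw [← h5]
    have h6 : (m + δ + ε) * Real.log ((M : ℝ) + 1)
      = m * Real.log ((M : ℝ) + 1) + (δ + ε) * Real.log ((M : ℝ) + 1) := by ring
    linarith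
  · have h1 : ∑ i ∈ Finset.Icc 1 M, W i ≤ C₂ := by
      calc ∑ i ∈ Finset.Icc 1 M, W i ≤ ∑ i ∈ Finset.Icc 1 M, |W i| :=
            Finset.sum_le_sum (fun i _ => le_abs_self _)
        _ ≤ C₂ := by
          apply Finset.sum_le_sum_of_subset_of_nonneg
          · intro i hi
            rw [Finset.mem_Icc] at hi ⊢
            omega
          · intro i _ _
            exact abs_nonneg _
    have h2 : 0 ≤ (m + δ + ε) * Real.log ((M : ℝ) + 1) := mul_nonneg (by linarith) hlogM
    have h3 := abs_nonneg (m * Real.log Y₀)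
    have h4 := abs_nonneg C₁
    linarith

end Pool.Agent.FC9311
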