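import Pool.Agent.FC9311.Cells

/-!
Lower bounds for dimensions through measures of cells.
-/

namespace Pool.Agent.FC9311

open MeasureTheory Filter Topology Set Metric
open scoped ENNReal NNReal Pointwise

namespace Sponge

variable {d : ℕ} (S : Sponge d)

lemma maps_Ioo (j : Fin d) (a : S.A j) {u : ℝ} (hu : u ∈ Ioo (0 : ℝ) 1) :
    S.r j a * u + S.t j a ∈ Ioo (0 : ℝ) 1 := by
  have h0 := S.maps j a 0 (by simp)
  have h1 := S.maps j a 1 (by simp)
  have hr := S.r_ne j a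
  obtain ⟨hu0, hu1⟩ := hu
  simp only [mul_zero, zero_add, mul_one, mem_Icc] at h0 h1
  rcases lt_or_gt_of_ne hr with hneg | hpos
  · constructor
    · nlinarith
    · nlinarith
  · constructor
    · nlinarith
    · nlinarith

lemma open_step (j : Fin d) (ω : ℕ → S.E) {n m : ℕ} (h : n ≤ m) {u : ℝ} (hu : u ∈ Ioo (0 : ℝ) 1) :
    ∃ v ∈ Ioo (0 : ℝ) 1, S.R j ω m * u + S.P j ω m = S.R j ω n * v + S.P j ω n := by
  obtain ⟨k, rfl⟩ := Nat.exists_eq_add_of_le h
  clear h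
  induction k generalizing u with
  | zero => exact ⟨u, hu, rfl⟩
  | succ k ih =>
    obtain ⟨v, hv, hv2⟩ := ih (S.maps_Ioo j ((ω (n + k)).1 j) hu)
    refine ⟨v, hv, ?_⟩
    rw [← hv2, ← add_assoc, R_succ]
    have : S.P j ω (n + k + 1) = S.P j ω (n + k) + S.R j ω (n + k) * S.t j ((ω (n + k)).1 j) := by
      simp [P, Finset.sum_range_succ]
    rw [this]
    ring

/-- Cells with respect to a set `I` of coordinates. -/
def cellI (I : Finset (Fin d)) (B : ℝ) (ω : ℕ → S.E) : Set (ℕ → S.E) :=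
  {ω' | ∀ j ∈ I, ∀ s < S.stop j B ω, (ω' s).1 j = (ω s).1 j}

lemma mem_cellI_self (I : Finset (Fin d)) (B : ℝ) (ω : ℕ → S.E) : ω ∈ S.cellI I B ω :=
  fun _ _ _ _ => rfl

lemma cellI_eq {I : Finset (Fin d)} {B : ℝ} {ω ω' : ℕ → S.E} (h : ω' ∈ S.cellI I B ω) :
    S.cellI I B ω' = S.cellI I B ω := by
  have hst : ∀ j ∈ I, S.stop j B ω' = S.stop j B ω := fun j hj => S.stop_congr (h j hj)
  ext ω''
  constructor
  · intro h2 j hj s hs
    rw [← h j hj s hs]
    exact h2 j hj s (by rw [hst j hj]; exact hs)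
  · intro h2 j hj s hs
    rw [hst j hj] at hs
    rw [h j hj s hs]
    exact h2 j hj s hs

lemma cellI_univ (B : ℝ) (ω : ℕ → S.E) : S.cellI Finset.univ B ω = S.cell B ω := by
  ext ω'
  simp [cellI, cell]

/-- The projection of the code to the coordinates in `I`. -/
noncomputable def codeI (I : Finset (Fin d)) (ω : ℕ → S.E) : I → ℝ := fun j => S.code ω j

/-- The open box belonging to a cell. -/
def box (I : Finset (Fin d)) (B : ℝ) (ω : ℕ → S.E) : Set (I → ℝ) :=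
  {x | ∀ j : I, ∃ u ∈ Ioo (0 : ℝ) 1,
    x j = S.R j ω (S.stop j B ω) * u + S.P j ω (S.stop j B ω)}

lemma mem_cellI_of_box {I : Finset (Fin d)} {B : ℝ} {ω ω' : ℕ → S.E} {x : I → ℝ}
    (h : x ∈ S.box I B ω) (h' : x ∈ S.box I B ω') : ω' ∈ S.cellI I B ω := by
  intro j hjI
  obtain ⟨u, hu, hxu⟩ := h ⟨j, hjI⟩
  obtain ⟨u', hu', hxu'⟩ := h' ⟨j, hjI⟩
  simp only at hxu hxu'
  intro t
  induction t using Nat.strong_induction_on with
  | _ t ih =>
  intro ht
  have hag : ∀ s < t, (ω' s).1 j = (ω s).1 j := fun s hs => ih s hs (hs.trans ht)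
  have ht' : t < S.stop j B ω' := by
    rw [lt_stop_iff, S.L_congr hag, ← lt_stop_iff]; exact ht
  by_contra hne
  obtain ⟨v, hv, hv2⟩ := S.open_step j ω (Nat.succ_le_of_lt ht) hu
  obtain ⟨v', hv', hv2'⟩ := S.open_step j ω' (Nat.succ_le_of_lt ht') hu'
  have hP : ∀ ω : ℕ → S.E, S.P j ω (t + 1) = S.P j ω t + S.R j ω t * S.t j ((ω t).1 j) := by
    intro ω; simp [P, Finset.sum_range_succ]
  rw [← hxu, Nat.succ_eq_add_one, R_succ, hP] at hv2
  rw [← hxu', Nat.succ_eq_add_one, R_succ, hP, S.R_congr hag, S.P_congr hag] at hv2'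
  have h3 : S.R j ω t * (S.r j ((ω t).1 j) * v + S.t j ((ω t).1 j))
      = S.R j ω t * (S.r j ((ω' t).1 j) * v' + S.t j ((ω' t).1 j)) := by linarith
  have h4 := mul_left_cancel₀ (S.R_ne j ω t) h3
  have h5 := S.disj j _ _ hne
  rw [Set.disjoint_left] at h5
  exact h5 ⟨v', hv', rfl⟩ ⟨v, hv, h4⟩

lemma box_eq (I : Finset (Fin d)) (B : ℝ) (ω : ℕ → S.E) : S.box I B ω = Set.pi univ
    (fun j : I =>
      (fun u => S.R j ω (S.stop j B ω) * u + S.P j ω (S.stop j B ω)) '' Ioo (0 : ℝ) 1) := by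
  ext x
  simp only [box, mem_ofPred_eq, Set.mem_pi, mem_univ, forall_const, mem_image]
  constructor
  · intro h j
    obtain ⟨u, hu, hx⟩ := h j
    exact ⟨u, hu, hx.symm⟩
  · intro h j
    obtain ⟨u, hu, hx⟩ := h j
    exact ⟨u, hu, hx.symm⟩

lemma isOpen_box (I : Finset (Fin d)) (B : ℝ) (ω : ℕ → S.E) : IsOpen (S.box I B ω) := by
  rw [box_eq]
  apply isOpen_set_pi finite_univ
  intro j _
  have hR := S.R_ne j ω (S.stop j B ω)
  have h1 : (fun u => S.R j ω (S.stop j B ω) * u + S.P j ω (S.stop j B ω))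
      = fun u => (Homeomorph.addRight (S.P j ω (S.stop j B ω)))
          ((Homeomorph.mulLeft₀ _ hR) u) := by
    funext u; rfl
  rw [h1, ← image_image (g := (Homeomorph.addRight (S.P j ω (S.stop j B ω))))]
  exact (Homeomorph.isOpen_image _).2 ((Homeomorph.isOpen_image _).2 isOpen_Ioo)

lemma volume_box (I : Finset (Fin d)) (B : ℝ) (ω : ℕ → S.E) :
    volume (S.box I B ω) = ∏ j : I, ENNReal.ofReal (2 ^ (-(S.L j ω (S.stop j B ω)))) := by
  rw [box_eq, volume_pi_pi]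
  apply Finset.prod_congr rfl
  intro j _
  rw [← abs_R_eq]
  have h1 : (fun u => S.R j ω (S.stop j B ω) * u + S.P j ω (S.stop j B ω)) '' Ioo (0 : ℝ) 1
      = (fun u => u + S.P j ω (S.stop j B ω)) '' ((fun u => S.R j ω (S.stop j B ω) * u) '' Ioo 0 1) := by
    rw [image_image]
  rw [h1, image_add_right, measure_preimage_add_right]
  have h2 : (fun u => S.R j ω (S.stop j B ω) * u) '' Ioo 0 1
      = (S.R j ω (S.stop j B ω)) • (Ioo (0:ℝ) 1) := by
    ext x; simp [mem_smul_set]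
  rw [h2, Measure.addHaar_smul]
  simp

lemma L_stop_le {y : ℝ} (hy : ∀ j a, S.X j a ≤ y) (j : Fin d) (B : ℝ) (hB : 0 ≤ B)
    (ω : ℕ → S.E) (hy0 : 0 ≤ y) : S.L j ω (S.stop j B ω) ≤ B + y := by
  rcases Nat.eq_zero_or_pos (S.stop j B ω) with h | h
  · rw [h, L_zero]; linarith
  · obtain ⟨n, hn⟩ := Nat.exists_eq_succ_of_ne_zero h.ne'
    rw [hn, Nat.succ_eq_add_one, L_succ]
    have h1 : n < S.stop j B ω := by omega
    rw [lt_stop_iff] at h1
    linarith [hy j ((ω n).1 j)]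

lemma code_mem_closure_box {I : Finset (Fin d)} (j : I) (B : ℝ) (ω : ℕ → S.E) {x : I → ℝ}
    (hx : x ∈ S.box I B ω) : |x j - S.code ω j| ≤ 2 ^ (-B) := by
  obtain ⟨u, hu, hxu⟩ := hx j
  rw [hxu, S.code_tail j ω (S.stop j B ω)]
  have h1 := S.code_mem j (tail (S.stop j B ω) ω)
  have h2 : S.R j ω (S.stop j B ω) * u + S.P j ω (S.stop j B ω) -
      (S.P j ω (S.stop j B ω) + S.R j ω (S.stop j B ω) * S.code (tail (S.stop j B ω) ω) j)
      = S.R j ω (S.stop j B ω) * (u - S.code (tail (S.stop j B ω) ω) j) := by ring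
  rw [h2, abs_mul]
  have h3 : |u - S.code (tail (S.stop j B ω) ω) j| ≤ 1 := by
    rw [abs_le]
    constructor <;> linarith [h1.1, h1.2, hu.1, hu.2]
  calc |S.R j ω (S.stop j B ω)| * |u - S.code (tail (S.stop j B ω) ω) j|
      ≤ |S.R j ω (S.stop j B ω)| * 1 := mul_le_mul_of_nonneg_left h3 (abs_nonneg _)
    _ = 2 ^ (-(S.L j ω (S.stop j B ω))) := by rw [mul_one, abs_R_eq]
    _ ≤ 2 ^ (-B) := by
      apply Real.rpow_le_rpow_of_exponent_le (by norm_num)
      linarith [S.le_L_stop j B ω]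

lemma half_pow_eq (B : ℕ) : (2 : ℝ≥0∞)⁻¹ ^ B = ENNReal.ofReal (2 ^ (-(B : ℝ))) := by
  rw [Real.rpow_neg (by norm_num), Real.rpow_natCast, ← inv_pow, ENNReal.ofReal_pow (by norm_num),
    ENNReal.ofReal_inv_of_pos (by norm_num)]
  simp

/-- A set of small diameter meets the codes of boundedly many cells. -/
lemma measure_le_of_cells (μ : Measure (ℕ → S.E)) (I : Finset (Fin d)) {y : ℝ}
    (hy : ∀ j a, S.X j a ≤ y) (hy0 : 0 ≤ y)
    (G : Set (ℕ → S.E)) (B : ℕ) (m : ℝ≥0∞)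
    (hG : ∀ ω ∈ G, μ (S.cellI I B ω) ≤ m)
    (U : Set (I → ℝ)) (hU : ediam U ≤ (2 : ℝ≥0∞)⁻¹ ^ B) :
    μ (G ∩ S.codeI I ⁻¹' U) ≤ ENNReal.ofReal ((4 * 2 ^ y) ^ I.card) * m := by
  classical
  rcases (G ∩ S.codeI I ⁻¹' U).eq_empty_or_nonempty with hemp | ⟨ω₀, hω₀⟩
  · rw [hemp]; simp
  let Q : Type _ := {q : Set (ℕ → S.E) // ∃ ω, ω ∈ G ∧ S.codeI I ω ∈ U ∧ q = S.cellI I B ω}
  choose rep hrepG hrepU hrepq using fun q : Q => q.2
  have hpow := half_pow_eq B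
  -- boxes are disjoint
  have hdisj : Pairwise (Function.onFun Disjoint (fun q : Q => S.box I B (rep q))) := by
    intro q q' hqq'
    rw [Function.onFun, Set.disjoint_left]
    intro x hx hx'
    apply hqq'
    apply Subtype.ext
    rw [hrepq q, hrepq q']
    exact (S.cellI_eq (S.mem_cellI_of_box hx hx')).symm
  have hsub : (⋃ q : Q, S.box I B (rep q))
      ⊆ Metric.closedBall (S.codeI I ω₀) (2 * 2 ^ (-(B : ℝ))) := by
    intro x hx
    rw [mem_iUnion] at hx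
    obtain ⟨q, hq⟩ := hx
    rw [Metric.mem_closedBall, dist_pi_le_iff (by positivity)]
    intro j
    have h1 := S.code_mem_closure_box j B (rep q) hq
    have h2 : edist (S.codeI I (rep q)) (S.codeI I ω₀) ≤ (2 : ℝ≥0∞)⁻¹ ^ B :=
      (edist_le_ediam_of_mem (hrepU q) hω₀.2).trans hU
    rw [edist_dist, hpow, ENNReal.ofReal_le_ofReal_iff (by positivity)] at h2
    have h3 := (dist_pi_le_iff (by positivity)).1 h2 j
    rw [Real.dist_eq] at h3 ⊢
    calc |x j - S.codeI I ω₀ j|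
        ≤ |x j - S.codeI I (rep q) j| + |S.codeI I (rep q) j - S.codeI I ω₀ j| :=
          abs_sub_le _ _ _
      _ ≤ 2 ^ (-(B : ℝ)) + 2 ^ (-(B : ℝ)) := add_le_add h1 h3
      _ = _ := by ring
  have hvol : ∀ q : Q,
      ENNReal.ofReal ((2 ^ (-((B : ℝ) + y))) ^ I.card) ≤ volume (S.box I B (rep q)) := by
    intro q
    rw [volume_box, ENNReal.ofReal_pow (by positivity)]
    calc ENNReal.ofReal (2 ^ (-((B : ℝ) + y))) ^ I.card
        = ∏ j : I, ENNReal.ofReal (2 ^ (-((B : ℝ) + y))) := by simp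
      _ ≤ _ := by
        apply Finset.prod_le_prod'
        intro j _
        apply ENNReal.ofReal_le_ofReal
        apply Real.rpow_le_rpow_of_exponent_le (by norm_num)
        have := S.L_stop_le hy j B (Nat.cast_nonneg B) (rep q) hy0
        linarith
  have htsum : ∑' q : Q, volume (S.box I B (rep q))
      ≤ ENNReal.ofReal ((4 * 2 ^ (-(B : ℝ))) ^ I.card) := by
    refine (tsum_meas_le_meas_iUnion_of_disjoint volume
      (fun q => (S.isOpen_box I B (rep q)).measurableSet) hdisj).trans ?_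
    refine (measure_mono hsub).trans ?_
    rw [Real.volume_pi_closedBall _ (by positivity)]
    simp only [Fintype.card_coe]
    apply le_of_eq
    congr 2
    ring
  have hpos : 0 < ENNReal.ofReal ((2 ^ (-((B : ℝ) + y))) ^ I.card) := by
    rw [ENNReal.ofReal_pos]; positivity
  have hfin : Finite Q := by
    have h1 : {q : Q | ENNReal.ofReal ((2 ^ (-((B : ℝ) + y))) ^ I.card)
        ≤ volume (S.box I B (rep q))}.Finite := by
      apply ENNReal.finite_const_le_of_tsum_ne_top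
      · exact ne_top_of_le_ne_top ENNReal.ofReal_ne_top htsum
      · exact hpos.ne'
    have h2 : {q : Q | ENNReal.ofReal ((2 ^ (-((B : ℝ) + y))) ^ I.card)
        ≤ volume (S.box I B (rep q))} = univ := by
      ext q; simp only [mem_ofPred_eq, mem_univ, iff_true]; exact hvol q
    rw [h2] at h1
    exact Set.finite_univ_iff.1 h1
  have hcount : ∑' _ : Q, (1 : ℝ≥0∞) ≤ ENNReal.ofReal ((4 * 2 ^ y) ^ I.card) := by
    have h1 : ∑' _ : Q, ENNReal.ofReal ((2 ^ (-((B : ℝ) + y))) ^ I.card)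
        ≤ ENNReal.ofReal ((4 * 2 ^ (-(B : ℝ))) ^ I.card) :=
      (ENNReal.tsum_le_tsum hvol).trans htsum
    have h2 : ∑' _ : Q, ENNReal.ofReal ((2 ^ (-((B : ℝ) + y))) ^ I.card)
        = ENNReal.ofReal ((2 ^ (-((B : ℝ) + y))) ^ I.card) * ∑' _ : Q, (1 : ℝ≥0∞) := by
      rw [← ENNReal.tsum_mul_left]; simp
    rw [h2] at h1
    have h3 : ENNReal.ofReal ((4 * 2 ^ (-(B : ℝ))) ^ I.card)
        = ENNReal.ofReal ((2 ^ (-((B : ℝ) + y))) ^ I.card)
          * ENNReal.ofReal ((4 * 2 ^ y) ^ I.card) := by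
      rw [← ENNReal.ofReal_mul (by positivity), ← mul_pow]
      congr 2
      have : (2 : ℝ) ^ (-(B : ℝ)) = 2 ^ (-((B : ℝ) + y)) * 2 ^ y := by
        rw [← Real.rpow_add (by norm_num)]
        congr 1; ring
      rw [this]; ring
    rw [h3] at h1
    exact (ENNReal.mul_le_mul_iff_right hpos.ne' ENNReal.ofReal_ne_top).1 h1
  have hcov : G ∩ S.codeI I ⁻¹' U ⊆ ⋃ q : Q, q.1 := by
    intro ω hω
    rw [mem_iUnion]
    exact ⟨⟨S.cellI I B ω, ω, hω.1, hω.2, rfl⟩, S.mem_cellI_self _ _ _⟩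
  calc μ (G ∩ S.codeI I ⁻¹' U) ≤ μ (⋃ q : Q, q.1) := measure_mono hcov
    _ ≤ ∑' q : Q, μ q.1 := measure_iUnion_le _
    _ ≤ ∑' q : Q, 1 * m := by
      apply ENNReal.tsum_le_tsum
      intro q
      rw [one_mul, hrepq q]
      exact hG _ (hrepG q)
    _ = (∑' _ : Q, (1 : ℝ≥0∞)) * m := ENNReal.tsum_mul_right
    _ ≤ _ := by gcongr

lemma continuous_codeI (I : Finset (Fin d)) : Continuous (S.codeI I) := by
  apply continuous_pi
  intro j
  exact (continuous_apply (j : Fin d)).comp S.continuous_code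

lemma dimH_codeI_image_le (I : Finset (Fin d)) (A : Set (ℕ → S.E)) :
    dimH (S.codeI I '' A) ≤ dimH (S.code '' A) := by
  have h1 : S.codeI I '' A = (fun (x : Fin d → ℝ) (j : I) => x j) '' (S.code '' A) := by
    rw [image_image]; rfl
  rw [h1]
  have h2 : LipschitzWith 1 (fun (x : Fin d → ℝ) (j : I) => x j) := by
    apply LipschitzWith.of_edist_le
    intro x y
    rw [edist_pi_le_iff]
    intro j
    exact edist_le_pi_edist x y j
  exact h2.dimH_image_le _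

theorem le_dimH_code_image (μ : Measure (ℕ → S.E)) [IsFiniteMeasure μ] (I : Finset (Fin d))
    (s : ℝ≥0) (A G : Set (ℕ → S.E)) (C : ℝ≥0) (B₀ : ℕ)
    (hG : ∀ ω ∈ G, ∀ B : ℕ, B₀ ≤ B → μ (S.cellI I B ω) ≤ C * ((2 : ℝ≥0∞)⁻¹ ^ B) ^ (s : ℝ))
    (hAG : μ (A ∩ G) ≠ 0) : (s : ℝ≥0∞) ≤ dimH (S.code '' A) := by
  rcases eq_or_ne s 0 with rfl | hs
  · simp
  have hs0 : 0 < (s : ℝ) := by
    have : 0 < s := pos_iff_ne_zero.2 hs
    exact_mod_cast this
  refine le_trans ?_ (S.dimH_codeI_image_le I A)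
  obtain ⟨x, y, hx, hy, hxy⟩ := S.exists_X_bounds
  set K : ℝ≥0 := ((4 * 2 ^ y) ^ I.card : ℝ).toNNReal with hK
  have hKeq : ENNReal.ofReal ((4 * 2 ^ y) ^ I.card) = (K : ℝ≥0∞) := rfl
  set ν : Measure (I → ℝ) := (μ.restrict G).map (S.codeI I) with hν
  have hmeasI : Measurable (S.codeI I) := (S.continuous_codeI I).measurable
  have hmain : ∀ U : Set (I → ℝ), ∀ B : ℕ, B₀ ≤ B → ediam U ≤ (2 : ℝ≥0∞)⁻¹ ^ B →
      ν U ≤ K * (C * ((2 : ℝ≥0∞)⁻¹ ^ B) ^ (s : ℝ)) := by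
    intro U B hB hU
    calc ν U ≤ ν (closure U) := measure_mono subset_closure
      _ = μ.restrict G (S.codeI I ⁻¹' closure U) := by
        rw [hν, Measure.map_apply hmeasI isClosed_closure.measurableSet]
      _ = μ (S.codeI I ⁻¹' closure U ∩ G) := by
        rw [Measure.restrict_apply (hmeasI isClosed_closure.measurableSet)]
      _ = μ (G ∩ S.codeI I ⁻¹' closure U) := by rw [inter_comm]
      _ ≤ K * (C * ((2 : ℝ≥0∞)⁻¹ ^ B) ^ (s : ℝ)) := by
        rw [← hKeq]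
        apply S.measure_le_of_cells μ I (fun j a => (hxy j a).2) hy.le G B _
          (fun ω hω => hG ω hω B hB)
        rw [ediam_closure]
        exact hU
  apply le_dimH_of_measure ν s (K * C * 2 ^ (s : ℝ)) ((2 : ℝ≥0∞)⁻¹ ^ B₀)
    (ENNReal.pow_pos (by simp) _)
  · intro U hU
    have hhalf : (2 : ℝ≥0∞)⁻¹ < 1 := by rw [ENNReal.inv_lt_one]; norm_num
    rcases eq_or_ne (ediam U) 0 with h0 | h0
    · rw [h0, ENNReal.zero_rpow_of_pos hs0, mul_zero]
      have h1 : Tendsto (fun B : ℕ => (K : ℝ≥0∞) * (C * ((2 : ℝ≥0∞)⁻¹ ^ B) ^ (s : ℝ))) atTop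
          (𝓝 0) := by
        have h2 : ∀ B : ℕ, ((2 : ℝ≥0∞)⁻¹ ^ B) ^ (s : ℝ) = ((2 : ℝ≥0∞)⁻¹ ^ (s : ℝ)) ^ B := by
          intro B
          rw [← ENNReal.rpow_natCast, ← ENNReal.rpow_natCast, ← ENNReal.rpow_mul,
            ← ENNReal.rpow_mul, mul_comm]
        simp only [h2, ← mul_assoc]
        have h3 := ENNReal.tendsto_pow_atTop_nhds_zero_of_lt_one
          (ENNReal.rpow_lt_one hhalf hs0)
        have h4 := ENNReal.Tendsto.const_mul (a := (K : ℝ≥0∞) * C) h3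
          (Or.inr (ENNReal.mul_ne_top ENNReal.coe_ne_top ENNReal.coe_ne_top))
        rwa [mul_zero] at h4
      have h5 : ∀ᶠ B : ℕ in atTop, ν U ≤ (K : ℝ≥0∞) * (C * ((2 : ℝ≥0∞)⁻¹ ^ B) ^ (s : ℝ)) := by
        filter_upwards [eventually_ge_atTop B₀] with B hB
        apply hmain U B hB
        rw [h0]; exact bot_le
      exact ge_of_tendsto h1 h5
    · -- choose the scale
      have hex : ∃ B : ℕ, (2 : ℝ≥0∞)⁻¹ ^ (B + 1) < ediam U := by
        have h1 := ENNReal.tendsto_pow_atTop_nhds_zero_of_lt_one hhalf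
        have h2 := (h1.comp (tendsto_add_atTop_nat 1)).eventually_lt_const
          (pos_iff_ne_zero.2 h0)
        exact h2.exists
      classical
      set B1 := Nat.find hex with hB1
      have hB1' := Nat.find_spec hex
      have hex2 : ∃ B : ℕ, B₀ ≤ B ∧ ediam U ≤ (2 : ℝ≥0∞)⁻¹ ^ B ∧ (2 : ℝ≥0∞)⁻¹ ^ (B + 1) < ediam U := by
        rcases le_or_gt B₀ B1 with h | h
        · refine ⟨B1, h, ?_, hB1'⟩
          rcases Nat.eq_or_lt_of_le h with h2 | h2
          · rw [← h2]; exact hU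
          · have h3 : ¬ ((2 : ℝ≥0∞)⁻¹ ^ (B1 - 1 + 1) < ediam U) := Nat.find_min hex (by omega)
            rw [not_lt] at h3
            have h4 : B1 - 1 + 1 = B1 := by omega
            rwa [h4] at h3
        · refine ⟨B₀, le_rfl, hU, lt_of_le_of_lt ?_ hB1'⟩
          apply pow_le_pow_right_of_le_one' hhalf.le
          omega
      obtain ⟨B, hB, hB2, hB3⟩ := hex2
      refine (hmain U B hB hB2).trans ?_
      have h6 : ((2 : ℝ≥0∞)⁻¹ ^ B) ^ (s : ℝ) ≤ 2 ^ (s : ℝ) * ediam U ^ (s : ℝ) := by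
        rw [← ENNReal.mul_rpow_of_nonneg _ _ hs0.le]
        apply ENNReal.rpow_le_rpow _ hs0.le
        calc (2 : ℝ≥0∞)⁻¹ ^ B = 2 * (2 : ℝ≥0∞)⁻¹ ^ (B + 1) := by
              rw [pow_succ, mul_comm ((2 : ℝ≥0∞)⁻¹ ^ B), ← mul_assoc,
                ENNReal.mul_inv_cancel (by norm_num) (by norm_num), one_mul]
          _ ≤ 2 * ediam U := by gcongr
      calc (K : ℝ≥0∞) * (C * ((2 : ℝ≥0∞)⁻¹ ^ B) ^ (s : ℝ))
          ≤ K * (C * (2 ^ (s : ℝ) * ediam U ^ (s : ℝ))) := by gcongr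
        _ = ((K * C * 2 ^ (s : ℝ) : ℝ≥0) : ℝ≥0∞) * ediam U ^ (s : ℝ) := by
          push_cast
          rw [ENNReal.coe_rpow_of_nonneg _ hs0.le]
          push_cast
          ring
  · intro h0
    apply hAG
    have h1 : μ.restrict G (S.codeI I ⁻¹' (S.codeI I '' A)) ≤ ν (S.codeI I '' A) :=
      Measure.le_map_apply hmeasI.aemeasurable _
    rw [h0] at h1
    have h2 : μ (A ∩ G) ≤ μ.restrict G A := Measure.le_restrict_apply _ _
    have h3 : μ.restrict G A ≤ μ.restrict G (S.codeI I ⁻¹' (S.codeI I '' A)) :=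
      measure_mono (subset_preimage_image _ _)
    exact le_antisymm (h2.trans (h3.trans h1)) bot_le

theorem le_measureDim_code (μ : Measure (ℕ → S.E)) [IsProbabilityMeasure μ] (I : Finset (Fin d))
    (s : ℝ≥0)
    (h : ∀ᵐ ω ∂μ, ∀ᶠ B : ℕ in atTop, μ (S.cellI I B ω) ≤ ((2 : ℝ≥0∞)⁻¹ ^ B) ^ (s : ℝ)) :
    (s : ℝ≥0∞) ≤ measureDim (μ.map S.code) := by
  unfold measureDim
  refine le_iInf₂ fun T hT => ?_
  have h1 : μ (S.code ⁻¹' Tᶜ) = 0 :=
    le_antisymm ((Measure.le_map_apply S.measurable_code.aemeasurable _).trans hT.le) bot_le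
  set G : ℕ → Set (ℕ → S.E) := fun n =>
    {ω | ∀ B : ℕ, n ≤ B → μ (S.cellI I B ω) ≤ ((2 : ℝ≥0∞)⁻¹ ^ B) ^ (s : ℝ)} with hG
  have h2 : ∃ n, μ ((S.code ⁻¹' T) ∩ G n) ≠ 0 := by
    by_contra hcon
    push Not at hcon
    have h3 : μ (⋃ n, (S.code ⁻¹' T) ∩ G n) = 0 := measure_iUnion_null hcon
    have h4 : μ (univ : Set (ℕ → S.E)) ≤ 0 := by
      have h5 : (univ : Set (ℕ → S.E)) ⊆ (⋃ n, (S.code ⁻¹' T) ∩ G n) ∪ (S.code ⁻¹' Tᶜ) ∪
          {ω | ¬ ∀ᶠ B : ℕ in atTop, μ (S.cellI I B ω) ≤ ((2 : ℝ≥0∞)⁻¹ ^ B) ^ (s : ℝ)} := by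
        intro ω _
        by_cases hω1 : S.code ω ∈ T
        · by_cases hω2 : ∀ᶠ B : ℕ in atTop, μ (S.cellI I B ω) ≤ ((2 : ℝ≥0∞)⁻¹ ^ B) ^ (s : ℝ)
          · left; left
            obtain ⟨n, hn⟩ := eventually_atTop.1 hω2
            rw [mem_iUnion]
            exact ⟨n, hω1, hn⟩
          · right; exact hω2
        · left; right; exact hω1
      refine (measure_mono h5).trans ?_
      refine (measure_union_le _ _).trans ?_
      refine (add_le_add (measure_union_le _ _) le_rfl).trans ?_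
      rw [h3, h1]
      have : μ {ω | ¬ ∀ᶠ B : ℕ in atTop, μ (S.cellI I B ω) ≤ ((2 : ℝ≥0∞)⁻¹ ^ B) ^ (s : ℝ)} = 0 := h
      rw [this]; simp
    rw [measure_univ] at h4
    exact absurd h4 (by simp)
  obtain ⟨n, hn⟩ := h2
  have := S.le_dimH_code_image μ I s (S.code ⁻¹' T) (G n) 1 n
    (fun ω hω B hB => by simpa using hω B hB) hn
  exact this.trans (dimH_mono (image_preimage_subset _ _))

end Sponge

end Pool.Agent.FC9311
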