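import Mathlib

/-!
A Lagrange multiplier lemma with a continuous choice of the multiplier.
-/

namespace Pool.Agent.FC9311

open Set Filter Topology

/-- Between two sets of reals. -/
lemma exists_between_sets (A B : Set ℝ) (hAB : ∀ a ∈ A, ∀ b ∈ B, a ≤ b) (hA : BddAbove A)
    (hB : BddBelow B) : ∃ c : ℝ, (∀ a ∈ A, a ≤ c) ∧ (∀ b ∈ B, c ≤ b) := by
  rcases A.eq_empty_or_nonempty with h | h
  · rcases B.eq_empty_or_nonempty with h' | h'
    · exact ⟨0, by simp [h], by simp [h']⟩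
    · exact ⟨sInf B, by simp [h], fun b hb => csInf_le hB hb⟩
  · exact ⟨sSup A, fun a ha => le_csSup hA ha, fun b hb => csSup_le h (fun a ha => hAB a ha b hb)⟩

/-- Lagrange multiplier. -/
lemma exists_multiplier {F : Type*} [NormedAddCommGroup F] [NormedSpace ℝ F] (K : Set F)
    (hK : IsCompact K) (hKc : Convex ℝ K) (G ℓ : F → ℝ) (hG : ConcaveOn ℝ K G)
    (hGc : Continuous G) (hℓc : Continuous ℓ)
    (hℓ : ∀ p ∈ K, ∀ q ∈ K, ∀ a b : ℝ, 0 ≤ a → 0 ≤ b → a + b = 1 →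
      ℓ (a • p + b • q) = a * ℓ p + b * ℓ q)
    (ε : ℝ) (hε : 0 < ε) (h0 : ∀ p ∈ K, ℓ p = 0 → G p ≤ 0) :
    ∃ c : ℝ, ∀ p ∈ K, G p ≤ ε + c * ℓ p := by
  -- bound for G
  obtain ⟨M, hM⟩ : ∃ M : ℝ, ∀ p ∈ K, |G p| ≤ M := by
    obtain ⟨M, hM⟩ := hK.exists_bound_of_continuousOn hGc.continuousOn
    exact ⟨M, fun p hp => by simpa using hM p hp⟩
  -- near the zero set of ℓ, G is below ε
  obtain ⟨η, hη, hη2⟩ : ∃ η > 0, ∀ p ∈ K, |ℓ p| < η → G p < ε := by
    have hC : IsCompact (K ∩ {p | ε ≤ G p}) :=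
      hK.inter_right (isClosed_le continuous_const hGc)
    rcases (K ∩ {p | ε ≤ G p}).eq_empty_or_nonempty with h | h
    · refine ⟨1, one_pos, fun p hp _ => ?_⟩
      by_contra hcon
      have : p ∈ K ∩ {p | ε ≤ G p} := ⟨hp, not_lt.1 hcon⟩
      rw [h] at this
      exact this
    · obtain ⟨p₀, hp₀, hmin⟩ := hC.exists_isMinOn h (continuous_abs.comp hℓc).continuousOn
      refine ⟨|ℓ p₀|, ?_, ?_⟩
      · rw [gt_iff_lt, abs_pos]
        intro h1
        have := h0 p₀ hp₀.1 h1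
        have h2 : ε ≤ G p₀ := hp₀.2
        linarith
      · intro p hp hlt
        by_contra hcon
        have h1 : p ∈ K ∩ {p | ε ≤ G p} := ⟨hp, not_lt.1 hcon⟩
        have h2 := hmin h1
        simp only [mem_ofPred_eq, Function.comp] at h2
        linarith
  set A : Set ℝ := {x | ∃ p ∈ K, 0 < ℓ p ∧ x = (G p - ε) / ℓ p} with hA
  set B : Set ℝ := {x | ∃ p ∈ K, ℓ p < 0 ∧ x = (G p - ε) / ℓ p} with hB
  have hM0 : ∀ p ∈ K, G p ≤ M := fun p hp => (le_abs_self _).trans (hM p hp)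
  have hMnn : ∀ p ∈ K, 0 ≤ M := fun p hp => (abs_nonneg _).trans (hM p hp)
  obtain ⟨c, hc1, hc2⟩ := exists_between_sets A B (by
    rintro a ⟨p, hp, hp0, rfl⟩ b ⟨q, hq, hq0, rfl⟩
    -- convex combination with ℓ = 0
    have hs : 0 < ℓ p - ℓ q := by linarith
    set α := -ℓ q / (ℓ p - ℓ q) with hα
    set β := ℓ p / (ℓ p - ℓ q) with hβ
    have hα0 : 0 ≤ α := div_nonneg (by linarith) hs.le
    have hβ0 : 0 ≤ β := div_nonneg (by linarith) hs.le
    have hαβ : α + β = 1 := by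
      rw [hα, hβ, ← add_div, div_eq_one_iff_eq hs.ne']; ring
    have h1 : ℓ (α • p + β • q) = 0 := by
      rw [hℓ p hp q hq α β hα0 hβ0 hαβ, hα, hβ]
      field_simp
      ring
    have h2 := h0 _ (hKc hp hq hα0 hβ0 hαβ) h1
    have h3 := hG.2 hp hq hα0 hβ0 hαβ
    simp only [smul_eq_mul] at h3
    have h4 : α * (G p - ε) + β * (G q - ε) ≤ 0 := by nlinarith
    have h5 : -ℓ q * (G p - ε) + ℓ p * (G q - ε) ≤ 0 := by
      have : α * (G p - ε) + β * (G q - ε)
          = (-ℓ q * (G p - ε) + ℓ p * (G q - ε)) / (ℓ p - ℓ q) := by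
        rw [hα, hβ]; field_simp
      rw [this] at h4
      by_contra hcon
      rw [not_le] at hcon
      have := div_pos hcon hs
      linarith
    rw [div_le_iff₀ hp0]
    have h6 : (G q - ε) / ℓ q * ℓ p = (ℓ p * (G q - ε)) / ℓ q := by ring
    rw [h6, le_div_iff_of_neg hq0]
    nlinarith) (by
    refine ⟨M / η, ?_⟩
    rintro a ⟨p, hp, hp0, rfl⟩
    rw [div_le_iff₀ hp0]
    by_cases h1 : |ℓ p| < η
    · have := hη2 p hp h1
      have h2 : 0 ≤ M / η := div_nonneg (hMnn p hp) hη.le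
      nlinarith [mul_nonneg h2 hp0.le]
    · rw [not_lt, abs_of_pos hp0] at h1
      have h2 : M / η * ℓ p ≥ M / η * η :=
        mul_le_mul_of_nonneg_left h1 (div_nonneg (hMnn p hp) hη.le)
      rw [div_mul_cancel₀ _ hη.ne'] at h2
      linarith [hM0 p hp]) (by
    refine ⟨-(M / η), ?_⟩
    rintro a ⟨p, hp, hp0, rfl⟩
    rw [le_div_iff_of_neg hp0]
    by_cases h1 : |ℓ p| < η
    · have := hη2 p hp h1
      have h2 : 0 ≤ M / η := div_nonneg (hMnn p hp) hη.le
      nlinarith [mul_nonneg h2 (neg_nonneg.2 hp0.le)]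
    · rw [not_lt, abs_of_neg hp0] at h1
      have h2 : M / η * (-ℓ p) ≥ M / η * η :=
        mul_le_mul_of_nonneg_left h1 (div_nonneg (hMnn p hp) hη.le)
      rw [div_mul_cancel₀ _ hη.ne'] at h2
      linarith [hM0 p hp])
  refine ⟨c, fun p hp => ?_⟩
  rcases lt_trichotomy (ℓ p) 0 with h | h | h
  · have := hc2 _ ⟨p, hp, h, rfl⟩
    rw [le_div_iff_of_neg h] at this
    linarith
  · rw [h, mul_zero, add_zero]
    exact (h0 p hp h).trans hε.le
  · have := hc1 _ ⟨p, hp, h, rfl⟩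
    rw [div_le_iff₀ h] at this
    linarith

/-- A continuous family of multipliers. -/
lemma exists_cont_multiplier {F : Type*} [NormedAddCommGroup F] [NormedSpace ℝ F] (K : Set F)
    (hK : IsCompact K) (hKc : Convex ℝ K) (G ℓ : ℝ → F → ℝ) (hG : ∀ u, ConcaveOn ℝ K (G u))
    (hGc : Continuous (fun z : ℝ × F => G z.1 z.2)) (hℓc : Continuous (fun z : ℝ × F => ℓ z.1 z.2))
    (hℓ : ∀ u, ∀ p ∈ K, ∀ q ∈ K, ∀ a b : ℝ, 0 ≤ a → 0 ≤ b → a + b = 1 →
      ℓ u (a • p + b • q) = a * ℓ u p + b * ℓ u q)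
    (ε : ℝ) (hε : 0 < ε) (h0 : ∀ u, ∀ p ∈ K, ℓ u p = 0 → G u p ≤ 0) :
    ∃ c : C(ℝ, ℝ), ∀ u, ∀ p ∈ K, G u p ≤ ε + c u * ℓ u p := by
  have := exists_continuous_forall_mem_convex_of_local_const
    (t := fun u : ℝ => {c : ℝ | ∀ p ∈ K, G u p ≤ ε + c * ℓ u p}) (fun u => by
      intro c hc c' hc' a b ha hb hab p hp
      have h1 := hc p hp
      have h2 := hc' p hp
      simp only [smul_eq_mul]
      calc G u p = a * G u p + b * G u p := by rw [← add_mul, hab, one_mul]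
        _ ≤ a * (ε + c * ℓ u p) + b * (ε + c' * ℓ u p) :=
          add_le_add (mul_le_mul_of_nonneg_left h1 ha) (mul_le_mul_of_nonneg_left h2 hb)
        _ = (a + b) * ε + (a * c + b * c') * ℓ u p := by ring
        _ = _ := by rw [hab, one_mul]) (fun u => by
      obtain ⟨c, hc⟩ := exists_multiplier K hK hKc (G u) (ℓ u) (hG u)
        (hGc.comp (Continuous.prodMk_right u)) (hℓc.comp (Continuous.prodMk_right u)) (hℓ u)
        (ε / 2) (half_pos hε) (h0 u)
      refine ⟨c, ?_⟩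
      have h1 := hK.eventually_forall_of_forall_eventually (x₀ := u)
        (P := fun v p => G v p < ε + c * ℓ v p) (fun p hp => by
          have h2 : G u p < ε + c * ℓ u p := by
            have := hc p hp
            linarith
          exact (hGc.tendsto (u, p)).eventually_lt
            ((continuous_const.add (continuous_const.mul hℓc)).tendsto (u, p)) h2)
      filter_upwards [h1] with v hv p hp
      exact (hv p hp).le)
  exact this

end Pool.Agent.FC9311
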