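import Pool.Agent.FC9311.Bern

/-!
A Shearer type inequality for entropies of coordinate projections.
-/

namespace Pool.Agent.FC9311

open MeasureTheory Filter Topology Set ProbabilityTheory
open scoped ENNReal NNReal

namespace Sponge

variable {d : ℕ} (S : Sponge d)

lemma rel_insert (x : Fin d) (I : Finset (Fin d)) :
    (fun a b => S.rel I a b ∧ S.rel {x} a b) = S.rel (insert x I) := by
  funext a b
  apply propext
  unfold rel
  constructor
  · rintro ⟨h1, h2⟩ j hj
    rw [Finset.mem_insert] at hj
    rcases hj with rfl | hj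
    · exact h2 _ (by simp)
    · exact h1 j hj
  · intro h
    refine ⟨fun j hj => h j (Finset.mem_insert_of_mem hj), fun j hj => ?_⟩
    rw [Finset.mem_singleton] at hj
    subst hj
    exact h j (Finset.mem_insert_self _ _)

lemma ssa (I J : Finset (Fin d)) (hJI : J ⊆ I) (x : Fin d) (p : stdSimplex ℝ S.E) :
    Hr (S.rel (insert x I)) p.1 + Hr (S.rel J) p.1
      ≤ Hr (S.rel I) p.1 + Hr (S.rel (insert x J)) p.1 := by
  have := Hr_ssa (S.rel_equiv I) (S.rel_equiv J) (S.rel_equiv {x})
    (fun a b h j hj => h j (hJI hj)) p.2.1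
  rwa [S.rel_insert, S.rel_insert] at this

lemma Hr_empty (p : stdSimplex ℝ S.E) : Hr (S.rel ∅) p.1 = 0 := by
  rw [Hr_eq (S.rel_equiv ∅)]
  apply Finset.sum_eq_zero
  intro e _
  have : Pr (S.rel ∅) p.1 e = 1 := by
    unfold Pr
    rw [← p.2.2]
    apply Finset.sum_congr rfl
    intro x _
    rw [if_pos]
    intro i hi
    simp at hi
  rw [this, Real.logb_one, neg_zero, mul_zero]

lemma card_pairs (x : Fin d) :
    ((Finset.univ : Finset (Fin d)).offDiag.filter (fun q => x ∈ ({q.1, q.2} : Finset (Fin d)))).card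
      = 2 * (d - 1) := by
  classical
  have h1 : (Finset.univ : Finset (Fin d)).offDiag.filter
      (fun q => x ∈ ({q.1, q.2} : Finset (Fin d)))
      = (Finset.univ.erase x).image (fun k => (x, k)) ∪ (Finset.univ.erase x).image (fun j => (j, x)) := by
    ext ⟨j, k⟩
    simp only [Finset.mem_filter, Finset.mem_offDiag, Finset.mem_univ, true_and, Finset.mem_insert,
      Finset.mem_singleton, Finset.mem_union, Finset.mem_image, Finset.mem_erase, Prod.mk.injEq,
      and_true]
    constructor
    · rintro ⟨h1, rfl | rfl⟩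
      · left; exact ⟨k, fun h => h1 h.symm, rfl, rfl⟩
      · right; exact ⟨j, h1, rfl, rfl⟩
    · rintro (⟨a, ha, rfl, rfl⟩ | ⟨a, ha, rfl, rfl⟩)
      · exact ⟨fun h => ha h.symm, Or.inl rfl⟩
      · exact ⟨ha, Or.inr rfl⟩
  rw [h1, Finset.card_union_of_disjoint, Finset.card_image_of_injective, Finset.card_image_of_injective,
    Finset.card_erase_of_mem (Finset.mem_univ x), Finset.card_univ, Fintype.card_fin]
  · omega
  · intro a b h; simpa using h
  · intro a b h; simpa using h
  · rw [Finset.disjoint_left]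
    rintro ⟨j, k⟩ h2 h3
    simp only [Finset.mem_image, Finset.mem_erase, Finset.mem_univ, and_true, Prod.mk.injEq] at h2 h3
    obtain ⟨a, ha, rfl, rfl⟩ := h2
    obtain ⟨b, hb, hb2, _⟩ := h3
    exact hb hb2

/-- Shearer's inequality for pairs. -/
theorem shearer (I : Finset (Fin d)) (p : stdSimplex ℝ S.E) :
    (2 * (d - 1) : ℕ) * Hr (S.rel I) p.1
      ≤ ∑ q ∈ (Finset.univ : Finset (Fin d)).offDiag, Hr (S.rel ({q.1, q.2} ∩ I)) p.1 := by
  classical
  induction I using Finset.induction_on with
  | empty =>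
    rw [Hr_empty, mul_zero]
    apply Finset.sum_nonneg
    intro q _
    exact Hr_nonneg (S.rel_equiv _) p.2
  | insert x I hx ih =>
    set c := Hr (S.rel (insert x I)) p.1 - Hr (S.rel I) p.1 with hc
    have h1 : ∀ q ∈ (Finset.univ : Finset (Fin d)).offDiag,
        Hr (S.rel ({q.1, q.2} ∩ I)) p.1 + (if x ∈ ({q.1, q.2} : Finset (Fin d)) then c else 0)
          ≤ Hr (S.rel ({q.1, q.2} ∩ insert x I)) p.1 := by
      intro q _
      by_cases h : x ∈ ({q.1, q.2} : Finset (Fin d))
      · rw [if_pos h, Finset.inter_insert_of_mem h]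
        have := S.ssa I ({q.1, q.2} ∩ I) Finset.inter_subset_right x p
        rw [hc]
        linarith
      · rw [if_neg h, Finset.inter_insert_of_notMem h, add_zero]
    have h2 := Finset.sum_le_sum h1
    rw [Finset.sum_add_distrib, Finset.sum_ite, Finset.sum_const, Finset.sum_const_zero, add_zero,
      card_pairs, nsmul_eq_mul] at h2
    have h3 : Hr (S.rel (insert x I)) p.1 = Hr (S.rel I) p.1 + c := by rw [hc]; ring
    rw [h3, mul_add]
    linarith

end Sponge

end Pool.Agent.FC9311
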