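import Pool.Agent.FC9311.Univ
import Pool.Agent.FC9311.Shear
import Pool.Agent.FC9311.Pot
import Pool.Agent.FC9311.LogAvg

/-!
Logarithmic average for a pair of coordinates.
-/

namespace Pool.Agent.FC9311

open MeasureTheory Filter Topology Set ProbabilityTheory
open scoped ENNReal NNReal

lemma tail_sum (z : ℝ) (hz : 0 < z) (B₁ : ℕ) :
    ∑ B ∈ (Finset.Icc 1 B₁).filter (fun B : ℕ => z < B), 1 / ((B : ℝ) * (B + 1)) ≤ 1 / z := by
  set b := ⌊z⌋₊ + 1 with hb
  have hb0 : 1 ≤ b := by omega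
  have hzb : z < b := by
    rw [hb]; push_cast; exact Nat.lt_floor_add_one z
  have hsub : (Finset.Icc 1 B₁).filter (fun B : ℕ => z < B) ⊆ Finset.Ico b (max b (B₁ + 1)) := by
    intro B hB
    rw [Finset.mem_filter, Finset.mem_Icc] at hB
    rw [Finset.mem_Ico]
    refine ⟨?_, lt_of_lt_of_le (Nat.lt_succ_of_le hB.1.2) (le_max_right _ _)⟩
    have := Nat.floor_lt hz.le |>.2 hB.2
    omega
  have htel : ∀ n : ℕ, b ≤ n → ∑ B ∈ Finset.Ico b n, 1 / ((B : ℝ) * (B + 1)) = 1 / b - 1 / n := by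
    intro n hn
    induction n, hn using Nat.le_induction with
    | base => simp
    | succ n hn ih =>
      rw [Finset.sum_Ico_succ_top hn, ih]
      have hn0 : (0 : ℝ) < n := by
        have : 0 < n := by omega
        exact_mod_cast this
      push_cast
      field_simp
      ring
  calc ∑ B ∈ (Finset.Icc 1 B₁).filter (fun B : ℕ => z < B), 1 / ((B : ℝ) * (B + 1))
      ≤ ∑ B ∈ Finset.Ico b (max b (B₁ + 1)), 1 / ((B : ℝ) * (B + 1)) :=
        Finset.sum_le_sum_of_subset_of_nonneg hsub (fun _ _ _ => by positivity)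
    _ = 1 / b - 1 / (max b (B₁ + 1) : ℕ) := htel _ (le_max_left _ _)
    _ ≤ 1 / b := by
      have : (0 : ℝ) ≤ 1 / (max b (B₁ + 1) : ℕ) := by positivity
      linarith
    _ ≤ 1 / z := one_div_le_one_div_of_le hz hzb.le

lemma total_sum (B₁ : ℕ) : ∑ B ∈ Finset.Icc 1 B₁, 1 / ((B : ℝ) * (B + 1)) ≤ 1 := by
  have htel : ∀ n : ℕ, ∑ B ∈ Finset.Icc 1 n, 1 / ((B : ℝ) * (B + 1)) = 1 - 1 / (n + 1) := by
    intro n
    induction n with
    | zero => simp
    | succ n ih =>
      rw [Finset.sum_Icc_succ_top (by omega), ih]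
      push_cast
      field_simp
      ring
  rw [htel]
  have : (0 : ℝ) ≤ 1 / ((B₁ : ℝ) + 1) := by positivity
  linarith

namespace Sponge

variable {d : ℕ} (S : Sponge d)

/-- the normalised reward. -/
noncomputable def rew (j k : Fin d) (u : ℝ) (p : S.E → ℝ) : ℝ :=
  Hr (S.rel {j, k}) p * min 1 (Real.exp (-u))
    + Hr (S.rel {j}) p * (1 - min 1 (Real.exp (-u)))
    + Hr (S.rel {k}) p * (Real.exp (-u) - min 1 (Real.exp (-u)))

lemma chi_lin (j : Fin d) (p q : S.E → ℝ) (a b : ℝ) :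
    S.chi j (a • p + b • q) = a * S.chi j p + b * S.chi j q := by
  unfold chi
  rw [Finset.mul_sum, Finset.mul_sum, ← Finset.sum_add_distrib]
  apply Finset.sum_congr rfl
  intro e _
  simp only [Pi.add_apply, Pi.smul_apply, smul_eq_mul]
  ring

lemma continuous_chi (j : Fin d) : Continuous (S.chi j) := by
  unfold chi
  apply continuous_finsetSum
  intro e _
  exact (continuous_apply e).mul continuous_const

lemma rew_eq (j k : Fin d) (u : ℝ) (p : stdSimplex ℝ S.E)
    (h : Real.exp (-u) * S.chi k p.1 = S.chi j p.1) :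
    S.rew j k u p.1 = S.delta j k p.1 * S.chi j p.1 := by
  have hj := S.chi_pos j p
  have hk := S.chi_pos k p
  have h1 : (S.chi k p.1)⁻¹ * S.chi j p.1 = Real.exp (-u) := by
    rw [← h]; field_simp
  have h2 : min (S.chi j p.1)⁻¹ (S.chi k p.1)⁻¹ * S.chi j p.1 = min 1 (Real.exp (-u)) := by
    rw [min_mul_of_nonneg _ _ hj.le, h1, inv_mul_cancel₀ hj.ne']
  unfold rew delta
  rw [← h2, ← h1]
  field_simp

lemma exists_pot (j k : Fin d) (m : ℝ) (hm : ∀ p : stdSimplex ℝ S.E, S.delta j k p.1 ≤ m)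
    (ε : ℝ) (hε : 0 < ε) :
    ∃ c : C(ℝ, ℝ), ∀ u, ∀ p ∈ stdSimplex ℝ S.E, S.rew j k u p ≤ m * S.chi j p + ε
      + c u * (Real.exp (-u) * S.chi k p - S.chi j p) := by
  have hexp : Continuous (fun z : ℝ × (S.E → ℝ) => Real.exp (-z.1)) :=
    Real.continuous_exp.comp continuous_fst.neg
  have hmin : Continuous (fun z : ℝ × (S.E → ℝ) => min 1 (Real.exp (-z.1))) :=
    continuous_const.min hexp
  have hH : ∀ I : Finset (Fin d), Continuous (fun z : ℝ × (S.E → ℝ) => Hr (S.rel I) z.2) :=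
    fun I => (continuous_Hr _).comp continuous_snd
  have hchi : ∀ i : Fin d, Continuous (fun z : ℝ × (S.E → ℝ) => S.chi i z.2) :=
    fun i => (S.continuous_chi i).comp continuous_snd
  obtain ⟨c, hc⟩ := exists_cont_multiplier (stdSimplex ℝ S.E) (isCompact_stdSimplex ℝ S.E)
    (convex_stdSimplex ℝ S.E) (fun u p => S.rew j k u p - m * S.chi j p)
    (fun u p => Real.exp (-u) * S.chi k p - S.chi j p)
    (fun u => by
      have e0 : 0 ≤ min 1 (Real.exp (-u)) := le_min zero_le_one (Real.exp_pos _).le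
      have e1 : 0 ≤ 1 - min 1 (Real.exp (-u)) := sub_nonneg.2 (min_le_left _ _)
      have e2 : 0 ≤ Real.exp (-u) - min 1 (Real.exp (-u)) := sub_nonneg.2 (min_le_right _ _)
      refine ⟨convex_stdSimplex ℝ S.E, ?_⟩
      intro p hp q hq a b ha hb hab
      have h1 := (concave_Hr (S.rel_equiv {j, k})).2 hp hq ha hb hab
      have h2 := (concave_Hr (S.rel_equiv {j})).2 hp hq ha hb hab
      have h3 := (concave_Hr (S.rel_equiv {k})).2 hp hq ha hb hab
      simp only [smul_eq_mul] at h1 h2 h3 ⊢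
      rw [chi_lin]
      unfold rew
      have g1 := mul_le_mul_of_nonneg_right h1 e0
      have g2 := mul_le_mul_of_nonneg_right h2 e1
      have g3 := mul_le_mul_of_nonneg_right h3 e2
      linarith)
    (by
      unfold rew
      exact ((((hH _).mul hmin).add ((hH _).mul (continuous_const.sub hmin))).add
        ((hH _).mul (hexp.sub hmin))).sub (continuous_const.mul (hchi j)))
    ((hexp.mul (hchi k)).sub (hchi j))
    (fun u p _ q _ a b _ _ _ => by
      rw [chi_lin, chi_lin]; ring)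
    ε hε
    (fun u p hp h0 => by
      have h1 : Real.exp (-u) * S.chi k p = S.chi j p := by linarith
      have h2 := S.rew_eq j k u ⟨p, hp⟩ h1
      simp only at h2
      rw [h2]
      have h3 := hm ⟨p, hp⟩
      have h4 := S.chi_pos j ⟨p, hp⟩
      simp only at h3 h4
      nlinarith)
  refine ⟨c, fun u p hp => ?_⟩
  have := hc u p hp
  linarith

/-- accumulated exponent at the beginning of blocks. -/
lemma L_block (N : ℕ) (hN : 1 ≤ N) (j : Fin d) (ω : ℕ → S.E) (i : ℕ) :
    S.L j ω ((i + 1) * N) = S.L j ω (i * N) + N * S.chi j (S.emp (S.blk N ω i)) := by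
  have h1 : (i + 1) * N = i * N + N := by ring
  rw [h1]
  unfold L chi
  rw [S.sum_emp hN (S.blk N ω i) (fun e => S.X j (e.1 j)), Finset.sum_range_add,
    ← Fin.sum_univ_eq_sum_range (fun t => S.X j ((ω (i * N + t)).1 j)) N]
  rfl

/-- weight of block `i` for the pair `(j, k)`. -/
noncomputable def Wt (N : ℕ) (j k : Fin d) (ω : ℕ → S.E) (i : ℕ) : ℝ :=
  N * (Hr (S.rel {j, k}) (S.emp (S.blk N ω i))
      * min (1 / S.L j ω (i * N)) (1 / S.L k ω (i * N))
    + Hr (S.rel {j}) (S.emp (S.blk N ω i))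
      * (1 / S.L j ω (i * N) - min (1 / S.L j ω (i * N)) (1 / S.L k ω (i * N)))
    + Hr (S.rel {k}) (S.emp (S.blk N ω i))
      * (1 / S.L k ω (i * N) - min (1 / S.L j ω (i * N)) (1 / S.L k ω (i * N))))

theorem pair_avg (j k : Fin d) (m : ℝ) (hm0 : 0 ≤ m)
    (hm : ∀ p : stdSimplex ℝ S.E, S.delta j k p.1 ≤ m) (N : ℕ) (hN : 1 ≤ N) (ω : ℕ → S.E)
    (ε : ℝ) (hε : 0 < ε) :
    ∃ C : ℝ, ∀ M : ℕ, ∑ i ∈ Finset.Icc 1 M, S.Wt N j k ω i
      ≤ (m + ε) * Real.log ((M : ℝ) + 1) + C := by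
  obtain ⟨x, y, hx, hy, hxy⟩ := S.exists_X_bounds
  have hN0 : (0 : ℝ) < N := by exact_mod_cast hN
  set ε₁ := ε / 2 * x with hε₁
  have hε₁0 : 0 < ε₁ := by positivity
  obtain ⟨c, hc⟩ := S.exists_pot j k m hm ε₁ hε₁0
  have hchi : ∀ (i : Fin d) (p : S.E → ℝ), p ∈ stdSimplex ℝ S.E → x ≤ S.chi i p ∧ S.chi i p ≤ y := by
    intro i p hp
    constructor
    · calc x = ∑ e, p e * x := by rw [← Finset.sum_mul, hp.2, one_mul]
        _ ≤ _ := Finset.sum_le_sum (fun e _ => mul_le_mul_of_nonneg_left (hxy i _).1 (hp.1 e))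
    · calc S.chi i p ≤ ∑ e, p e * y :=
            Finset.sum_le_sum (fun e _ => mul_le_mul_of_nonneg_left (hxy i _).2 (hp.1 e))
        _ = y := by rw [← Finset.sum_mul, hp.2, one_mul]
  have hbd : ∀ (i' : Fin d) (i : ℕ), N * x ≤ (N : ℝ) * S.chi i' (S.emp (S.blk N ω i)) ∧
      (N : ℝ) * S.chi i' (S.emp (S.blk N ω i)) ≤ N * y := by
    intro i' i
    have := hchi i' _ (S.emp_mem hN (S.blk N ω i))
    exact ⟨mul_le_mul_of_nonneg_left this.1 hN0.le, mul_le_mul_of_nonneg_left this.2 hN0.le⟩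
  obtain ⟨C, hC⟩ := log_avg (fun i => S.L j ω (i * N)) (fun i => S.L k ω (i * N))
    (fun i => N * S.chi j (S.emp (S.blk N ω i))) (fun i => N * S.chi k (S.emp (S.blk N ω i)))
    (fun i => S.Wt N j k ω i) (N * x) (N * y) (by positivity)
    (by simp [L_zero]) (fun i => S.L_block N hN j ω i) (hbd j)
    (by simp [L_zero]) (fun i => S.L_block N hN k ω i) (hbd k) m hm0 c (ε / 2) (by positivity)
    (fun i hi => by
      have hi0 : (0 : ℝ) < i := by exact_mod_cast hi
      have hiN : (0 : ℝ) < ((i * N : ℕ) : ℝ) := by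
        push_cast; positivity
      have hA : ((i * N : ℕ) : ℝ) * x ≤ S.L j ω (i * N) :=
        S.mul_le_L (fun j a => (hxy j a).1) j ω (i * N)
      have hB : ((i * N : ℕ) : ℝ) * x ≤ S.L k ω (i * N) :=
        S.mul_le_L (fun j a => (hxy j a).1) k ω (i * N)
      have hA0 : 0 < S.L j ω (i * N) := (mul_pos hiN hx).trans_le hA
      have hB0 : 0 < S.L k ω (i * N) := (mul_pos hiN hx).trans_le hB
      set A := S.L j ω (i * N) with hAdef
      set B := S.L k ω (i * N) with hBdef
      set p := S.emp (S.blk N ω i) with hp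
      have hpm : p ∈ stdSimplex ℝ S.E := S.emp_mem hN _
      have hexp : Real.exp (-(Real.log B - Real.log A)) = A / B := by
        rw [neg_sub, Real.exp_sub, Real.exp_log hA0, Real.exp_log hB0]
      have h1 := hc (Real.log B - Real.log A) p hpm
      unfold rew at h1
      rw [hexp] at h1
      have hmin : min (1 / A) (1 / B) = min 1 (A / B) / A := by
        rw [← min_div_div_right hA0.le]
        congr 1
        field_simp
      unfold Wt
      rw [← hAdef, ← hBdef, ← hp, hmin]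
      have h2 := mul_le_mul_of_nonneg_left h1 (div_pos hN0 hA0).le
      have e1 : N * (Hr (S.rel {j, k}) p * (min 1 (A / B) / A)
          + Hr (S.rel {j}) p * (1 / A - min 1 (A / B) / A)
          + Hr (S.rel {k}) p * (1 / B - min 1 (A / B) / A))
          = (N : ℝ) / A * (Hr (S.rel {j, k}) p * min 1 (A / B)
          + Hr (S.rel {j}) p * (1 - min 1 (A / B))
          + Hr (S.rel {k}) p * (A / B - min 1 (A / B))) := by
        field_simp
      rw [e1]
      refine h2.trans ?_
      have e2 : (N : ℝ) / A * ε₁ ≤ ε / 2 / i := by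
        rw [hε₁, div_mul_eq_mul_div, div_le_div_iff₀ hA0 hi0]
        push_cast at hA
        have := mul_le_mul_of_nonneg_left hA (show (0:ℝ) ≤ ε / 2 by positivity)
        nlinarith
      have e3 : (N : ℝ) / A * (m * S.chi j p + ε₁ + c (Real.log B - Real.log A) *
          (A / B * S.chi k p - S.chi j p))
          = m * (N * S.chi j p / A) + (N : ℝ) / A * ε₁ + c (Real.log B - Real.log A) *
          (N * S.chi k p / B - N * S.chi j p / A) := by
        field_simp
      rw [e3]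
      linarith)
    (ε / 2) (by positivity)
  refine ⟨C, fun M => ?_⟩
  have := hC M
  have h1 : m + ε / 2 + ε / 2 = m + ε := by ring
  rw [h1] at this
  exact this

end Sponge

end Pool.Agent.FC9311
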