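import Pool.Agent.FC9311.Bern

/-!
A universal measure.
-/

namespace Pool.Agent.FC9311

open MeasureTheory Filter Topology Set ProbabilityTheory
open scoped ENNReal NNReal

namespace Sponge

variable {d : ℕ} (S : Sponge d)

open Classical in
/-- Number of occurrences of a symbol in a word. -/
noncomputable def cnt {N : ℕ} (w : Fin N → S.E) (e : S.E) : ℕ :=
  (Finset.univ.filter (fun s => w s = e)).card

/-- Empirical distribution of a word. -/
noncomputable def emp {N : ℕ} (w : Fin N → S.E) (e : S.E) : ℝ := (S.cnt w e : ℝ) / N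

lemma sum_cnt {N : ℕ} (w : Fin N → S.E) : ∑ e, S.cnt w e = N := by
  classical
  unfold cnt
  have := Finset.card_eq_sum_card_fiberwise (f := w) (s := Finset.univ) (t := Finset.univ)
    (fun _ _ => by simp)
  rw [Finset.card_univ, Fintype.card_fin] at this
  exact this.symm

lemma emp_mem {N : ℕ} (hN : 1 ≤ N) (w : Fin N → S.E) : S.emp w ∈ stdSimplex ℝ S.E := by
  have hN0 : (N : ℝ) ≠ 0 := by
    have : N ≠ 0 := by omega
    exact_mod_cast this
  refine ⟨fun e => div_nonneg (Nat.cast_nonneg _) (Nat.cast_nonneg _), ?_⟩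
  unfold emp
  rw [← Finset.sum_div, ← Nat.cast_sum, sum_cnt, div_self hN0]

lemma sum_emp {N : ℕ} (hN : 1 ≤ N) (w : Fin N → S.E) (f : S.E → ℝ) :
    (N : ℝ) * ∑ e, S.emp w e * f e = ∑ s, f (w s) := by
  classical
  have hN0 : (N : ℝ) ≠ 0 := by
    have : N ≠ 0 := by omega
    exact_mod_cast this
  rw [Finset.mul_sum]
  have h1 : ∀ e, (N : ℝ) * (S.emp w e * f e) = ∑ s, if w s = e then f e else 0 := by
    intro e
    unfold emp cnt
    rw [Finset.sum_ite, Finset.sum_const, Finset.sum_const_zero, add_zero, nsmul_eq_mul]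
    field_simp
  simp only [h1]
  rw [Finset.sum_comm]
  apply Finset.sum_congr rfl
  intro s _
  rw [Finset.sum_ite_eq]
  simp

lemma emp_pos {N : ℕ} (hN : 1 ≤ N) (w : Fin N → S.E) (s : Fin N) : 0 < S.emp w (w s) := by
  classical
  have hN0 : (0 : ℝ) < N := by exact_mod_cast hN
  apply div_pos _ hN0
  have : 0 < S.cnt w (w s) := by
    unfold cnt
    apply Finset.card_pos.2
    exact ⟨s, by simp⟩
  exact_mod_cast this

lemma prod_Pr_emp {N : ℕ} (hN : 1 ≤ N) (w : Fin N → S.E) (I : Finset (Fin d)) :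
    ∏ s, Pr (S.rel I) (S.emp w) (w s) = 2 ^ (-((N : ℝ) * Hr (S.rel I) (S.emp w))) := by
  have hp := S.emp_mem hN w
  rw [Hr_eq (S.rel_equiv I), S.sum_emp hN w, ← Finset.sum_neg_distrib,
    Real.rpow_sum_of_pos (by norm_num)]
  apply Finset.prod_congr rfl
  intro s _
  rw [neg_neg, Real.rpow_logb (by norm_num) (by norm_num)]
  exact (S.emp_pos hN w s).trans_le (le_Pr (S.rel_equiv I) hp.1 _)

open Classical in
/-- The set of types (empirical distributions). -/
noncomputable def types (N : ℕ) (hN : 1 ≤ N) : Finset (stdSimplex ℝ S.E) :=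
  Finset.univ.image (fun w : Fin N → S.E => (⟨S.emp w, S.emp_mem hN w⟩ : stdSimplex ℝ S.E))

lemma card_types_le (N : ℕ) (hN : 1 ≤ N) :
    (S.types N hN).card ≤ (N + 1) ^ (Fintype.card S.E) := by
  classical
  have h1 : ∀ q ∈ S.types N hN, ∃ w : Fin N → S.E, (⟨S.emp w, S.emp_mem hN w⟩ :
      stdSimplex ℝ S.E) = q := by
    intro q hq
    unfold types at hq
    rw [Finset.mem_image] at hq
    obtain ⟨w, _, hw⟩ := hq
    exact ⟨w, hw⟩
  choose! wd hwd using h1
  have hlt : ∀ (w : Fin N → S.E) (e : S.E), S.cnt w e < N + 1 := by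
    intro w e
    have : S.cnt w e ≤ N := by
      unfold cnt
      refine (Finset.card_filter_le _ _).trans ?_
      rw [Finset.card_univ, Fintype.card_fin]
    omega
  have h2 : (S.types N hN).card ≤ (Finset.univ : Finset (S.E → Fin (N + 1))).card := by
    apply Finset.card_le_card_of_injOn (fun q e => ⟨S.cnt (wd q) e, hlt _ _⟩)
    · intro q _; simp
    · intro q hq q' hq' h
      rw [← hwd q hq, ← hwd q' hq']
      apply Subtype.ext
      funext e
      have := congrFun h e
      simp only [Fin.mk.injEq] at this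
      show S.emp (wd q) e = S.emp (wd q') e
      unfold emp
      rw [this]
  refine h2.trans ?_
  rw [Finset.card_univ, Fintype.card_fun, Fintype.card_fin]

lemma card_types_pos (N : ℕ) (hN : 1 ≤ N) : 0 < (S.types N hN).card := by
  classical
  unfold types
  apply Finset.card_pos.2
  exact ⟨_, Finset.mem_image_of_mem _ (Finset.mem_univ (fun _ => Classical.arbitrary S.E))⟩

/-- The mixture of product measures over all types. -/
noncomputable def kap (N : ℕ) (hN : 1 ≤ N) : Measure (Fin N → S.E) :=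
  ∑ q ∈ S.types N hN, ((S.types N hN).card : ℝ≥0∞)⁻¹ • Measure.pi (fun _ : Fin N => S.bern q)

instance (N : ℕ) (hN : 1 ≤ N) : IsProbabilityMeasure (S.kap N hN) := ⟨by
  unfold kap
  rw [Measure.finsetSum_apply]
  simp only [Measure.smul_apply, smul_eq_mul, measure_univ, mul_one]
  rw [Finset.sum_const, nsmul_eq_mul]
  apply ENNReal.mul_inv_cancel
  · have := S.card_types_pos N hN
    exact_mod_cast this.ne'
  · exact ENNReal.natCast_ne_top _⟩

lemma kap_ge (N : ℕ) (hN : 1 ≤ N) (w : Fin N → S.E) (I : Finset (Fin d)) :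
    ((S.types N hN).card : ℝ≥0∞)⁻¹ *
      ENNReal.ofReal (2 ^ (-((N : ℝ) * Hr (S.rel I) (S.emp w))))
      ≤ S.kap N hN {w' | ∀ s, S.rel I (w s) (w' s)} := by
  classical
  set q : stdSimplex ℝ S.E := ⟨S.emp w, S.emp_mem hN w⟩ with hq
  have hqm : q ∈ S.types N hN := by
    unfold types
    exact Finset.mem_image_of_mem _ (Finset.mem_univ w)
  unfold kap
  rw [Measure.finsetSum_apply]
  refine le_trans ?_ (Finset.single_le_sum (fun _ _ => bot_le) hqm)
  rw [Measure.smul_apply, smul_eq_mul]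
  apply mul_le_mul_right
  have h1 : {w' : Fin N → S.E | ∀ s, S.rel I (w s) (w' s)}
      = Set.pi univ (fun s => {e' | S.rel I (w s) e'}) := by
    ext w'; simp
  rw [h1, Measure.pi_pi]
  simp only [bern_rel]
  rw [← ENNReal.ofReal_prod_of_nonneg (fun t _ => Pr_nonneg q.2.1 _), ← S.prod_Pr_emp hN w I]

/-- concatenation of blocks. -/
def cat {X : Type*} (N : ℕ) (hN : 1 ≤ N) (w : ℕ → (Fin N → X)) : ℕ → X :=
  fun t => w (t / N) ⟨t % N, Nat.mod_lt _ hN⟩

lemma measurable_cat (N : ℕ) (hN : 1 ≤ N) :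
    Measurable (cat N hN : (ℕ → (Fin N → S.E)) → (ℕ → S.E)) := by
  apply measurable_pi_lambda
  intro t
  exact (measurable_pi_apply _).comp (measurable_pi_apply (t / N))

/-- The universal measure. -/
noncomputable def uni (N : ℕ) (hN : 1 ≤ N) : Measure (ℕ → S.E) :=
  (Measure.infinitePi (fun _ : ℕ => S.kap N hN)).map (cat N hN)

instance (N : ℕ) (hN : 1 ≤ N) : IsProbabilityMeasure (S.uni N hN) :=
  Measure.isProbabilityMeasure_map (S.measurable_cat N hN).aemeasurable

/-- the blocks of a sequence. -/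
def blk (N : ℕ) (ω : ℕ → S.E) (i : ℕ) : Fin N → S.E := fun s => ω (i * N + s)

open Classical in
/-- the coordinates which are still active at the beginning of block `i`. -/
noncomputable def act (N : ℕ) (B : ℝ) (ω : ℕ → S.E) (i : ℕ) : Finset (Fin d) :=
  Finset.univ.filter (fun j => S.L j ω (i * N) < B)

lemma uni_cell_ge (N : ℕ) (hN : 1 ≤ N) (B : ℝ) (ω : ℕ → S.E) (M : ℕ)
    (hM : ∀ j, S.stop j B ω ≤ M * N) :
    ENNReal.ofReal (2 ^ (-((M : ℝ) * Real.logb 2 (S.types N hN).card
      + ∑ i ∈ Finset.range M, (N : ℝ) * Hr (S.rel (S.act N B ω i)) (S.emp (S.blk N ω i)))))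
      ≤ S.uni N hN (S.cell B ω) := by
  classical
  unfold uni
  rw [Measure.map_apply (S.measurable_cat N hN) (S.measurableSet_cell B ω)]
  have hsub : Set.pi (Finset.range M) (fun i => {w' : Fin N → S.E | ∀ s,
      S.rel (S.act N B ω i) (S.blk N ω i s) (w' s)}) ⊆ cat N hN ⁻¹' S.cell B ω := by
    intro w hw j t ht
    have h1 : t < M * N := ht.trans_le (hM j)
    have h2 : t / N < M := Nat.div_lt_of_lt_mul (by rwa [Nat.mul_comm] at h1)
    have h3 := hw (t / N) (by rw [Finset.mem_coe, Finset.mem_range]; exact h2)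
      ⟨t % N, Nat.mod_lt _ hN⟩ j (by
        unfold act
        rw [Finset.mem_filter]
        refine ⟨Finset.mem_univ _, ?_⟩
        rw [← S.lt_stop_iff]
        exact lt_of_le_of_lt (Nat.div_mul_le_self t N) ht)
    unfold cat
    rw [h3]
    unfold blk
    simp only
    rw [Nat.div_add_mod']
  refine le_trans ?_ (measure_mono hsub)
  rw [Measure.infinitePi_pi _ (fun i _ => MeasurableSet.of_discrete)]
  have h1 : ∀ i ∈ Finset.range M, ((S.types N hN).card : ℝ≥0∞)⁻¹ *
      ENNReal.ofReal (2 ^ (-((N : ℝ) * Hr (S.rel (S.act N B ω i)) (S.emp (S.blk N ω i)))))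
      ≤ S.kap N hN {w' : Fin N → S.E | ∀ s,
      S.rel (S.act N B ω i) (S.blk N ω i s) (w' s)} := fun i _ => S.kap_ge N hN _ _
  refine le_trans (le_of_eq ?_) (Finset.prod_le_prod' h1)
  rw [Finset.prod_mul_distrib, Finset.prod_const, Finset.card_range,
    ← ENNReal.ofReal_prod_of_nonneg (fun t _ => by positivity),
    ← Real.rpow_sum_of_pos (by norm_num)]
  have hc : (0 : ℝ) < ((S.types N hN).card : ℝ) := by
    exact_mod_cast S.card_types_pos N hN
  have h2 : (((S.types N hN).card : ℝ≥0∞)⁻¹) ^ M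
      = ENNReal.ofReal (2 ^ (-((M : ℝ) * Real.logb 2 (S.types N hN).card))) := by
    have : (2 : ℝ) ^ (-((M : ℝ) * Real.logb 2 (S.types N hN).card))
        = (((S.types N hN).card : ℝ)⁻¹) ^ M := by
      rw [Real.rpow_neg (by norm_num), mul_comm, Real.rpow_mul (by norm_num),
        Real.rpow_logb (by norm_num) (by norm_num) hc, Real.rpow_natCast, inv_pow]
    rw [this, ENNReal.ofReal_pow (by positivity), ENNReal.ofReal_inv_of_pos hc,
      ENNReal.ofReal_natCast]
  rw [h2, ← ENNReal.ofReal_mul (by positivity), ← Real.rpow_add (by norm_num)]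
  congr 2
  rw [Finset.sum_neg_distrib]
  ring

end Sponge

end Pool.Agent.FC9311
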