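import Pool.Agent.FC9311.Pair

/-!
Upper bound for the Hausdorff dimension of a sponge.
-/

namespace Pool.Agent.FC9311

open MeasureTheory Filter Topology Set ProbabilityTheory
open scoped ENNReal NNReal

namespace Sponge

variable {d : ℕ} (S : Sponge d)

lemma Hr_rel_mono {I J : Finset (Fin d)} (h : I ⊆ J) {p : S.E → ℝ} (hp : ∀ e, 0 ≤ p e) :
    Hr (S.rel I) p ≤ Hr (S.rel J) p :=
  Hr_mono (S.rel_equiv I) (S.rel_equiv J) (fun _ _ h' j hj => h' j (h hj)) hp

lemma mem_act {N : ℕ} {B : ℝ} {ω : ℕ → S.E} {i : ℕ} {j : Fin d} :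
    j ∈ S.act N B ω i ↔ S.L j ω (i * N) < B := by
  unfold act; simp

lemma pair_aux (N : ℕ) (hN : 1 ≤ N) (j k : Fin d) (ω : ℕ → S.E) (i : ℕ) (hi : 1 ≤ i) (B₁ : ℕ)
    (hle : S.L j ω (i * N) ≤ S.L k ω (i * N)) :
    ∑ B ∈ Finset.Icc 1 B₁, (1 / ((B : ℝ) * (B + 1))) *
      (N * Hr (S.rel ({j, k} ∩ S.act N B ω i)) (S.emp (S.blk N ω i)))
      ≤ N * (Hr (S.rel {j}) (S.emp (S.blk N ω i)) * (1 / S.L j ω (i * N))
        + (Hr (S.rel {j, k}) (S.emp (S.blk N ω i)) - Hr (S.rel {j}) (S.emp (S.blk N ω i)))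
          * (1 / S.L k ω (i * N))) := by
  obtain ⟨x, y, hx, hy, hxy⟩ := S.exists_X_bounds
  have hN0 : (0 : ℝ) < N := by exact_mod_cast hN
  have hi0 : (0 : ℝ) < i := by exact_mod_cast hi
  have hiN : (0 : ℝ) < ((i * N : ℕ) : ℝ) := by push_cast; positivity
  have hA0 : 0 < S.L j ω (i * N) :=
    (mul_pos hiN hx).trans_le (S.mul_le_L (fun j a => (hxy j a).1) j ω (i * N))
  have hC0 : 0 < S.L k ω (i * N) := hA0.trans_le hle
  set p := S.emp (S.blk N ω i) with hp
  have hpm : p ∈ stdSimplex ℝ S.E := S.emp_mem hN _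
  set hj := Hr (S.rel {j}) p with hhj
  set hjk := Hr (S.rel {j, k}) p with hhjk
  have h0j : 0 ≤ hj := Hr_nonneg (S.rel_equiv _) hpm
  have hjjk : hj ≤ hjk := S.Hr_rel_mono (by simp) hpm.1
  have hterm : ∀ B ∈ Finset.Icc 1 B₁, (1 / ((B : ℝ) * (B + 1))) *
      (N * Hr (S.rel ({j, k} ∩ S.act N B ω i)) p) ≤
      N * hj * (if S.L j ω (i * N) < B then 1 / ((B : ℝ) * (B + 1)) else 0)
      + N * (hjk - hj) * (if S.L k ω (i * N) < B then 1 / ((B : ℝ) * (B + 1)) else 0) := by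
    intro B _
    have hw : (0 : ℝ) ≤ 1 / ((B : ℝ) * (B + 1)) := by positivity
    by_cases h1 : S.L k ω (i * N) < B
    · have h2 : S.L j ω (i * N) < B := lt_of_le_of_lt hle h1
      rw [if_pos h1, if_pos h2]
      have h3 : Hr (S.rel ({j, k} ∩ S.act N B ω i)) p ≤ hjk :=
        S.Hr_rel_mono Finset.inter_subset_left hpm.1
      have h4 : (1 / ((B : ℝ) * (B + 1))) * (N * Hr (S.rel ({j, k} ∩ S.act N B ω i)) p)
          ≤ (1 / ((B : ℝ) * (B + 1))) * (N * hjk) :=
        mul_le_mul_of_nonneg_left (mul_le_mul_of_nonneg_left h3 hN0.le) hw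
      linarith
    · by_cases h2 : S.L j ω (i * N) < B
      · rw [if_neg h1, if_pos h2, mul_zero, add_zero]
        have h3 : Hr (S.rel ({j, k} ∩ S.act N B ω i)) p ≤ hj := by
          apply S.Hr_rel_mono _ hpm.1
          intro z hz
          rw [Finset.mem_inter, Finset.mem_insert, Finset.mem_singleton, mem_act] at hz
          rcases hz.1 with rfl | rfl
          · simp
          · exact absurd hz.2 h1
        have h4 : (1 / ((B : ℝ) * (B + 1))) * (N * Hr (S.rel ({j, k} ∩ S.act N B ω i)) p)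
            ≤ (1 / ((B : ℝ) * (B + 1))) * (N * hj) :=
          mul_le_mul_of_nonneg_left (mul_le_mul_of_nonneg_left h3 hN0.le) hw
        linarith
      · rw [if_neg h1, if_neg h2, mul_zero, mul_zero, add_zero]
        have h3 : ({j, k} : Finset (Fin d)) ∩ S.act N B ω i = ∅ := by
          rw [Finset.eq_empty_iff_forall_notMem]
          intro z hz
          rw [Finset.mem_inter, Finset.mem_insert, Finset.mem_singleton, mem_act] at hz
          rcases hz.1 with rfl | rfl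
          · exact h2 hz.2
          · exact h1 hz.2
        rw [h3, S.Hr_empty ⟨p, hpm⟩]
        simp
  refine (Finset.sum_le_sum hterm).trans ?_
  rw [Finset.sum_add_distrib, ← Finset.mul_sum, ← Finset.mul_sum, ← Finset.sum_filter,
    ← Finset.sum_filter]
  have t1 := tail_sum _ hA0 B₁
  have t2 := tail_sum _ hC0 B₁
  have g1 := mul_le_mul_of_nonneg_left t1 (mul_nonneg hN0.le h0j)
  have g2 := mul_le_mul_of_nonneg_left t2 (mul_nonneg hN0.le (sub_nonneg.2 hjjk))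
  linarith

lemma pair_block (N : ℕ) (hN : 1 ≤ N) (j k : Fin d) (ω : ℕ → S.E) (i : ℕ) (hi : 1 ≤ i) (B₁ : ℕ) :
    ∑ B ∈ Finset.Icc 1 B₁, (1 / ((B : ℝ) * (B + 1))) *
      (N * Hr (S.rel ({j, k} ∩ S.act N B ω i)) (S.emp (S.blk N ω i)))
      ≤ S.Wt N j k ω i := by
  obtain ⟨x, y, hx, hy, hxy⟩ := S.exists_X_bounds
  have hN0 : (0 : ℝ) < N := by exact_mod_cast hN
  have hi0 : (0 : ℝ) < i := by exact_mod_cast hi
  have hiN : (0 : ℝ) < ((i * N : ℕ) : ℝ) := by push_cast; positivity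
  have hA0 : 0 < S.L j ω (i * N) :=
    (mul_pos hiN hx).trans_le (S.mul_le_L (fun j a => (hxy j a).1) j ω (i * N))
  have hC0 : 0 < S.L k ω (i * N) :=
    (mul_pos hiN hx).trans_le (S.mul_le_L (fun j a => (hxy j a).1) k ω (i * N))
  rcases le_total (S.L j ω (i * N)) (S.L k ω (i * N)) with h | h
  · refine (S.pair_aux N hN j k ω i hi B₁ h).trans (le_of_eq ?_)
    unfold Wt
    rw [min_eq_right (one_div_le_one_div_of_le hA0 h)]
    ring
  · have h1 := S.pair_aux N hN k j ω i hi B₁ h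
    rw [Finset.pair_comm k j] at h1
    refine h1.trans (le_of_eq ?_)
    unfold Wt
    rw [min_eq_left (one_div_le_one_div_of_le hC0 h)]
    ring

theorem pair_total (j k : Fin d) (m : ℝ) (hm0 : 0 ≤ m)
    (hm : ∀ p : stdSimplex ℝ S.E, S.delta j k p.1 ≤ m) (N : ℕ) (hN : 1 ≤ N) (ω : ℕ → S.E)
    (ε : ℝ) (hε : 0 < ε) :
    ∃ C : ℝ, ∀ B₁ M : ℕ, ∑ B ∈ Finset.Icc 1 B₁, (1 / ((B : ℝ) * (B + 1))) *
      (∑ i ∈ Finset.range (M + 1), N * Hr (S.rel ({j, k} ∩ S.act N B ω i)) (S.emp (S.blk N ω i)))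
      ≤ (m + ε) * Real.log ((M : ℝ) + 1) + C := by
  obtain ⟨C, hC⟩ := S.pair_avg j k m hm0 hm N hN ω ε hε
  refine ⟨C + N * Hr (S.rel {j, k}) (S.emp (S.blk N ω 0)), fun B₁ M => ?_⟩
  have hN0 : (0 : ℝ) < N := by exact_mod_cast hN
  simp only [Finset.mul_sum]
  rw [Finset.sum_comm]
  have hIcc : Finset.Icc 1 M = Finset.Ico (0 + 1) (M + 1) := by
    ext z; simp only [Finset.mem_Icc, Finset.mem_Ico]; omega
  rw [Finset.range_eq_Ico, Finset.sum_eq_sum_Ico_succ_bot (Nat.succ_pos M), ← hIcc]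
  have h1 : ∑ B ∈ Finset.Icc 1 B₁, (1 / ((B : ℝ) * (B + 1))) *
      (N * Hr (S.rel ({j, k} ∩ S.act N B ω 0)) (S.emp (S.blk N ω 0)))
      ≤ N * Hr (S.rel {j, k}) (S.emp (S.blk N ω 0)) := by
    have hpm : S.emp (S.blk N ω 0) ∈ stdSimplex ℝ S.E := S.emp_mem hN _
    have h2 : ∀ B ∈ Finset.Icc 1 B₁, (1 / ((B : ℝ) * (B + 1))) *
      (N * Hr (S.rel ({j, k} ∩ S.act N B ω 0)) (S.emp (S.blk N ω 0)))
      ≤ (1 / ((B : ℝ) * (B + 1))) * (N * Hr (S.rel {j, k}) (S.emp (S.blk N ω 0))) := by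
      intro B _
      apply mul_le_mul_of_nonneg_left _ (by positivity)
      apply mul_le_mul_of_nonneg_left _ hN0.le
      exact S.Hr_rel_mono Finset.inter_subset_left hpm.1
    refine (Finset.sum_le_sum h2).trans ?_
    rw [← Finset.sum_mul]
    have h3 := total_sum B₁
    have h4 : 0 ≤ N * Hr (S.rel {j, k}) (S.emp (S.blk N ω 0)) :=
      mul_nonneg hN0.le (Hr_nonneg (S.rel_equiv _) hpm)
    calc _ ≤ 1 * (N * Hr (S.rel {j, k}) (S.emp (S.blk N ω 0))) :=
          mul_le_mul_of_nonneg_right h3 h4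
      _ = _ := one_mul _
  have h2 : ∑ i ∈ Finset.Icc 1 M, ∑ B ∈ Finset.Icc 1 B₁, (1 / ((B : ℝ) * (B + 1))) *
      (N * Hr (S.rel ({j, k} ∩ S.act N B ω i)) (S.emp (S.blk N ω i)))
      ≤ ∑ i ∈ Finset.Icc 1 M, S.Wt N j k ω i := by
    apply Finset.sum_le_sum
    intro i hi
    exact S.pair_block N hN j k ω i (Finset.mem_Icc.1 hi).1 B₁
  have h3 := hC M
  linarith

lemma harm_le (B₁ : ℕ) : ∑ B ∈ Finset.Icc 1 B₁, 1 / ((B : ℝ) + 1) ≤ Real.log ((B₁ : ℝ) + 1) := by
  induction B₁ with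
  | zero => simp
  | succ n ih =>
    rw [Finset.sum_Icc_succ_top (by omega)]
    have h := one_div_le_log_sub (n + 1) (by omega)
    push_cast at h ⊢
    linarith

lemma le_harm (B₀ B₁ : ℕ) (h : B₀ ≤ B₁) :
    Real.log ((B₁ : ℝ) + 2) - Real.log ((B₀ : ℝ) + 1)
      ≤ ∑ B ∈ Finset.Icc B₀ B₁, 1 / ((B : ℝ) + 1) := by
  have key : ∀ B : ℕ, Real.log ((B : ℝ) + 2) - Real.log ((B : ℝ) + 1) ≤ 1 / ((B : ℝ) + 1) := by
    intro B
    have h1 := (log_inc (a := (B : ℝ) + 1) (α := 1) (by positivity) zero_le_one).2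
    have h2 : (B : ℝ) + 1 + 1 = B + 2 := by ring
    rwa [h2] at h1
  induction B₁, h using Nat.le_induction with
  | base => simpa using key B₀
  | succ n hn ih =>
    rw [Finset.sum_Icc_succ_top (by omega)]
    have h := key (n + 1)
    push_cast at h ⊢
    have e1 : (n : ℝ) + 1 + 1 = n + 2 := by ring
    rw [e1] at h ⊢
    linarith

lemma exists_N (c x ε : ℝ) (hx : 0 < x) (hε : 0 < ε) :
    ∃ N : ℕ, 1 ≤ N ∧ c * Real.logb 2 ((N : ℝ) + 1) / (N * x) ≤ ε := by
  have h1 : Tendsto (fun N : ℕ => Real.log ((N : ℝ) + 1) / ((N : ℝ) + 1)) atTop (𝓝 0) := by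
    have h2 := (Real.isLittleO_log_id_atTop).tendsto_div_nhds_zero
    have h3 : Tendsto (fun N : ℕ => (N : ℝ) + 1) atTop atTop :=
      tendsto_atTop_add_const_right _ _ tendsto_natCast_atTop_atTop
    exact h2.comp h3
  have h2 : Tendsto (fun N : ℕ => (2 * |c| / (Real.log 2 * x)) *
      (Real.log ((N : ℝ) + 1) / ((N : ℝ) + 1))) atTop
      (𝓝 ((2 * |c| / (Real.log 2 * x)) * 0)) := h1.const_mul _
  rw [mul_zero] at h2
  obtain ⟨N, hN1, hN2⟩ := ((h2.eventually_lt_const hε).and (eventually_ge_atTop 1)).exists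
  refine ⟨N, hN2, le_trans ?_ hN1.le⟩
  have hN0 : (1 : ℝ) ≤ N := by exact_mod_cast hN2
  have hlog2 : 0 < Real.log 2 := Real.log_pos (by norm_num)
  have hlogN : 0 ≤ Real.log ((N : ℝ) + 1) := Real.log_nonneg (by linarith)
  have h3 : c * Real.logb 2 ((N : ℝ) + 1) / (N * x)
      ≤ |c| * (Real.log ((N : ℝ) + 1) / Real.log 2) / (N * x) := by
    apply div_le_div_of_nonneg_right _ (by positivity)
    unfold Real.logb
    exact mul_le_mul_of_nonneg_right (le_abs_self c) (by positivity)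
  refine h3.trans ?_
  have h4 : |c| * (Real.log ((N : ℝ) + 1) / Real.log 2) / (N * x)
      = (|c| / (Real.log 2 * x)) * (Real.log ((N : ℝ) + 1)) * (1 / N) := by
    field_simp
  have h5 : (2 * |c| / (Real.log 2 * x)) * (Real.log ((N : ℝ) + 1) / ((N : ℝ) + 1))
      = (|c| / (Real.log 2 * x)) * (Real.log ((N : ℝ) + 1)) * (2 / (N + 1)) := by
    field_simp
  rw [h4, h5]
  apply mul_le_mul_of_nonneg_left _ (by positivity)
  rw [div_le_div_iff₀ (by linarith) (by linarith)]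
  linarith

theorem HD_le (hd : 2 ≤ d) (m : ℝ) (hm0 : 0 ≤ m)
    (hm : ∀ (j k : Fin d) (p : stdSimplex ℝ S.E), S.delta j k p.1 ≤ m) :
    S.HD ≤ ENNReal.ofReal ((d : ℝ) / 2 * m) := by
  classical
  have hdR : (2 : ℝ) ≤ d := by exact_mod_cast hd
  unfold HD limitSet
  rw [← image_univ]
  apply le_of_forall_gt
  intro r hr
  obtain ⟨s, hs1, hs2⟩ := ENNReal.lt_iff_exists_nnreal_btwn.1 hr
  refine lt_of_le_of_lt ?_ hs2
  have hs : (d : ℝ) / 2 * m < s := by
    rw [ENNReal.ofReal_lt_coe_iff (by positivity)] at hs1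
    exact hs1
  obtain ⟨x, y, hx, hy, hxy⟩ := S.exists_X_bounds
  set g := (s : ℝ) - (d : ℝ) / 2 * m with hg
  have hg0 : 0 < g := by rw [hg]; linarith
  set ε := g / (2 * d) with hε
  have hε0 : 0 < ε := by positivity
  obtain ⟨N, hN, hNε⟩ := exists_N (Fintype.card S.E) x (g / 4) hx (by positivity)
  have hN0 : (0 : ℝ) < N := by exact_mod_cast hN
  set T := Real.logb 2 (S.types N hN).card with hT
  have hT0 : 0 ≤ T := by
    apply Real.logb_nonneg (by norm_num)
    exact_mod_cast S.card_types_pos N hN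
  have hT1 : T / (N * x) ≤ g / 4 := by
    refine le_trans ?_ hNε
    apply div_le_div_of_nonneg_right _ (by positivity)
    have h1 : ((S.types N hN).card : ℝ) ≤ ((N : ℝ) + 1) ^ (Fintype.card S.E) := by
      exact_mod_cast S.card_types_le N hN
    calc T ≤ Real.logb 2 (((N : ℝ) + 1) ^ (Fintype.card S.E)) := by
          apply Real.logb_le_logb_of_le (by norm_num) _ h1
          exact_mod_cast S.card_types_pos N hN
      _ = _ := by rw [Real.logb_pow]
  apply S.dimH_code_image_le (S.uni N hN) s univ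
  intro ω _
  -- blocks needed at scale B
  set Mb : ℕ → ℕ := fun B => ⌈(B : ℝ) / (N * x)⌉₊ with hMb
  have hMbstop : ∀ (B : ℕ) (j : Fin d), S.stop j B ω ≤ Mb B * N := by
    intro B j
    rw [S.stop_le_iff]
    refine le_trans ?_ (S.mul_le_L (fun j a => (hxy j a).1) j ω (Mb B * N))
    have h1 : (B : ℝ) / (N * x) ≤ Mb B := Nat.le_ceil _
    rw [div_le_iff₀ (by positivity)] at h1
    push_cast
    linarith
  set cost : ℕ → ℝ := fun B => (Mb B : ℝ) * T
      + ∑ i ∈ Finset.range (Mb B), (N : ℝ) * Hr (S.rel (S.act N B ω i)) (S.emp (S.blk N ω i))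
    with hcost
  have hfinal : ∀ B : ℕ, cost B ≤ s * B →
      ((2 : ℝ≥0∞)⁻¹ ^ B) ^ (s : ℝ) ≤ S.uni N hN (S.cell B ω) := by
    intro B hB
    refine le_trans ?_ (S.uni_cell_ge N hN B ω (Mb B) (hMbstop B))
    rw [half_pow_eq, ENNReal.ofReal_rpow_of_pos (by positivity), ← Real.rpow_mul (by norm_num)]
    apply ENNReal.ofReal_le_ofReal
    apply Real.rpow_le_rpow_of_exponent_le (by norm_num)
    simp only [hcost] at hB
    linarith
  by_contra hcon
  rw [not_frequently] at hcon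
  obtain ⟨B₀, hB₀⟩ := eventually_atTop.1 hcon
  have hbad : ∀ B : ℕ, B₀ + 1 ≤ B → s * B ≤ cost B := by
    intro B hB
    by_contra h
    exact hB₀ B (by omega) (hfinal B (not_le.1 h).le)
  -- constants for pairs
  choose Cst hCst using fun q : Fin d × Fin d =>
    S.pair_total q.1 q.2 m hm0 (hm q.1 q.2) N hN ω ε hε0
  set w : ℕ → ℝ := fun B => 1 / ((B : ℝ) * (B + 1)) with hw
  have hw0 : ∀ B, 0 ≤ w B := fun B => by simp only [hw]; positivity
  have hwB : ∀ B : ℕ, 1 ≤ B → w B * B = 1 / ((B : ℝ) + 1) := by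
    intro B hB
    have : (0 : ℝ) < B := by exact_mod_cast hB
    simp only [hw]; field_simp
  have hd1 : (0 : ℝ) < ((2 * (d - 1) : ℕ) : ℝ) := by
    have : 0 < 2 * (d - 1) := by omega
    exact_mod_cast this
  have hcostle : ∀ B₁ : ℕ, ∀ B ∈ Finset.Icc 1 B₁, cost B ≤ ((B : ℝ) / (N * x) + 1) * T
      + (∑ q ∈ (Finset.univ : Finset (Fin d)).offDiag, ∑ i ∈ Finset.range (Mb B₁ + 1),
        N * Hr (S.rel ({q.1, q.2} ∩ S.act N B ω i)) (S.emp (S.blk N ω i)))
        / ((2 * (d - 1) : ℕ) : ℝ) := by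
    intro B₁ B hB
    rw [Finset.mem_Icc] at hB
    have hMB : Mb B ≤ Mb B₁ + 1 := by
      have : Mb B ≤ Mb B₁ := by
        apply Nat.ceil_le_ceil
        apply div_le_div_of_nonneg_right _ (by positivity)
        exact_mod_cast hB.2
      omega
    simp only [hcost]
    apply add_le_add
    · apply mul_le_mul_of_nonneg_right _ hT0
      exact (Nat.ceil_lt_add_one (by positivity)).le
    · rw [le_div_iff₀ hd1, Finset.sum_comm, Finset.sum_mul]
      have hnn : ∀ i, 0 ≤ ∑ q ∈ (Finset.univ : Finset (Fin d)).offDiag,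
          (N : ℝ) * Hr (S.rel ({q.1, q.2} ∩ S.act N B ω i)) (S.emp (S.blk N ω i)) := by
        intro i
        apply Finset.sum_nonneg
        intro q _
        exact mul_nonneg hN0.le (Hr_nonneg (S.rel_equiv _) (S.emp_mem hN _))
      calc ∑ i ∈ Finset.range (Mb B), (N : ℝ) * Hr (S.rel (S.act N B ω i)) (S.emp (S.blk N ω i))
            * ((2 * (d - 1) : ℕ) : ℝ)
          ≤ ∑ i ∈ Finset.range (Mb B), ∑ q ∈ (Finset.univ : Finset (Fin d)).offDiag,
            (N : ℝ) * Hr (S.rel ({q.1, q.2} ∩ S.act N B ω i)) (S.emp (S.blk N ω i)) := by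
            apply Finset.sum_le_sum
            intro i _
            have h1 := S.shearer (S.act N B ω i) ⟨S.emp (S.blk N ω i), S.emp_mem hN _⟩
            simp only at h1
            rw [← Finset.mul_sum]
            calc (N : ℝ) * Hr (S.rel (S.act N B ω i)) (S.emp (S.blk N ω i))
                * ((2 * (d - 1) : ℕ) : ℝ)
                = N * (((2 * (d - 1) : ℕ) : ℝ)
                  * Hr (S.rel (S.act N B ω i)) (S.emp (S.blk N ω i))) := by ring
              _ ≤ _ := mul_le_mul_of_nonneg_left h1 hN0.le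
        _ ≤ _ := by
          apply Finset.sum_le_sum_of_subset_of_nonneg
          · intro i hi
            rw [Finset.mem_range] at hi ⊢
            omega
          · intro i _ _
            exact hnn i
  set Ctot : ℝ := ∑ q ∈ (Finset.univ : Finset (Fin d)).offDiag, Cst q with hCtot
  have hsumcost : ∀ B₁ : ℕ, ∑ B ∈ Finset.Icc 1 B₁, w B * cost B
      ≤ (T / (N * x)) * Real.log ((B₁ : ℝ) + 1) + T
      + ((d * (d - 1) : ℕ) * ((m + ε) * Real.log ((Mb B₁ : ℝ) + 1)) + Ctot)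
        / ((2 * (d - 1) : ℕ) : ℝ) := by
    intro B₁
    have h1 : ∑ B ∈ Finset.Icc 1 B₁, w B * cost B ≤ ∑ B ∈ Finset.Icc 1 B₁,
        (w B * (((B : ℝ) / (N * x) + 1) * T) + w B *
        ((∑ q ∈ (Finset.univ : Finset (Fin d)).offDiag, ∑ i ∈ Finset.range (Mb B₁ + 1),
        N * Hr (S.rel ({q.1, q.2} ∩ S.act N B ω i)) (S.emp (S.blk N ω i)))
        / ((2 * (d - 1) : ℕ) : ℝ))) := by
      apply Finset.sum_le_sum
      intro B hB
      rw [← mul_add]
      exact mul_le_mul_of_nonneg_left (hcostle B₁ B hB) (hw0 B)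
    refine h1.trans ?_
    rw [Finset.sum_add_distrib]
    apply add_le_add
    · have h2 : ∑ B ∈ Finset.Icc 1 B₁, w B * (((B : ℝ) / (N * x) + 1) * T)
          = (T / (N * x)) * (∑ B ∈ Finset.Icc 1 B₁, 1 / ((B : ℝ) + 1))
            + T * ∑ B ∈ Finset.Icc 1 B₁, w B := by
        rw [Finset.mul_sum, Finset.mul_sum, ← Finset.sum_add_distrib]
        apply Finset.sum_congr rfl
        intro B hB
        rw [← hwB B (Finset.mem_Icc.1 hB).1]
        field_simp
      rw [h2]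
      apply add_le_add
      · exact mul_le_mul_of_nonneg_left (harm_le B₁) (by positivity)
      · calc T * ∑ B ∈ Finset.Icc 1 B₁, w B ≤ T * 1 :=
              mul_le_mul_of_nonneg_left (total_sum B₁) hT0
          _ = T := mul_one T
    · have h3 : ∑ B ∈ Finset.Icc 1 B₁, w B *
          ((∑ q ∈ (Finset.univ : Finset (Fin d)).offDiag, ∑ i ∈ Finset.range (Mb B₁ + 1),
          N * Hr (S.rel ({q.1, q.2} ∩ S.act N B ω i)) (S.emp (S.blk N ω i)))
          / ((2 * (d - 1) : ℕ) : ℝ))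
          = (∑ q ∈ (Finset.univ : Finset (Fin d)).offDiag, ∑ B ∈ Finset.Icc 1 B₁, w B *
            ∑ i ∈ Finset.range (Mb B₁ + 1),
          N * Hr (S.rel ({q.1, q.2} ∩ S.act N B ω i)) (S.emp (S.blk N ω i)))
          / ((2 * (d - 1) : ℕ) : ℝ) := by
        rw [Finset.sum_comm, Finset.sum_div]
        apply Finset.sum_congr rfl
        intro B _
        rw [← Finset.mul_sum, mul_div_assoc]
      rw [h3]
      apply div_le_div_of_nonneg_right _ hd1.le
      have h4 : ∀ q ∈ (Finset.univ : Finset (Fin d)).offDiag, ∑ B ∈ Finset.Icc 1 B₁, w B *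
            ∑ i ∈ Finset.range (Mb B₁ + 1),
          N * Hr (S.rel ({q.1, q.2} ∩ S.act N B ω i)) (S.emp (S.blk N ω i))
          ≤ (m + ε) * Real.log ((Mb B₁ : ℝ) + 1) + Cst q := fun q _ => hCst q B₁ (Mb B₁)
      refine (Finset.sum_le_sum h4).trans ?_
      rw [Finset.sum_add_distrib, Finset.sum_const, nsmul_eq_mul, Finset.offDiag_card,
        Finset.card_univ, Fintype.card_fin]
      have h5 : d * d - d = d * (d - 1) := by rw [Nat.mul_sub, mul_one]
      rw [h5]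
  -- logarithm of number of blocks
  set C₃ := Real.log (1 / (N * x) + 2) with hC₃
  have hlogM : ∀ B₁ : ℕ, Real.log ((Mb B₁ : ℝ) + 1) ≤ Real.log ((B₁ : ℝ) + 1) + C₃ := by
    intro B₁
    have hB : (0 : ℝ) ≤ B₁ := Nat.cast_nonneg _
    rw [hC₃, ← Real.log_mul (by positivity) (by positivity)]
    apply Real.log_le_log (by positivity)
    have h1 : (Mb B₁ : ℝ) < (B₁ : ℝ) / (N * x) + 1 := Nat.ceil_lt_add_one (by positivity)
    have h2 : (0 : ℝ) ≤ 1 / (N * x) := by positivity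
    have h3 : (B₁ : ℝ) / (N * x) = B₁ * (1 / (N * x)) := by ring
    rw [h3] at h1
    nlinarith
  have hlower : ∀ B₁ : ℕ, B₀ + 1 ≤ B₁ →
      (s : ℝ) * (Real.log ((B₁ : ℝ) + 2) - Real.log (((B₀ + 1 : ℕ) : ℝ) + 1))
        ≤ ∑ B ∈ Finset.Icc 1 B₁, w B * cost B := by
    intro B₁ hB₁
    have hcost0 : ∀ B, 0 ≤ cost B := by
      intro B
      simp only [hcost]
      apply add_nonneg (by positivity)
      apply Finset.sum_nonneg
      intro i _
      exact mul_nonneg hN0.le (Hr_nonneg (S.rel_equiv _) (S.emp_mem hN _))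
    calc (s : ℝ) * (Real.log ((B₁ : ℝ) + 2) - Real.log (((B₀ + 1 : ℕ) : ℝ) + 1))
        ≤ s * ∑ B ∈ Finset.Icc (B₀ + 1) B₁, 1 / ((B : ℝ) + 1) :=
          mul_le_mul_of_nonneg_left (le_harm (B₀ + 1) B₁ hB₁) s.2
      _ = ∑ B ∈ Finset.Icc (B₀ + 1) B₁, w B * (s * B) := by
          rw [Finset.mul_sum]
          apply Finset.sum_congr rfl
          intro B hB
          rw [← hwB B (by have := (Finset.mem_Icc.1 hB).1; omega)]
          ring
      _ ≤ ∑ B ∈ Finset.Icc (B₀ + 1) B₁, w B * cost B := by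
          apply Finset.sum_le_sum
          intro B hB
          exact mul_le_mul_of_nonneg_left (hbad B (Finset.mem_Icc.1 hB).1) (hw0 B)
      _ ≤ _ := by
          apply Finset.sum_le_sum_of_subset_of_nonneg
          · intro B hB
            rw [Finset.mem_Icc] at hB ⊢
            omega
          · intro B _ _
            exact mul_nonneg (hw0 B) (hcost0 B)
  -- combine
  have hdd : ((d * (d - 1) : ℕ) : ℝ) / ((2 * (d - 1) : ℕ) : ℝ) = (d : ℝ) / 2 := by
    have h1 : ((d - 1 : ℕ) : ℝ) ≠ 0 := by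
      have : d - 1 ≠ 0 := by omega
      exact_mod_cast this
    push_cast
    field_simp
  set Cfin : ℝ := T + (d : ℝ) / 2 * ((m + ε) * C₃) + Ctot / ((2 * (d - 1) : ℕ) : ℝ)
    + s * Real.log (((B₀ + 1 : ℕ) : ℝ) + 1) with hCfin
  have hcontra : ∀ B₁ : ℕ, B₀ + 1 ≤ B₁ → g / 2 * Real.log ((B₁ : ℝ) + 1) ≤ Cfin := by
    intro B₁ hB₁
    have h1 := (hlower B₁ hB₁).trans (hsumcost B₁)
    have h2 := hlogM B₁
    have hB : (0 : ℝ) ≤ B₁ := Nat.cast_nonneg _
    have h3 : Real.log ((B₁ : ℝ) + 1) ≤ Real.log ((B₁ : ℝ) + 2) :=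
      Real.log_le_log (by positivity) (by linarith)
    have hlog0 : 0 ≤ Real.log ((B₁ : ℝ) + 1) := Real.log_nonneg (by linarith)
    set lg := Real.log ((B₁ : ℝ) + 1) with hlg
    have h4 : ((d * (d - 1) : ℕ) * ((m + ε) * Real.log ((Mb B₁ : ℝ) + 1)) + Ctot)
        / ((2 * (d - 1) : ℕ) : ℝ) ≤ (d : ℝ) / 2 * ((m + ε) * (lg + C₃))
        + Ctot / ((2 * (d - 1) : ℕ) : ℝ) := by
      rw [add_div, mul_div_right_comm, hdd]
      have h5 : (m + ε) * Real.log ((Mb B₁ : ℝ) + 1) ≤ (m + ε) * (lg + C₃) :=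
        mul_le_mul_of_nonneg_left h2 (by linarith)
      have h6 := mul_le_mul_of_nonneg_left h5 (show (0 : ℝ) ≤ (d : ℝ) / 2 by positivity)
      linarith
    have h5 : (s : ℝ) * lg ≤ s * Real.log ((B₁ : ℝ) + 2) := mul_le_mul_of_nonneg_left h3 s.2
    have h6 : T / (N * x) * lg ≤ g / 4 * lg := mul_le_mul_of_nonneg_right hT1 hlog0
    have h7 : (d : ℝ) / 2 * ε = g / 4 := by rw [hε]; field_simp; ring
    have h8 : (d : ℝ) / 2 * ((m + ε) * (lg + C₃))
        = ((d : ℝ) / 2 * m) * lg + ((d : ℝ) / 2 * ε) * lg + (d : ℝ) / 2 * ((m + ε) * C₃) := by ring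
    rw [h8, h7] at h4
    have h9 : (s : ℝ) = g + (d : ℝ) / 2 * m := by rw [hg]; ring
    have h10 : (s : ℝ) * lg = g * lg + ((d : ℝ) / 2 * m) * lg := by rw [h9]; ring
    rw [hCfin]
    linarith
  have htend : Tendsto (fun B₁ : ℕ => g / 2 * Real.log ((B₁ : ℝ) + 1)) atTop atTop := by
    apply Tendsto.const_mul_atTop (by positivity)
    exact Real.tendsto_log_atTop.comp
      (tendsto_atTop_add_const_right _ _ tendsto_natCast_atTop_atTop)
  obtain ⟨B₁, h1, h2⟩ := ((htend.eventually_gt_atTop Cfin).and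
    (eventually_ge_atTop (B₀ + 1))).exists
  exact absurd (hcontra B₁ h2) (not_le.2 h1)

end Sponge

end Pool.Agent.FC9311
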